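import Pool.Agent.H83.TU.Base

/-!
# Theorem U: the properties of `X` which link the parts of the proof (definitions)

* `GF X`: (G1) the spaces of sections are finite dimensional and `h0 (n D) ≤ C n ^ 3`.
* `NZ X`: the sections of `j D` vanish to order `≤ C j` along a prime divisor.
* `UN X`: (G2) for `A` ample, `M` any divisor and finitely many points, `m A + M` has for all large `m` a section which
  is a unit at these points.
* `UF X`: (G2) for `A` ample and a function `f` which is regular at finitely many points, for all large `m` there is a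
  section `s` of `m A` which is a unit at these points, such that `s f` is a section of `m A`.
* `RFun R`: `R` is an additive integral function on the Cartier divisors, nonnegative on the effective ones and
  positive on the ample ones.
* `AC ν`: (G4) a divisor with class in the ample cone is ample.
* `BG ν`: (G4) a divisor with class in the interior of the effective cone has a multiple which is the sum of an ample
  and an effective divisor.
* `Coords ν p x y`: coordinates of the plane adapted to the boundary class `p`.
-/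

set_option autoImplicit false

namespace Pool.Agent.H83.TU

open Pool.Agent.H54.RV

variable {k K : Type} [Field k] [Field K] [Algebra k K] (X : Mod k K)

/-- finiteness and growth -/
def GF : Prop :=
  (∀ (D : Cart X) (n : ℕ), Module.Finite k (secL D n)) ∧
    ∀ D : Cart X, ∃ C : ℕ, ∀ n : ℕ, 1 ≤ n → h0 D n ≤ C * n ^ 3

/-- the order of the sections of the multiples `j D` along a prime divisor grows at most linearly -/
def NZ : Prop :=
  ∀ (D : Cart X) (P : PDiv X), ∃ C : ℕ, ∀ (j : ℕ) (f : K), 1 ≤ j → f ≠ 0 → Sec D j f →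
    P.p.ord (f * D.eq P.η ^ j) ≤ C * j

/-- sections which are units at finitely many points -/
def UN : Prop :=
  ∀ (A M : Cart X) (T : Finset X.P), Ample A → ∃ m₀ : ℕ, ∀ m ≥ m₀, ∃ s : K, Sec (A ^ m * M) 1 s ∧
    ∀ x ∈ T, x ∈ nz (A ^ m * M) 1 s

/-- sections which are units at finitely many points, with a function as a quotient -/
def UF : Prop :=
  ∀ (A : Cart X) (T : Finset X.P) (f : K), Ample A → (∀ x ∈ T, f ∈ X.O x) → ∃ m₀ : ℕ, ∀ m ≥ m₀, ∃ s : K,
    Sec A m s ∧ Sec A m (s * f) ∧ ∀ x ∈ T, x ∈ nz A m s

variable {X}

/-- an additive function, nonnegative on effective and positive on ample divisors -/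
structure RFun (R : Cart X → ℤ) : Prop where
  add : ∀ D E, R (D * E) = R D + R E
  eff : ∀ D, Effective D → 0 ≤ R D
  amp : ∀ D, Ample D → 0 < R D

variable (ν : Cart X →* Multiplicative (Fin 2 → ℤ))

/-- divisors with class in the ample cone are ample -/
def AC : Prop := ∀ D : Cart X, cv ν D ∈ AmpV ν → Ample D

/-- divisors with class in the interior of the effective cone are big -/
def BG : Prop :=
  ∀ B : Cart X, cv ν B ∈ interior (EffV ν) →
    ∃ N : ℕ, 1 ≤ N ∧ ∃ A E : Cart X, Ample A ∧ Effective E ∧ B ^ N = A * E

/-- coordinates adapted to the class `p` -/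
structure Coords (p : Fin 2 → ℝ) (x y : (Fin 2 → ℝ) →ₗ[ℝ] ℝ) : Prop where
  yp : y p = 0
  xp : 0 < x p
  inj : ∀ v, x v = 0 → y v = 0 → v = 0
  xint : ∀ D : Cart X, ∃ m : ℤ, x (cv ν D) = m
  xeff : ∀ v ∈ EffV ν, 0 ≤ x v
  yeff : ∀ v ∈ EffV ν, 0 ≤ y v
  xamp : ∀ v ∈ AmpV ν, 0 < x v
  yamp : ∀ v ∈ AmpV ν, 0 < y v
  ypos : ∀ D : Cart X, Effective D → ¬ Effective D⁻¹ → 0 < y (cv ν D)
  yirr : ∀ D : Cart X, y (cv ν D) = 0 → cv ν D = 0

end Pool.Agent.H83.TU
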