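import Pool.Agent.H83.TU.AM
import Pool.Agent.H83.TU.Props

/-!
# Theorem U: the classes in the plane (complete)
-/

set_option autoImplicit false

namespace Pool.Agent.H83.TU

open Pool.Agent.H54.RV

variable {k K : Type} [Field k] [Field K] [Algebra k K] {X : Mod k K}

section hom

variable (ν : Cart X →* Multiplicative (Fin 2 → ℤ))

theorem cv_mul (D E : Cart X) : cv ν (D * E) = cv ν D + cv ν E := by
  funext i
  unfold cv
  rw [map_mul, toAdd_mul, Pi.add_apply, Pi.add_apply]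
  push_cast
  rfl

theorem cv_one : cv ν (1 : Cart X) = 0 := by
  funext i
  unfold cv
  rw [map_one, toAdd_one, Pi.zero_apply, Pi.zero_apply]
  exact Int.cast_zero

theorem cv_inv (D : Cart X) : cv ν D⁻¹ = - cv ν D := by
  have h := cv_mul ν D⁻¹ D
  rw [inv_mul_cancel, cv_one] at h
  exact (neg_eq_of_add_eq_zero_left h.symm).symm

theorem cv_pow (D : Cart X) (n : ℕ) : cv ν (D ^ n) = (n : ℝ) • cv ν D := by
  induction n with
  | zero => rw [pow_zero, cv_one, Nat.cast_zero, zero_smul]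
  | succ n ih =>
    rw [pow_succ, cv_mul, ih, Nat.cast_succ, add_smul, one_smul]

theorem cv_zpow (D : Cart X) (n : ℤ) : cv ν (D ^ n) = (n : ℝ) • cv ν D := by
  obtain ⟨m, rfl | rfl⟩ := n.eq_nat_or_neg
  · rw [zpow_natCast, cv_pow]
    simp
  · rw [zpow_neg, zpow_natCast, cv_inv, cv_pow]
    simp

theorem cv_prod {ι : Type} (s : Finset ι) (f : ι → Cart X) : cv ν (∏ i ∈ s, f i) = ∑ i ∈ s, cv ν (f i) := by
  classical
  induction s using Finset.induction_on with
  | empty => rw [Finset.prod_empty, Finset.sum_empty, cv_one]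
  | insert a s ha ih => rw [Finset.prod_insert ha, Finset.sum_insert ha, cv_mul, ih]

theorem cv_int (D : Cart X) : ∃ s : Fin 2 → ℤ, cv ν D = fun i => (s i : ℝ) := ⟨_, rfl⟩

theorem cv_inj (D E : Cart X) : cv ν D = cv ν E ↔ ν D = ν E := by
  constructor
  · intro h
    apply Multiplicative.toAdd.injective
    funext i
    have h2 : ((Multiplicative.toAdd (ν D) i : ℤ) : ℝ) = ((Multiplicative.toAdd (ν E) i : ℤ) : ℝ) := congrFun h i
    exact_mod_cast h2
  · intro h
    unfold cv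
    rw [h]

theorem ampV_of {ι : Type} [Fintype ι] [Nonempty ι] (c : ι → ℝ) (D : ι → Cart X)
    (hc : ∀ i, 0 < c i) (hD : ∀ i, Ample (D i)) : ∑ i, c i • cv ν (D i) ∈ AmpV ν := by
  have hcard : Fintype.card ι = (Fintype.card ι - 1) + 1 := by
    have : 0 < Fintype.card ι := Fintype.card_pos
    omega
  obtain ⟨e⟩ : Nonempty (Fin ((Fintype.card ι - 1) + 1) ≃ ι) := by
    rw [← hcard]
    exact ⟨(Fintype.equivFin ι).symm⟩
  exact ⟨Fintype.card ι - 1, fun i => c (e i), fun i => D (e i), fun i => hc _, fun i => hD _,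
    (Equiv.sum_comp e fun i => c i • cv ν (D i)).symm⟩

theorem effV_of {ι : Type} [Fintype ι] (c : ι → ℝ) (D : ι → Cart X)
    (hc : ∀ i, 0 ≤ c i) (hD : ∀ i, Effective (D i)) : ∑ i, c i • cv ν (D i) ∈ EffV ν := by
  obtain ⟨e⟩ : Nonempty (Fin (Fintype.card ι) ≃ ι) := ⟨(Fintype.equivFin ι).symm⟩
  exact ⟨Fintype.card ι, fun i => c (e i), fun i => D (e i), fun i => hc _, fun i => hD _,
    (Equiv.sum_comp e fun i => c i • cv ν (D i)).symm⟩

theorem ampV_cv (D : Cart X) (hD : Ample D) : cv ν D ∈ AmpV ν :=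
  ⟨0, fun _ => 1, fun _ => D, fun _ => one_pos, fun _ => hD, by simp⟩

theorem effV_cv (D : Cart X) (hD : Effective D) : cv ν D ∈ EffV ν :=
  ⟨1, fun _ => 1, fun _ => D, fun _ => zero_le_one, fun _ => hD, by simp⟩

theorem effV_zero : (0 : Fin 2 → ℝ) ∈ EffV ν :=
  ⟨0, fun _ => 0, fun i => i.elim0, fun i => i.elim0, fun i => i.elim0, by simp⟩

variable {ν}

theorem ampV_add {v w : Fin 2 → ℝ} (hv : v ∈ AmpV ν) (hw : w ∈ AmpV ν) : v + w ∈ AmpV ν := by
  obtain ⟨m, c, D, hc, hD, rfl⟩ := hv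
  obtain ⟨m', c', D', hc', hD', rfl⟩ := hw
  have h := ampV_of ν (Sum.elim c c') (Sum.elim D D') (by
    rintro (i | i)
    · exact hc i
    · exact hc' i) (by
    rintro (i | i)
    · exact hD i
    · exact hD' i)
  rwa [Fintype.sum_sum_type] at h

theorem ampV_smul {c : ℝ} (hc : 0 < c) {v : Fin 2 → ℝ} (hv : v ∈ AmpV ν) : c • v ∈ AmpV ν := by
  obtain ⟨m, a, D, ha, hD, rfl⟩ := hv
  refine ⟨m, fun i => c * a i, D, fun i => mul_pos hc (ha i), hD, ?_⟩
  rw [Finset.smul_sum]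
  exact Finset.sum_congr rfl fun i _ => smul_smul _ _ _

theorem effV_add {v w : Fin 2 → ℝ} (hv : v ∈ EffV ν) (hw : w ∈ EffV ν) : v + w ∈ EffV ν := by
  obtain ⟨m, c, D, hc, hD, rfl⟩ := hv
  obtain ⟨m', c', D', hc', hD', rfl⟩ := hw
  have h := effV_of ν (Sum.elim c c') (Sum.elim D D') (by
    rintro (i | i)
    · exact hc i
    · exact hc' i) (by
    rintro (i | i)
    · exact hD i
    · exact hD' i)
  rwa [Fintype.sum_sum_type] at h

theorem effV_smul {c : ℝ} (hc : 0 ≤ c) {v : Fin 2 → ℝ} (hv : v ∈ EffV ν) : c • v ∈ EffV ν := by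
  obtain ⟨m, a, D, ha, hD, rfl⟩ := hv
  refine ⟨m, fun i => c * a i, D, fun i => mul_nonneg hc (ha i), hD, ?_⟩
  rw [Finset.smul_sum]
  exact Finset.sum_congr rfl fun i _ => smul_smul _ _ _

theorem ampV_conv : Convex ℝ (AmpV ν) := by
  intro v hv w hw a b ha hb hab
  rcases ha.eq_or_lt with h | ha'
  · rw [← h, zero_add] at hab
    rw [← h, hab, zero_smul, one_smul, zero_add]
    exact hw
  rcases hb.eq_or_lt with h | hb'
  · rw [← h, add_zero] at hab
    rw [← h, hab, zero_smul, one_smul, add_zero]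
    exact hv
  exact ampV_add (ampV_smul ha' hv) (ampV_smul hb' hw)

theorem effV_conv : Convex ℝ (EffV ν) := by
  intro v hv w hw a b ha hb _
  exact effV_add (effV_smul ha hv) (effV_smul hb hw)

end hom

variable {ν : Cart X →* Multiplicative (Fin 2 → ℤ)}

theorem cv_eq_zero (hν : Num ν) (D : Cart X) : cv ν D = 0 ↔ NumZ D := by
  rw [← cv_one ν, cv_inj, map_one, hν.ker]

theorem cv_prin (hν : Num ν) (f : K) (hf : f ≠ 0) : cv ν (prin X f hf) = 0 :=
  (cv_eq_zero hν _).2 (numz_prin f hf)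

/-- a divisor with the class of an ample divisor is ample -/
theorem ample_congr (hν : Num ν) (A D : Cart X) (hA : Ample A) (h : cv ν D = cv ν A) : Ample D := by
  have h1 : cv ν (D * A⁻¹) = 0 := by rw [cv_mul, cv_inv, h, add_neg_cancel]
  have h2 := ((cv_eq_zero hν _).1 h1 A hA).1
  have h3 : A * (D * A⁻¹) = D := by
    rw [mul_comm D, mul_inv_cancel_left]
  rwa [h3] at h2

theorem cv_surj (hν : Num ν) (s : Fin 2 → ℤ) : ∃ D : Cart X, cv ν D = fun i => (s i : ℝ) := by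
  obtain ⟨D, hD⟩ := hν.surj (Multiplicative.ofAdd s)
  refine ⟨D, ?_⟩
  unfold cv
  rw [hD]
  rfl

/-- ample classes are effective -/
theorem ampV_effV (hX : IsVar X) (hν : Num ν) : AmpV ν ⊆ EffV ν := by
  rintro _ ⟨m, a, D, ha, hD, rfl⟩
  have h1 : ∀ i, ∃ (n : ℕ) (E : Cart X), 1 ≤ n ∧ Effective E ∧ cv ν E = (n : ℝ) • cv ν (D i) := by
    intro i
    obtain ⟨x⟩ := hX.ne
    obtain ⟨n, hn, s, hs, hx, -⟩ := hD i x
    have hs0 : s ≠ 0 := left_ne_zero_of_mul (And.left hx)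
    refine ⟨n, prin X s hs0 * D i ^ n, hn, fun y => ?_, ?_⟩
    · rw [mul_eq, pow_eq]
      exact hs y
    · rw [cv_mul, cv_prin hν, cv_pow, zero_add]
  choose n E hn hE hcl using h1
  have hn' : ∀ i, (0 : ℝ) < n i := fun i => by exact_mod_cast hn i
  refine ⟨m + 1, fun i => a i / n i, E, fun i => div_nonneg (ha i).le (hn' i).le, hE, ?_⟩
  refine Finset.sum_congr rfl fun i _ => ?_
  rw [hcl i, smul_smul, div_mul_cancel₀ _ (hn' i).ne']

end Pool.Agent.H83.TU
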