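import Pool.Agent.H83.TU.PA

/-!
# [H83 TU PB] Theorem U: a prime divisor is locally given by one equation

`pt_ord`: elements of `O x`, `P.η ⤳ x`, have order `≥ 0` at `P` (`IsVar.spec`, `P.mem`, `ord_nonneg`).

`pdiv_uni`: `P` a prime divisor, `P.η ⤳ x`.  There is `π ∈ O x` with `ord π = 1` and for `0 ≠ a ∈ O x`: `ord a > 0` iff `a / π ∈ O x`.

PROOF.  (1) Let `U` be affine, `x ∈ U`; then `η = P.η ∈ U` (`U` is open, `Specializes.mem_open`).  `ord_unif` gives `t ≠ 0` with `ord t = 1`, so `t ∈ O η` (`P.mem`, `ord_nonneg`); `IsVar.frac`: `t * s ∈ sec U`, `s ∈ sec U`, `Un (O η) s`.  So `a₁ = t * s ∈ O x`, `ord a₁ = 1` (`ord_mul`, `ord_eq_zero`).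
(2) `O x` is a UFD (`h.ufd x`): `a₁` is a product of primes of `O x` and a unit (`UniqueFactorizationMonoid.exists_prime_factors` or `induction_on_prime`); the orders of the factors are `≥ 0` and their sum is `1` (units of `O x` are units of `O η`: order `0`), so there is a prime factor `π` of `a₁` with `ord π = 1`.
(3) Let `0 ≠ b ∈ O x`, `ord b > 0`.  `ord (b / a₁) ≥ 0`, so `b / a₁ ∈ O η` and (`IsVar.frac`) `b / a₁ * s = c ∈ sec U ⊆ O x`, `s ∈ sec U`, `Un (O η) s`: `b * s = a₁ * c` in `O x`.  `π` divides `a₁`, so `π` divides `b * s` in `O x`; `π` is prime, so it divides `b` or `s`; it does not divide `s`, since `ord s = 0 < 1 = ord π` (`s = π * d` with `d ∈ O x`, `ord d ≥ 0`).  So `b / π ∈ O x`.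
(4) Conversely `b / π ∈ O x` gives `ord b = ord π + ord (b / π) ≥ 1`.
-/

set_option autoImplicit false

namespace Pool.Agent.H83.TU

open Pool.Agent.H54.RV

variable {k K : Type} [Field k] [Field K] [Algebra k K] {X : Mod k K}

theorem pt_ord (hX : IsVar X) (P : PDiv X) (x : X.P) (hx : P.η ⤳ x) (a : K) (ha : a ∈ X.O x) (h0 : a ≠ 0) :
    0 ≤ P.p.ord a :=
  (ord_nonneg P.p a h0).2 ((P.mem a).1 (hX.spec P.η x hx ha))

theorem pdiv_uni (h : Hyp X) (P : PDiv X) (x : X.P) (hx : P.η ⤳ x) :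
    ∃ π ∈ X.O x, π ≠ 0 ∧ P.p.ord π = 1 ∧ ∀ a ∈ X.O x, a ≠ 0 → (0 < P.p.ord a ↔ a / π ∈ X.O x) := by
  have hX := h.var
  obtain ⟨U, hU, hxU⟩ := hX.chart x
  have hηU : P.η ∈ U := hx.mem_open (hX.op U hU) hxU
  have hsecx : ∀ a ∈ X.sec U, a ∈ X.O x := fun a ha => (mem_sec U a).1 ha x hxU
  have hun0 : ∀ s, Un (X.O P.η) s → P.p.ord s = 0 := fun s hs =>
    (ord_eq_zero P.p s hs.1).2 ⟨(P.mem s).1 hs.2.1, (P.mem _).1 hs.2.2⟩
  obtain ⟨t, ht0, ht1⟩ := ord_unif P.p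
  have htη : t ∈ X.O P.η := (P.mem t).2 ((ord_nonneg P.p t ht0).1 (by omega))
  obtain ⟨s, hs, hsu, hts⟩ := hX.frac U P.η hU hηU t htη
  have ha₁ : P.p.ord (t * s) = 1 := by
    rw [ord_mul P.p t s ht0 hsu.1, ht1, hun0 s hsu]
    omega
  have ha₁0 : t * s ≠ 0 := mul_ne_zero ht0 hsu.1
  have ha₁x : t * s ∈ X.O x := hsecx _ hts
  haveI := h.ufd x
  have hfac : ∀ b : X.O x, b ≠ 0 → 0 < P.p.ord (b : K) →
      ∃ q : X.O x, Prime q ∧ q ∣ b ∧ 0 < P.p.ord (q : K) := by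
    intro b
    refine UniqueFactorizationMonoid.induction_on_prime b (fun hh => absurd rfl hh) ?_ ?_
    · intro y hy hy0 hpos
      exfalso
      have h1 : Un (X.O x) (y : K) := (un_iff y.2).1 hy
      have h2 := hun0 (y : K) (un_mono (hX.spec P.η x hx) h1)
      omega
    · intro a p ha hp ih hpa hpos
      have ha0 : (a : K) ≠ 0 := fun hh => ha (Subtype.ext hh)
      have hp0 : (p : K) ≠ 0 := fun hh => hp.ne_zero (Subtype.ext hh)
      have h1 : P.p.ord ((p * a : X.O x) : K) = P.p.ord (p : K) + P.p.ord (a : K) :=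
        ord_mul P.p _ _ hp0 ha0
      rcases lt_or_ge 0 (P.p.ord (p : K)) with h2 | h2
      · exact ⟨p, hp, dvd_mul_right p a, h2⟩
      · obtain ⟨q, hq1, hq2, hq3⟩ := ih ha (by omega)
        exact ⟨q, hq1, hq2.mul_left p, hq3⟩
  obtain ⟨q, hq1, ⟨d, hd⟩, hq3⟩ := hfac ⟨t * s, ha₁x⟩ (fun hh => ha₁0 (congrArg Subtype.val hh))
    (by
      change 0 < P.p.ord (t * s)
      omega)
  have hd' : t * s = (q : K) * (d : K) := congrArg Subtype.val hd
  have hq0 : (q : K) ≠ 0 := fun hh => hq1.ne_zero (Subtype.ext hh)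
  have hd0 : (d : K) ≠ 0 := fun hh => ha₁0 (by rw [hd', hh, mul_zero])
  have hqord : P.p.ord (q : K) = 1 := by
    have h1 := ord_mul P.p _ _ hq0 hd0
    rw [← hd', ha₁] at h1
    have h2 := pt_ord hX P x hx (d : K) d.2 hd0
    omega
  refine ⟨(q : K), q.2, hq0, hqord, ?_⟩
  intro b hb hb0
  constructor
  · intro hpos
    have h1 : b / (t * s) ∈ X.O P.η := by
      rw [P.mem, ← ord_nonneg P.p _ (div_ne_zero hb0 ha₁0), div_eq_mul_inv,
        ord_mul P.p _ _ hb0 (inv_ne_zero ha₁0), ord_inv, ha₁]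
      omega
    obtain ⟨r, hr, hru, hbr⟩ := hX.frac U P.η hU hηU _ h1
    have hr0 : r ≠ 0 := hru.1
    have h2 : (⟨b, hb⟩ : X.O x) * ⟨r, hsecx r hr⟩ =
        q * (d * ⟨b / (t * s) * r, hsecx _ hbr⟩) := by
      apply Subtype.ext
      change b * r = (q : K) * ((d : K) * (b / (t * s) * r))
      rw [← mul_assoc, ← hd']
      have hs0 := hsu.1
      field_simp
    have h3 : q ∣ (⟨b, hb⟩ : X.O x) * ⟨r, hsecx r hr⟩ := ⟨_, h2⟩
    rcases hq1.dvd_or_dvd h3 with h4 | h4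
    · obtain ⟨c, hc⟩ := h4
      have h5 : b = (q : K) * (c : K) := congrArg Subtype.val hc
      rw [h5, mul_div_cancel_left₀ _ hq0]
      exact c.2
    · exfalso
      obtain ⟨c, hc⟩ := h4
      have h5 : r = (q : K) * (c : K) := congrArg Subtype.val hc
      have hc0 : (c : K) ≠ 0 := fun hh => hr0 (by rw [h5, hh, mul_zero])
      have h6 := hun0 r hru
      rw [h5, ord_mul P.p _ _ hq0 hc0, hqord] at h6
      have h7 := pt_ord hX P x hx (c : K) c.2 hc0
      omega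
  · intro hbq
    have h1 : b = (q : K) * (b / (q : K)) := by field_simp
    have h2 : b / (q : K) ≠ 0 := div_ne_zero hb0 hq0
    rw [h1, ord_mul P.p _ _ hq0 h2, hqord]
    have h3 := pt_ord hX P x hx _ hbq h2
    omega

end Pool.Agent.H83.TU
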