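import Pool.Agent.H83.TU.Base

/-!
# Theorem U: the centre on `X` of a place of the function field (complete)

* `genE`: the function field is the residue field at the generic point.
* `cenK`: the centre of a place `p` of `K`; `cenK_dom`, `cenK_eq`: it is the only point whose local ring is dominated
  by `p.R`; `cenK_mem`: if `sec U` is contained in `p.R` then the centre is in `U`.
* `PDiv.cen`: a prime divisor is the centre of its place.
-/

set_option autoImplicit false

namespace Pool.Agent.H83.TU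

open Pool.Agent.H54.RV

variable {k K : Type} [Field k] [Field K] [Algebra k K] {X : Mod k K}

theorem genE {g : X.P} (hg : Gen X g) : ∃ e : K ≃ₐ[k] X.kap g, ∀ a, e a = X.rs g a := by
  have hm : ∀ a : K, a ∈ X.O g := fun a => by
    rw [hg.top]
    exact Algebra.mem_top
  let φ : K →ₐ[k] X.kap g :=
    { toFun := X.rs g
      map_one' := rs_one g
      map_mul' := fun a b => rs_mul g (hm a) (hm b)
      map_zero' := by
        have h1 := rs_ne g (X.O g).zero_mem
        have h2 : ¬ Un (X.O g) 0 := fun hh => hh.1 rfl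
        by_contra h3
        exact h2 (h1.1 h3)
      map_add' := fun a b => rs_add g (hm a) (hm b)
      commutes' := fun c => rs_alg g c }
  have hs : Function.Surjective φ := by
    intro y
    obtain ⟨⟨a, ha⟩, rfl⟩ := IsLocalRing.residue_surjective (R := X.O g) y
    refine ⟨a, ?_⟩
    show X.rs g a = _
    unfold Mod.rs
    rw [dif_pos ha]
  exact ⟨AlgEquiv.ofBijective φ ⟨φ.toRingHom.injective, hs⟩, fun a => rfl⟩

theorem gen_mem {g : X.P} (hg : Gen X g) (U : Set X.P) (hU : IsOpen U) (hne : U.Nonempty) : g ∈ U := by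
  obtain ⟨x, hx⟩ := hne
  exact (hg.spec x).mem_open hU hx

theorem cen_iff_dom {g : X.P} (hg : Gen X g) (e : K ≃ₐ[k] X.kap g) (he : ∀ a, e a = X.rs g a)
    (p : Place k K) (x : X.P) : Cen X g x (place_map e p) ↔ Dom X x p := by
  have h1 : ∀ a, X.rs g a ∈ (place_map e p).R ↔ a ∈ p.R := fun a => by
    rw [← he, place_map_mem]
  have h2 : ∀ a, (X.rs g a)⁻¹ ∈ (place_map e p).R ↔ a⁻¹ ∈ p.R := fun a => by
    rw [← he, ← map_inv₀, place_map_mem]
  have h3 : ∀ a, X.rs g a ≠ 0 ↔ a ≠ 0 := fun a => by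
    rw [← he]
    exact not_congr (map_eq_zero e)
  constructor
  · rintro ⟨-, -, h⟩ a ha
    obtain ⟨h4, h5⟩ := h a ha
    exact ⟨(h1 a).1 h4, fun h6 h7 => h5 ((h3 a).2 h6) ((h2 a).2 h7)⟩
  · intro h
    refine ⟨hg.spec x, ?_, fun a ha => ?_⟩
    · rw [hg.top]
      exact le_top
    · obtain ⟨h4, h5⟩ := h a ha
      exact ⟨(h1 a).2 h4, fun h6 h7 => h5 ((h3 a).1 h6) ((h2 a).1 h7)⟩

theorem exists_cenK (hX : IsVar X) (hg : ∃ g, Gen X g) (p : Place k K) : ∃! x, Dom X x p := by
  obtain ⟨g, hg⟩ := hg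
  obtain ⟨e, he⟩ := genE hg
  obtain ⟨x, hx, hu⟩ := hX.cen g (place_map e p)
  refine ⟨x, (cen_iff_dom hg e he p x).1 hx, fun y hy => hu y ((cen_iff_dom hg e he p y).2 hy)⟩

/-- the centre of a place of the function field -/
noncomputable def cenK (hX : IsVar X) (hg : ∃ g, Gen X g) (p : Place k K) : X.P :=
  (exists_cenK hX hg p).choose

theorem cenK_dom (hX : IsVar X) (hg : ∃ g, Gen X g) (p : Place k K) : Dom X (cenK hX hg p) p :=
  (exists_cenK hX hg p).choose_spec.1

theorem cenK_eq (hX : IsVar X) (hg : ∃ g, Gen X g) (p : Place k K) (x : X.P) (h : Dom X x p) :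
    x = cenK hX hg p :=
  (exists_cenK hX hg p).choose_spec.2 x h

theorem cenK_mem (hX : IsVar X) (hg : ∃ g, Gen X g) (p : Place k K) (U : Set X.P) (hU : X.aff U)
    (hne : U.Nonempty) (h : ∀ a ∈ X.sec U, a ∈ p.R) : cenK hX hg p ∈ U := by
  have hg' := hg
  obtain ⟨g, hg⟩ := hg
  obtain ⟨e, he⟩ := genE hg
  have hgU : g ∈ U := gen_mem hg U (hX.op U hU) hne
  have h1 := cen_of hX g (place_map e p) U hU hgU (fun a ha => by
    rw [← he, place_map_mem]
    exact h a ha)
  have h2 := (cen_iff_dom hg e he p _).1 (ctr_cen hX g (place_map e p))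
  rw [← cenK_eq hX hg' p _ h2]
  exact h1

/-- a prime divisor is the centre of its place -/
theorem PDiv.cen (hX : IsVar X) (hg : ∃ g, Gen X g) (P : PDiv X) : cenK hX hg P.p = P.η := by
  refine (cenK_eq hX hg P.p P.η fun a ha => ⟨(P.mem a).1 ha, fun _ h => (P.mem _).2 h⟩).symm

/-- the local equation of a divisor at the centre of a place: it does not matter (up to elements of order `0`)
where in a neighbourhood of the centre the local equation is taken -/
theorem ord_loc (hX : IsVar X) (hg : ∃ g, Gen X g) (D : Cart X) (p : Place k K) (x : X.P) (U : Set X.P)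
    (hU : ∀ y ∈ U, Un (X.O y) (D.eq y / D.eq x)) (hp : cenK hX hg p ∈ U) :
    p.ord (D.eq (cenK hX hg p)) = p.ord (D.eq x) := by
  have h1 := hU _ hp
  have h2 := cenK_dom hX hg p
  have h3 : p.ord (D.eq (cenK hX hg p) / D.eq x) = 0 :=
    (ord_eq_zero p _ h1.1).2 ⟨(h2 _ h1.2.1).1, (h2 _ h1.2.2).1⟩
  rw [div_eq_mul_inv, ord_mul p _ _ (D.ne _) (inv_ne_zero (D.ne x)), ord_inv] at h3
  omega

/-- the centre specializes: the local ring at a point of the closure of the centre is contained in `p.R` -/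
theorem cenK_le (hX : IsVar X) (hg : ∃ g, Gen X g) (p : Place k K) (a : K)
    (ha : a ∈ X.O (cenK hX hg p)) : a ∈ p.R :=
  (cenK_dom hX hg p a ha).1

end Pool.Agent.H83.TU
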