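import Pool.Agent.H57.KM.Basic
import Pool.Agent.H83.DC.Base

/-!
# [H83 TU DP] Theorem U: fundamental domains of a group acting on a rational polyhedral plane cone

`G` a subgroup of `GL_2(ℤ)`, acting on `V 2 = ℝ²` by `act` (`H57/KM/Defs.lean`, `H57/KM/Basic.lean`).

* `fund_plane`: let `C = {a u + c w | a, c ≥ 0}` with integral vectors `u, w`, with nonempty interior, mapped into itself by `G`.  Then there is a rational polyhedral cone `P ⊆ C` with `C = ⋃ act g '' P` and disjoint interiors for `g ≠ 1`.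
PROOF.  (1) `u, w` are linearly independent (otherwise `C` is contained in a line and has empty interior), so we may divide by the gcd of the coordinates and assume that `u`, `w` are primitive: every integral vector on the ray `ℝ≥0 u` is a natural multiple of `u` (if `u = m u'`, `C` does not change).
(2) Let `g ∈ G`.  `act g` is linear, bijective, with inverse `act g⁻¹`, both map `C` into `C` and integral vectors to integral vectors (`act_mul`, `act_one`, `act` of an integral vector: see `H57/KM/Basic.lean`).  It maps `u` to a multiple of `u` or of `w`: if `act g u = a u + c w`, `a, c > 0`, then `u = a act g⁻¹ u + c act g⁻¹ w` with both vectors in `C`; the coordinate with respect to `w` of both is `0`, so `act g⁻¹ u`, `act g⁻¹ w` are multiples of `u`, linearly dependent, a contradiction; the same for `w`.  `act g u = α u` with `α > 0`: `α` and `1/α` are natural numbers (primitivity of `u`; `act g` and `act g⁻¹` are integral), so `α = 1`; the same in the other cases.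  So either `act g u = u`, `act g w = w` and `g = 1` (`act` is faithful: `act_inj` or coordinates), or `act g u = w`, `act g w = u`.
(3) If `G` is trivial: `P = C` (`RatPoly` with the set `{u, w}`).
(4) Otherwise the only nontrivial element `g₀` exchanges `u` and `w`; `P = {a u + c (u + w) | a, c ≥ 0}` (`RatPoly` with `{u, u + w}`; if `u = u + w`.. does not happen).  `P` is the set of the points of `C` with `a ≥ c`, and `act g₀ '' P` the set of those with `a ≤ c`.  The interior of `P` is contained in `{a > c}` (move a point with `a = c` in the direction of `w`), the interior of the image in `{a < c}`; `act g₀ '' interior P` is contained in `{a < c}`.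

* `q1_plane`: let `C` be as above, `E` a convex cone (closed under addition and multiplication with `t ≥ 0`) which contains the interior of `C`, mapped into itself by `G`, and `G` and `C` as above.  Then: `C ∩ E` has such a `P` (that is `C ∩ E = ⋃ act g '' P`, `RatPoly P`, disjointness) if and only if `C ⊆ E`.
PROOF.  If `C ⊆ E` then `C ∩ E = C`: `fund_plane`.  Conversely: by (2) `G` has at most two elements, and each `act g '' P` is closed (a rational polyhedral cone is closed: `H57` or `H32` have a lemma, e.g. a finitely generated cone; in the plane also directly), so `C ∩ E` is closed, it contains the interior of `C`, which is dense in `C` (`Convex.closure_interior_eq_closure_of_nonempty_interior`, `C` is closed or `C ⊆ closure (interior C)` by `Convex.closure_subset_closure_interior_of_nonempty_interior`), so `C ⊆ C ∩ E`.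
-/

set_option autoImplicit false

namespace Pool.Agent.H83.TU

open Pool.Agent.H57.KM

/-- `G` has a rational polyhedral fundamental domain on `S` -/
def FundV (G : Subgroup (GL (Fin 2) ℤ)) (S : Set (V 2)) : Prop :=
  ∃ P : Set (V 2), RatPoly P ∧ S = ⋃ g ∈ G, act g '' P ∧
    ∀ g ∈ G, g ≠ 1 → Disjoint (interior P) (act g '' interior P)


/-! ### coordinates -/

/-- first coordinate times the determinant -/
def dp_A (w : Fin 2 → ℤ) (v : V 2) : ℝ := v 0 * w 1 - v 1 * w 0

/-- second coordinate times the determinant -/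
def dp_B (u : Fin 2 → ℤ) (v : V 2) : ℝ := u 0 * v 1 - u 1 * v 0

/-- the determinant -/
def dp_D (u w : Fin 2 → ℤ) : ℝ := u 0 * w 1 - u 1 * w 0

/-- the cone -/
def dp_C (u w : Fin 2 → ℤ) : Set (V 2) :=
  {v | ∃ a c : ℝ, 0 ≤ a ∧ 0 ≤ c ∧ v = a • toR u + c • toR w}

theorem dp_A_comb (u w : Fin 2 → ℤ) (a c : ℝ) : dp_A w (a • toR u + c • toR w) = a * dp_D u w := by
  unfold dp_A dp_D toR
  simp only [Pi.add_apply, Pi.smul_apply, smul_eq_mul]
  ring

theorem dp_B_comb (u w : Fin 2 → ℤ) (a c : ℝ) : dp_B u (a • toR u + c • toR w) = c * dp_D u w := by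
  unfold dp_B dp_D toR
  simp only [Pi.add_apply, Pi.smul_apply, smul_eq_mul]
  ring

theorem dp_uniq {u w : Fin 2 → ℤ} (hD : dp_D u w ≠ 0) {a c a' c' : ℝ}
    (h : a • toR u + c • toR w = a' • toR u + c' • toR w) : a = a' ∧ c = c' := by
  have h1 := congrArg (dp_A w) h
  have h2 := congrArg (dp_B u) h
  rw [dp_A_comb, dp_A_comb] at h1
  rw [dp_B_comb, dp_B_comb] at h2
  exact ⟨mul_right_cancel₀ hD h1, mul_right_cancel₀ hD h2⟩

theorem dp_repr {u w : Fin 2 → ℤ} (hD : dp_D u w ≠ 0) (v : V 2) :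
    v = (dp_A w v / dp_D u w) • toR u + (dp_B u v / dp_D u w) • toR w := by
  have h : ∀ i : Fin 2, dp_D u w * v i = dp_A w v * u i + dp_B u v * w i := by
    intro i
    unfold dp_A dp_B dp_D
    fin_cases i
    · simp only [Fin.zero_eta]; ring
    · simp only [Fin.mk_one]; ring
  funext i
  show v i = dp_A w v / dp_D u w * (u i : ℝ) + dp_B u v / dp_D u w * (w i : ℝ)
  have h1 := h i
  field_simp
  linarith

theorem dp_mem {u w : Fin 2 → ℤ} (hD : dp_D u w ≠ 0) (v : V 2) :
    v ∈ dp_C u w ↔ 0 ≤ dp_A w v / dp_D u w ∧ 0 ≤ dp_B u v / dp_D u w := by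
  constructor
  · rintro ⟨a, c, ha, hc, rfl⟩
    rw [dp_A_comb, dp_B_comb, mul_div_cancel_right₀ _ hD, mul_div_cancel_right₀ _ hD]
    exact ⟨ha, hc⟩
  · rintro ⟨h1, h2⟩
    exact ⟨_, _, h1, h2, dp_repr hD v⟩

/-- the determinant is not zero -/
theorem dp_det {u w : Fin 2 → ℤ} (hi : (interior (dp_C u w)).Nonempty) : dp_D u w ≠ 0 := by
  intro hD
  obtain ⟨n, hn, hu, hw⟩ : ∃ n : V 2, n ≠ 0 ∧ n 0 * u 0 + n 1 * u 1 = 0 ∧ n 0 * w 0 + n 1 * w 1 = 0 := by
    unfold dp_D at hD
    by_cases hu0 : (u 0 : ℝ) = 0 ∧ (u 1 : ℝ) = 0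
    · by_cases hw0 : (w 0 : ℝ) = 0 ∧ (w 1 : ℝ) = 0
      · refine ⟨![1, 0], ?_, ?_, ?_⟩
        · intro h
          have := congrFun h 0
          simp at this
        · simp [hu0.1]
        · simp [hw0.1]
      · refine ⟨![-(w 1 : ℝ), w 0], ?_, ?_, ?_⟩
        · intro h
          apply hw0
          have h0 := congrFun h 0
          have h1 := congrFun h 1
          simp only [Matrix.cons_val_zero, Pi.zero_apply] at h0
          simp only [Matrix.cons_val_one, Pi.zero_apply, Matrix.cons_val_fin_one] at h1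
          exact ⟨h1, by linarith⟩
        · simp [hu0.1, hu0.2]
        · simp only [Matrix.cons_val_zero, Matrix.cons_val_one, Matrix.cons_val_fin_one]; ring
    · refine ⟨![-(u 1 : ℝ), u 0], ?_, ?_, ?_⟩
      · intro h
        apply hu0
        have h0 := congrFun h 0
        have h1 := congrFun h 1
        simp only [Matrix.cons_val_zero, Pi.zero_apply] at h0
        simp only [Matrix.cons_val_one, Pi.zero_apply, Matrix.cons_val_fin_one] at h1
        exact ⟨h1, by linarith⟩
      · simp only [Matrix.cons_val_zero, Matrix.cons_val_one, Matrix.cons_val_fin_one]; ring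
      · simp only [Matrix.cons_val_zero, Matrix.cons_val_one, Matrix.cons_val_fin_one]; linarith
  let φ : V 2 →ₗ[ℝ] ℝ :=
    { toFun := fun v => n 0 * v 0 + n 1 * v 1
      map_add' := by intro x y; simp only [Pi.add_apply]; ring
      map_smul' := by intro c x; simp only [Pi.smul_apply, smul_eq_mul, RingHom.id_apply]; ring }
  have hsub : dp_C u w ⊆ (LinearMap.ker φ : Set (V 2)) := by
    rintro v ⟨a, c, -, -, rfl⟩
    show φ (a • toR u + c • toR w) = 0
    rw [map_add, map_smul, map_smul]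
    have e1 : φ (toR u) = 0 := hu
    have e2 : φ (toR w) = 0 := hw
    rw [e1, e2, smul_zero, smul_zero, add_zero]
  have h1 : (interior (LinearMap.ker φ : Set (V 2))).Nonempty := hi.mono (interior_mono hsub)
  have h2 := Submodule.eq_top_of_nonempty_interior' (LinearMap.ker φ) h1
  have h3 : φ n = 0 := by
    have : n ∈ LinearMap.ker φ := by rw [h2]; trivial
    exact this
  have h4 : n 0 * n 0 + n 1 * n 1 = 0 := h3
  apply hn
  funext i
  fin_cases i
  · show n 0 = 0
    nlinarith [mul_self_nonneg (n 0), mul_self_nonneg (n 1)]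
  · show n 1 = 0
    nlinarith [mul_self_nonneg (n 0), mul_self_nonneg (n 1)]

/-! ### primitive vectors -/

theorem dp_prim {u : Fin 2 → ℤ} (hu : u ≠ 0) : ∃ (m : ℤ) (u' : Fin 2 → ℤ) (x y : ℤ), 0 < m ∧
    (∀ i, u i = m * u' i) ∧ x * u' 0 + y * u' 1 = 1 := by
  have hg : 0 < Int.gcd (u 0) (u 1) := by
    rw [Nat.pos_iff_ne_zero]
    intro h
    rw [Int.gcd_eq_zero_iff] at h
    apply hu
    funext i
    fin_cases i
    · exact h.1
    · exact h.2
  have hg' : (0 : ℤ) < (Int.gcd (u 0) (u 1) : ℤ) := by exact_mod_cast hg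
  obtain ⟨a, ha⟩ := Int.gcd_dvd_left (u 0) (u 1)
  obtain ⟨b, hb⟩ := Int.gcd_dvd_right (u 0) (u 1)
  refine ⟨Int.gcd (u 0) (u 1), ![a, b], Int.gcdA (u 0) (u 1), Int.gcdB (u 0) (u 1), hg', ?_, ?_⟩
  · intro i
    fin_cases i
    · exact ha
    · exact hb
  · have h := Int.gcd_eq_gcd_ab (u 0) (u 1)
    have h1 : (Int.gcd (u 0) (u 1) : ℤ) * (Int.gcdA (u 0) (u 1) * a + Int.gcdB (u 0) (u 1) * b) =
        (Int.gcd (u 0) (u 1) : ℤ) * 1 := by
      calc _ = (Int.gcd (u 0) (u 1) : ℤ) * a * Int.gcdA (u 0) (u 1) +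
            (Int.gcd (u 0) (u 1) : ℤ) * b * Int.gcdB (u 0) (u 1) := by ring
        _ = u 0 * Int.gcdA (u 0) (u 1) + u 1 * Int.gcdB (u 0) (u 1) := by rw [← ha, ← hb]
        _ = _ := by rw [← h, mul_one]
    have h2 := mul_left_cancel₀ hg'.ne' h1
    simpa using h2

/-- a real multiple of a primitive vector which is integral is an integral multiple -/
theorem dp_int {u z : Fin 2 → ℤ} {x y : ℤ} (h1 : x * u 0 + y * u 1 = 1) {t : ℝ}
    (h : toR z = t • toR u) : ∃ k : ℤ, t = k := by
  refine ⟨x * z 0 + y * z 1, ?_⟩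
  have e0 : (z 0 : ℝ) = t * u 0 := congrFun h 0
  have e1 : (z 1 : ℝ) = t * u 1 := congrFun h 1
  have h1' : (x : ℝ) * u 0 + y * u 1 = 1 := by exact_mod_cast h1
  push_cast
  rw [e0, e1]
  calc t = t * ((x : ℝ) * u 0 + y * u 1) := by rw [h1', mul_one]
    _ = _ := by ring

theorem dp_one {s t : ℝ} (hs : 0 ≤ s) (h : s * t = 1) (h1 : ∃ k : ℤ, s = k) (h2 : ∃ k : ℤ, t = k) :
    s = 1 := by
  obtain ⟨a, rfl⟩ := h1
  obtain ⟨b, rfl⟩ := h2
  have h3 : a * b = 1 := by exact_mod_cast h
  have h4 : 0 ≤ a := by exact_mod_cast hs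
  rcases Int.mul_eq_one_iff_eq_one_or_neg_one.1 h3 with h5 | h5
  · rw [h5.1]; norm_num
  · omega

theorem dp_actR (g : GL (Fin 2) ℤ) (u : Fin 2 → ℤ) : ∃ z : Fin 2 → ℤ, act g (toR u) = toR z := by
  refine ⟨(g : Matrix (Fin 2) (Fin 2) ℤ).mulVec u, ?_⟩
  funext i
  unfold act toR
  simp only [Matrix.mulVec, dotProduct, Matrix.map_apply]
  push_cast
  rfl

/-- the elements of the group -/
theorem dp_cases {G : Subgroup (GL (Fin 2) ℤ)} {u w : Fin 2 → ℤ} (hD : dp_D u w ≠ 0)
    {x y x' y' : ℤ} (hu : x * u 0 + y * u 1 = 1) (hw : x' * w 0 + y' * w 1 = 1)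
    (hG : ∀ g ∈ G, ∀ v ∈ dp_C u w, act g v ∈ dp_C u w) {g : GL (Fin 2) ℤ} (hg : g ∈ G) :
    g = 1 ∨ (act g (toR u) = toR w ∧ act g (toR w) = toR u) := by
  have hu0 : toR u ∈ dp_C u w := ⟨1, 0, by norm_num, le_rfl, by rw [one_smul, zero_smul, add_zero]⟩
  have hw0 : toR w ∈ dp_C u w := ⟨0, 1, le_rfl, by norm_num, by rw [one_smul, zero_smul, zero_add]⟩
  obtain ⟨a, c, ha, hc, e1⟩ := hG g hg _ hu0
  obtain ⟨a', c', ha', hc', e2⟩ := hG g hg _ hw0
  obtain ⟨p, r, hp, hr, f1⟩ := hG g⁻¹ (G.inv_mem hg) _ hu0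
  obtain ⟨p', r', hp', hr', f2⟩ := hG g⁻¹ (G.inv_mem hg) _ hw0
  have i1 : toR u = act g (act g⁻¹ (toR u)) := by rw [← act_mul, mul_inv_cancel, act_one]
  have i2 : toR w = act g (act g⁻¹ (toR w)) := by rw [← act_mul, mul_inv_cancel, act_one]
  rw [f1, act_add, act_smul, act_smul, e1, e2] at i1
  rw [f2, act_add, act_smul, act_smul, e1, e2] at i2
  have j1 : (1 : ℝ) • toR u + (0 : ℝ) • toR w =
      (p * a + r * a') • toR u + (p * c + r * c') • toR w := by
    rw [one_smul, zero_smul, add_zero]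
    conv_lhs => rw [i1]
    module
  have j2 : (0 : ℝ) • toR u + (1 : ℝ) • toR w =
      (p' * a + r' * a') • toR u + (p' * c + r' * c') • toR w := by
    rw [one_smul, zero_smul, zero_add]
    conv_lhs => rw [i2]
    module
  obtain ⟨k1, k2⟩ := dp_uniq hD j1
  obtain ⟨k3, k4⟩ := dp_uniq hD j2
  have n1 : p' * a = 0 := by nlinarith [mul_nonneg hp' ha, mul_nonneg hr' ha']
  have n2 : r' * a' = 0 := by nlinarith [mul_nonneg hp' ha, mul_nonneg hr' ha']
  have n3 : p * c = 0 := by nlinarith [mul_nonneg hp hc, mul_nonneg hr hc']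
  have n4 : r * c' = 0 := by nlinarith [mul_nonneg hp hc, mul_nonneg hr hc']
  obtain ⟨z1, hz1⟩ := dp_actR g u
  obtain ⟨z2, hz2⟩ := dp_actR g w
  obtain ⟨z3, hz3⟩ := dp_actR g⁻¹ u
  obtain ⟨z4, hz4⟩ := dp_actR g⁻¹ w
  by_cases ha0 : a = 0
  · right
    have m1 : r * a' = 1 := by rw [ha0] at k1; linarith
    have hr0 : r ≠ 0 := by rintro rfl; simp at m1
    have ha'0 : a' ≠ 0 := by rintro rfl; simp at m1
    have hr'0 : r' = 0 := by
      rcases mul_eq_zero.1 n2 with h | h
      · exact h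
      · exact absurd h ha'0
    have hc'0 : c' = 0 := by
      rcases mul_eq_zero.1 n4 with h | h
      · exact absurd h hr0
      · exact h
    have m2 : p' * c = 1 := by rw [hr'0] at k4; linarith
    have hc0 : c ≠ 0 := by rintro rfl; simp at m2
    have hp0 : p = 0 := by
      rcases mul_eq_zero.1 n3 with h | h
      · exact h
      · exact absurd h hc0
    rw [ha0, zero_smul, zero_add] at e1
    rw [hc'0, zero_smul, add_zero] at e2
    rw [hp0, zero_smul, zero_add] at f1
    rw [hr'0, zero_smul, add_zero] at f2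
    have q1 : c = 1 := dp_one hc (by rw [mul_comm]; exact m2) (dp_int hw (hz1.symm.trans e1))
      (dp_int hu (hz4.symm.trans f2))
    have q2 : a' = 1 := dp_one ha' (by rw [mul_comm]; exact m1) (dp_int hu (hz2.symm.trans e2))
      (dp_int hw (hz3.symm.trans f1))
    rw [q1, one_smul] at e1
    rw [q2, one_smul] at e2
    exact ⟨e1, e2⟩
  · left
    have hp'0 : p' = 0 := by
      rcases mul_eq_zero.1 n1 with h | h
      · exact h
      · exact absurd h ha0
    have m1 : r' * c' = 1 := by rw [hp'0] at k4; linarith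
    have hr'0 : r' ≠ 0 := by rintro rfl; simp at m1
    have hc'0 : c' ≠ 0 := by rintro rfl; simp at m1
    have ha'0 : a' = 0 := by
      rcases mul_eq_zero.1 n2 with h | h
      · exact absurd h hr'0
      · exact h
    have hr0 : r = 0 := by
      rcases mul_eq_zero.1 n4 with h | h
      · exact h
      · exact absurd h hc'0
    have m2 : p * a = 1 := by rw [hr0] at k1; linarith
    have hp0 : p ≠ 0 := by rintro rfl; simp at m2
    have hc0 : c = 0 := by
      rcases mul_eq_zero.1 n3 with h | h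
      · exact absurd h hp0
      · exact h
    rw [hc0, zero_smul, add_zero] at e1
    rw [ha'0, zero_smul, zero_add] at e2
    rw [hr0, zero_smul, add_zero] at f1
    rw [hp'0, zero_smul, zero_add] at f2
    have q1 : a = 1 := dp_one ha (by rw [mul_comm]; exact m2) (dp_int hu (hz1.symm.trans e1))
      (dp_int hu (hz3.symm.trans f1))
    have q2 : c' = 1 := dp_one hc' (by rw [mul_comm]; exact m1) (dp_int hw (hz2.symm.trans e2))
      (dp_int hw (hz4.symm.trans f2))
    rw [q1, one_smul] at e1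
    rw [q2, one_smul] at e2
    apply act_inj
    intro v
    rw [act_one, dp_repr hD v, act_add, act_smul, act_smul, e1, e2]

/-- primitive generators -/
theorem dp_norm {C : Set (V 2)} {u w : Fin 2 → ℤ} (hC : C = dp_C u w) (hi : (interior C).Nonempty) :
    ∃ (u' w' : Fin 2 → ℤ) (x y x' y' : ℤ), C = dp_C u' w' ∧ dp_D u' w' ≠ 0 ∧
      x * u' 0 + y * u' 1 = 1 ∧ x' * w' 0 + y' * w' 1 = 1 := by
  have hD : dp_D u w ≠ 0 := dp_det (hC ▸ hi)
  have hu : u ≠ 0 := by
    rintro rfl
    apply hD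
    unfold dp_D
    simp
  have hw : w ≠ 0 := by
    rintro rfl
    apply hD
    unfold dp_D
    simp
  obtain ⟨m, u', x, y, hm, h1, h2⟩ := dp_prim hu
  obtain ⟨m', w', x', y', hm', h1', h2'⟩ := dp_prim hw
  have hmR : (0 : ℝ) < m := by exact_mod_cast hm
  have hmR' : (0 : ℝ) < m' := by exact_mod_cast hm'
  have e1 : toR u = (m : ℝ) • toR u' := by
    funext i
    show (u i : ℝ) = m * u' i
    rw [h1 i]; push_cast; ring
  have e2 : toR w = (m' : ℝ) • toR w' := by
    funext i
    show (w i : ℝ) = m' * w' i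
    rw [h1' i]; push_cast; ring
  have hCC : dp_C u w = dp_C u' w' := by
    ext v
    constructor
    · rintro ⟨a, c, ha, hc, rfl⟩
      refine ⟨a * m, c * m', by positivity, by positivity, ?_⟩
      rw [e1, e2, smul_smul, smul_smul]
    · rintro ⟨a, c, ha, hc, rfl⟩
      refine ⟨a / m, c / m', by positivity, by positivity, ?_⟩
      rw [e1, e2, smul_smul, smul_smul, div_mul_cancel₀ _ hmR.ne', div_mul_cancel₀ _ hmR'.ne']
  rw [hCC] at hC
  exact ⟨u', w', x, y, x', y', hC, dp_det (hC ▸ hi), h2, h2'⟩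

theorem dp_ratPoly {u w : Fin 2 → ℤ} (huw : u ≠ w) : RatPoly (dp_C u w) := by
  classical
  refine ⟨{u, w}, ?_⟩
  ext v
  constructor
  · rintro ⟨a, c, ha, hc, rfl⟩
    refine ⟨fun s => if s = u then a else c, fun s => by dsimp only; split_ifs <;> assumption, ?_⟩
    rw [Finset.sum_pair huw]
    dsimp only
    rw [if_pos rfl, if_neg huw.symm]
  · rintro ⟨c, hc, rfl⟩
    rw [Finset.sum_pair huw]
    exact ⟨c u, c w, hc u, hc w, rfl⟩

theorem dp_ne {u w : Fin 2 → ℤ} (hD : dp_D u w ≠ 0) : u ≠ w := by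
  rintro rfl
  apply hD
  unfold dp_D
  ring

theorem dp_A_add (u w : Fin 2 → ℤ) (v : V 2) : dp_A (u + w) v = dp_A w v - dp_B u v := by
  unfold dp_A dp_B
  simp only [Pi.add_apply]
  push_cast
  ring

theorem dp_D_add (u w : Fin 2 → ℤ) : dp_D u (u + w) = dp_D u w := by
  unfold dp_D
  simp only [Pi.add_apply]
  push_cast
  ring

theorem dp_swap {u w : Fin 2 → ℤ} (hD : dp_D u w ≠ 0) {g : GL (Fin 2) ℤ}
    (h1 : act g (toR u) = toR w) (h2 : act g (toR w) = toR u) (v : V 2) :
    dp_A w (act g v) = dp_B u v ∧ dp_B u (act g v) = dp_A w v := by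
  have e : act g v = (dp_B u v / dp_D u w) • toR u + (dp_A w v / dp_D u w) • toR w := by
    conv_lhs => rw [dp_repr hD v, act_add, act_smul, act_smul, h1, h2]
    rw [add_comm]
  rw [e, dp_A_comb, dp_B_comb, div_mul_cancel₀ _ hD, div_mul_cancel₀ _ hD]
  exact ⟨rfl, rfl⟩

theorem dp_memP {u w : Fin 2 → ℤ} (hD : dp_D u w ≠ 0) (v : V 2) :
    v ∈ dp_C u (u + w) ↔ 0 ≤ (dp_A w v - dp_B u v) / dp_D u w ∧ 0 ≤ dp_B u v / dp_D u w := by
  have hD' : dp_D u (u + w) ≠ 0 := by rw [dp_D_add]; exact hD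
  rw [dp_mem hD', dp_A_add, dp_D_add]

theorem dp_int_P {u w : Fin 2 → ℤ} (hD : dp_D u w ≠ 0) {x : V 2}
    (hx : x ∈ interior (dp_C u (u + w))) : 0 < (dp_A w x - dp_B u x) / dp_D u w := by
  have hc : Continuous fun t : ℝ => x + t • toR w := by fun_prop
  have h1 : ∀ᶠ t : ℝ in nhds 0, x + t • toR w ∈ interior (dp_C u (u + w)) := by
    apply hc.continuousAt.eventually_mem
    apply isOpen_interior.mem_nhds
    simpa using hx
  have h2 : ∀ᶠ t : ℝ in nhdsWithin 0 (Set.Ioi 0), x + t • toR w ∈ interior (dp_C u (u + w)) :=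
    h1.filter_mono nhdsWithin_le_nhds
  obtain ⟨t, ht, ht0⟩ := (h2.and self_mem_nhdsWithin).exists
  have h3 := ((dp_memP hD _).1 (interior_subset ht)).1
  have e1 : dp_A w (x + t • toR w) = dp_A w x := by
    unfold dp_A toR
    simp only [Pi.add_apply, Pi.smul_apply, smul_eq_mul]
    ring
  have e2 : dp_B u (x + t • toR w) = dp_B u x + t * dp_D u w := by
    unfold dp_B dp_D toR
    simp only [Pi.add_apply, Pi.smul_apply, smul_eq_mul]
    ring
  rw [e1, e2] at h3
  have e3 : (dp_A w x - (dp_B u x + t * dp_D u w)) / dp_D u w =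
      (dp_A w x - dp_B u x) / dp_D u w - t := by
    field_simp
    ring
  rw [e3] at h3
  have ht0' : 0 < t := ht0
  linarith

theorem fund_plane (G : Subgroup (GL (Fin 2) ℤ)) (C : Set (V 2)) (u w : Fin 2 → ℤ)
    (hC : C = {v | ∃ a c : ℝ, 0 ≤ a ∧ 0 ≤ c ∧ v = a • toR u + c • toR w}) (hi : (interior C).Nonempty)
    (hG : ∀ g ∈ G, ∀ v ∈ C, act g v ∈ C) : FundV G C := by
  obtain ⟨u, w, x, y, x', y', hC, hD, hu, hw⟩ := dp_norm hC hi
  subst hC
  by_cases hex : ∃ g₀ ∈ G, g₀ ≠ 1
  · obtain ⟨g₀, hg₀, hne⟩ := hex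
    obtain ⟨s1, s2⟩ := (dp_cases hD hu hw hG hg₀).resolve_left hne
    have hD' : dp_D u (u + w) ≠ 0 := by rw [dp_D_add]; exact hD
    have hPC : dp_C u (u + w) ⊆ dp_C u w := by
      intro v hv
      obtain ⟨k1, k2⟩ := (dp_memP hD v).1 hv
      rw [sub_div] at k1
      exact (dp_mem hD v).2 ⟨by linarith, k2⟩
    refine ⟨dp_C u (u + w), dp_ratPoly (dp_ne hD'), ?_, ?_⟩
    · apply Set.Subset.antisymm
      · intro v hv
        obtain ⟨k1, k2⟩ := (dp_mem hD v).1 hv
        rw [Set.mem_iUnion₂]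
        by_cases h : dp_B u v / dp_D u w ≤ dp_A w v / dp_D u w
        · refine ⟨1, G.one_mem, v, (dp_memP hD v).2 ⟨?_, k2⟩, act_one v⟩
          rw [sub_div]
          linarith
        · push Not at h
          refine ⟨g₀, hg₀, act g₀ v, (dp_memP hD _).2 ⟨?_, ?_⟩, ?_⟩
          · rw [(dp_swap hD s1 s2 v).1, (dp_swap hD s1 s2 v).2, sub_div]
            linarith
          · rw [(dp_swap hD s1 s2 v).2]
            exact k1
          · have a1 := dp_repr hD (act g₀ (act g₀ v))
            rw [(dp_swap hD s1 s2 (act g₀ v)).1, (dp_swap hD s1 s2 (act g₀ v)).2,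
              (dp_swap hD s1 s2 v).1, (dp_swap hD s1 s2 v).2, ← dp_repr hD v] at a1
            exact a1
      · intro v hv
        rw [Set.mem_iUnion₂] at hv
        obtain ⟨g, hg, v', hv', rfl⟩ := hv
        exact hG g hg _ (hPC hv')
    · intro g hg hg1
      obtain ⟨t1, t2⟩ := (dp_cases hD hu hw hG hg).resolve_left hg1
      rw [Set.disjoint_left]
      rintro z hz ⟨z', hz', rfl⟩
      have k1 := dp_int_P hD hz
      have k2 := dp_int_P hD hz'
      rw [(dp_swap hD t1 t2 z').1, (dp_swap hD t1 t2 z').2, sub_div] at k1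
      rw [sub_div] at k2
      linarith
  · push Not at hex
    refine ⟨dp_C u w, dp_ratPoly (dp_ne hD), ?_, fun g hg h => absurd (hex g hg) h⟩
    apply Set.Subset.antisymm
    · intro v hv
      rw [Set.mem_iUnion₂]
      exact ⟨1, G.one_mem, v, hv, act_one v⟩
    · intro v hv
      rw [Set.mem_iUnion₂] at hv
      obtain ⟨g, hg, v', hv', rfl⟩ := hv
      exact hG g hg _ hv'

/-- the open cone -/
def dp_O (u w : Fin 2 → ℤ) : Set (V 2) :=
  {v | 0 < dp_A w v / dp_D u w ∧ 0 < dp_B u v / dp_D u w}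

theorem dp_contA (u w : Fin 2 → ℤ) : Continuous fun v : V 2 => dp_A w v / dp_D u w := by
  unfold dp_A
  fun_prop

theorem dp_contB (u w : Fin 2 → ℤ) : Continuous fun v : V 2 => dp_B u v / dp_D u w := by
  unfold dp_B
  fun_prop

theorem dp_amp {u w : Fin 2 → ℤ} (hD : dp_D u w ≠ 0) : IsAmp (dp_O u w) where
  ne := by
    refine ⟨(1 : ℝ) • toR u + (1 : ℝ) • toR w, ?_⟩
    show 0 < _ ∧ 0 < _
    rw [dp_A_comb, dp_B_comb, mul_div_cancel_right₀ _ hD]
    norm_num
  op := (isOpen_lt continuous_const (dp_contA u w)).inter (isOpen_lt continuous_const (dp_contB u w))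
  add := by
    rintro x ⟨h1, h2⟩ y ⟨h3, h4⟩
    have e1 : dp_A w (x + y) = dp_A w x + dp_A w y := by
      unfold dp_A; simp only [Pi.add_apply]; ring
    have e2 : dp_B u (x + y) = dp_B u x + dp_B u y := by
      unfold dp_B; simp only [Pi.add_apply]; ring
    show 0 < _ ∧ 0 < _
    rw [e1, e2, add_div, add_div]
    exact ⟨add_pos h1 h3, add_pos h2 h4⟩
  smul := by
    rintro c hc x ⟨h1, h2⟩
    have e1 : dp_A w (c • x) = c * dp_A w x := by
      unfold dp_A; simp only [Pi.smul_apply, smul_eq_mul]; ring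
    have e2 : dp_B u (c • x) = c * dp_B u x := by
      unfold dp_B; simp only [Pi.smul_apply, smul_eq_mul]; ring
    show 0 < _ ∧ 0 < _
    rw [e1, e2, mul_div_assoc, mul_div_assoc]
    exact ⟨mul_pos hc h1, mul_pos hc h2⟩
  pointed := by
    have hcl : closure (dp_O u w) ⊆ {v | 0 ≤ dp_A w v / dp_D u w ∧ 0 ≤ dp_B u v / dp_D u w} := by
      apply closure_minimal
      · rintro v ⟨h1, h2⟩
        exact ⟨h1.le, h2.le⟩
      · exact (isClosed_le continuous_const (dp_contA u w)).inter
          (isClosed_le continuous_const (dp_contB u w))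
    intro x hx hx'
    obtain ⟨h1, h2⟩ := hcl hx
    obtain ⟨h3, h4⟩ := hcl hx'
    have e1 : dp_A w (-x) = - dp_A w x := by
      unfold dp_A; simp only [Pi.neg_apply]; ring
    have e2 : dp_B u (-x) = - dp_B u x := by
      unfold dp_B; simp only [Pi.neg_apply]; ring
    rw [e1, neg_div] at h3
    rw [e2, neg_div] at h4
    have z1 : dp_A w x / dp_D u w = 0 := by linarith
    have z2 : dp_B u x / dp_D u w = 0 := by linarith
    rw [dp_repr hD x, z1, z2, zero_smul, zero_smul, add_zero]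

theorem dp_sub {u w : Fin 2 → ℤ} (hD : dp_D u w ≠ 0) : dp_C u w ⊆ closure (dp_O u w) := by
  intro v hv
  obtain ⟨k1, k2⟩ := (dp_mem hD v).1 hv
  have hc : Filter.Tendsto (fun t : ℝ => v + t • (toR u + toR w)) (nhdsWithin 0 (Set.Ioi 0)) (nhds v) := by
    have h1 : Continuous fun t : ℝ => v + t • (toR u + toR w) := by fun_prop
    have h2 := h1.tendsto 0
    rw [zero_smul, add_zero] at h2
    exact h2.mono_left nhdsWithin_le_nhds
  refine mem_closure_of_tendsto hc ?_
  filter_upwards [self_mem_nhdsWithin] with t ht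
  have ht' : 0 < t := ht
  have e1 : dp_A w (v + t • (toR u + toR w)) = dp_A w v + t * dp_D u w := by
    unfold dp_A dp_D toR; simp only [Pi.add_apply, Pi.smul_apply, smul_eq_mul]; ring
  have e2 : dp_B u (v + t • (toR u + toR w)) = dp_B u v + t * dp_D u w := by
    unfold dp_B dp_D toR; simp only [Pi.add_apply, Pi.smul_apply, smul_eq_mul]; ring
  show 0 < _ ∧ 0 < _
  rw [e1, e2, add_div, add_div, mul_div_cancel_right₀ _ hD]
  exact ⟨by linarith, by linarith⟩

theorem dp_convex (u w : Fin 2 → ℤ) : Convex ℝ (dp_C u w) := by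
  rintro v ⟨a, c, ha, hc, rfl⟩ v' ⟨a', c', ha', hc', rfl⟩ s t hs ht -
  refine ⟨s * a + t * a', s * c + t * c', by positivity, by positivity, ?_⟩
  module

theorem dp_fin {G : Subgroup (GL (Fin 2) ℤ)} {u w : Fin 2 → ℤ} (hD : dp_D u w ≠ 0)
    (h : ∀ g ∈ G, g = 1 ∨ (act g (toR u) = toR w ∧ act g (toR w) = toR u)) :
    (G : Set (GL (Fin 2) ℤ)).Finite := by
  by_cases hex : ∃ g₀ ∈ G, g₀ ≠ 1
  · obtain ⟨g₀, hg₀, hne⟩ := hex
    obtain ⟨s1, s2⟩ := (h g₀ hg₀).resolve_left hne
    refine (Set.toFinite {1, g₀}).subset fun g hg => ?_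
    rcases h g hg with h1 | ⟨t1, t2⟩
    · exact Or.inl h1
    · right
      apply act_inj
      intro v
      rw [dp_repr hD v, act_add, act_smul, act_smul, act_add, act_smul, act_smul, s1, s2, t1, t2]
  · push Not at hex
    refine (Set.toFinite {1}).subset fun g hg => ?_
    exact hex g hg

theorem q1_plane (G : Subgroup (GL (Fin 2) ℤ)) (C E : Set (V 2)) (u w : Fin 2 → ℤ)
    (hC : C = {v | ∃ a c : ℝ, 0 ≤ a ∧ 0 ≤ c ∧ v = a • toR u + c • toR w}) (hi : (interior C).Nonempty)
    (hG : ∀ g ∈ G, ∀ v ∈ C, act g v ∈ C) (hE : interior C ⊆ E) : FundV G (C ∩ E) ↔ C ⊆ E := by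
  constructor
  swap
  · intro h
    rw [Set.inter_eq_left.2 h]
    exact fund_plane G C u w hC hi hG
  obtain ⟨u, w, x, y, x', y', hC, hD, hu, hw⟩ := dp_norm hC hi
  subst hC
  rintro ⟨P, hP, hU, -⟩
  have hPC : P ⊆ dp_C u w := by
    intro v hv
    have h1 : v ∈ dp_C u w ∩ E := by
      rw [hU, Set.mem_iUnion₂]
      exact ⟨1, G.one_mem, v, hv, act_one v⟩
    exact h1.1
  have hPcl : IsClosed P := by
    obtain ⟨S, hS⟩ := hP
    have hS' : P = Pool.Agent.H20.FV.cone S := hS
    rw [hS']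
    refine Pool.Agent.H83.DC.cone_closed (dp_amp hD) fun s hs => dp_sub hD (hPC ?_)
    rw [hS']
    exact Pool.Agent.H20.FV.toR_mem_cone hs
  have hcl : IsClosed (dp_C u w ∩ E) := by
    rw [hU]
    refine (dp_fin hD fun g hg => dp_cases hD hu hw hG hg).isClosed_biUnion fun g _ => ?_
    have e : act g '' P = act g⁻¹ ⁻¹' P := by
      ext v
      constructor
      · rintro ⟨v', hv', rfl⟩
        show act g⁻¹ (act g v') ∈ P
        rw [← act_mul, inv_mul_cancel, act_one]
        exact hv'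
      · intro hv
        exact ⟨act g⁻¹ v, hv, by rw [← act_mul, mul_inv_cancel, act_one]⟩
    rw [e]
    exact hPcl.preimage (act_cont _)
  have h1 : closure (interior (dp_C u w)) ⊆ dp_C u w ∩ E :=
    closure_minimal (fun v hv => ⟨interior_subset hv, hE hv⟩) hcl
  rw [(dp_convex u w).closure_interior_eq_closure_of_nonempty_interior hi] at h1
  exact fun v hv => (h1 (subset_closure hv)).2

end Pool.Agent.H83.TU
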