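import Pool.Agent.H83.TU.NV
import Pool.Agent.H83.TU.DP
import Pool.Agent.H54.RV.Front

/-!
# [H83 TU QV] Theorem U: the automorphisms in the plane of the classes

`autN Γ ν`: the matrices of the pull-backs by the elements of `Γ` on the classes `cv ν D`.

* `pull_mul`, `pull_one`: `(g * h).pull D = h.pull (g.pull D)`, `(1 : MAut X).pull D = D` (`Cart.ext'`; the definition of `MAut.pull` is in `H54/RV`, find it with grep; `MAut.mul_σ`, `MAut.mul_τ`), `pull_dmul`: `g.pull (D * E) = g.pull D * g.pull E`.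
* `numz_pull`: `NumZ D` implies `NumZ (g.pull D)`: for `A` ample, `A * g.pull D = g.pull (g⁻¹.pull A * D)` (`pull_mul`, `inv_mul_cancel` or `mul_inv_cancel`, `pull_one`), ample by `ample_pull` (`H54/RV/C6.lean`).
* `autN_amp`, `autN_nef`, `autN_eff`: the matrices in `autN Γ ν` preserve `AmpV ν`, its closure, `EffV ν`: `act A` is linear (`act_add`, `act_smul` of `H57/KM/Basic.lean`), maps `∑ c i • cv ν (D i)` to `∑ c i • cv ν (g.pull (D i))` (`ample_pull`, `effective_pull`), and is continuous (`act_cont` or similar; `map_mem_closure`).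
* `exists_autN`: every `g ∈ Γ` has a matrix: `∃ A ∈ autN Γ ν, ∀ D, cv ν (g.pull D) = act A (cv ν D)`.  (`ν ∘ g.pull` is a homomorphism which kills the kernel of `ν` (`numz_pull`), so it factors through an endomorphism of `ℤ²` (`Num.surj`), a matrix; invertible with the inverse from `g⁻¹`.)
-/

set_option autoImplicit false

namespace Pool.Agent.H83.TU

open Pool.Agent.H57.KM Pool.Agent.H54.RV

variable {k K : Type} [Field k] [Field K] [Algebra k K] {X : Mod k K}

theorem pull_mul (g h : MAut X) (D : Cart X) : (g * h).pull D = h.pull (g.pull D) :=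
  Cart.ext' _ _ fun _ => rfl

theorem pull_one (D : Cart X) : (1 : MAut X).pull D = D :=
  Cart.ext' _ _ fun _ => rfl

theorem pull_dmul (g : MAut X) (D E : Cart X) : g.pull (D * E) = g.pull D * g.pull E :=
  Cart.ext' _ _ fun _ => map_mul g.τ _ _

private theorem qv_sum (A : GL (Fin 2) ℤ) {ι : Type*} (s : Finset ι) (f : ι → V 2) :
    act A (∑ i ∈ s, f i) = ∑ i ∈ s, act A (f i) := by
  classical
  induction s using Finset.induction_on with
  | empty =>
    rw [Finset.sum_empty, Finset.sum_empty]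
    have h := act_smul A 0 (0 : V 2)
    rwa [zero_smul, zero_smul] at h
  | insert a s ha ih => rw [Finset.sum_insert ha, Finset.sum_insert ha, act_add, ih]

/-- the matrices of the pull-backs by the elements of `Γ` -/
def autN (Γ : Subgroup (MAut X)) (ν : Cart X →* Multiplicative (Fin 2 → ℤ)) : Subgroup (GL (Fin 2) ℤ) where
  carrier := {A | ∃ g ∈ Γ, ∀ D : Cart X, cv ν (g.pull D) = act A (cv ν D)}
  mul_mem' := by
    rintro A B ⟨g, hg, h1⟩ ⟨h, hh, h2⟩
    refine ⟨h * g, Γ.mul_mem hh hg, fun D => ?_⟩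
    rw [pull_mul, h1, h2, act_mul]
  one_mem' := ⟨1, Γ.one_mem, fun D => by rw [pull_one, act_one]⟩
  inv_mem' := by
    rintro A ⟨g, hg, h1⟩
    refine ⟨g⁻¹, Γ.inv_mem hg, fun D => ?_⟩
    have h2 := h1 (g⁻¹.pull D)
    rw [← pull_mul, inv_mul_cancel, pull_one] at h2
    rw [h2, ← act_mul, inv_mul_cancel, act_one]

section

variable (Γ : Subgroup (MAut X)) (ν : Cart X →* Multiplicative (Fin 2 → ℤ))

theorem autN_amp (A : GL (Fin 2) ℤ) (hA : A ∈ autN Γ ν) (v : V 2) (hv : v ∈ AmpV ν) : act A v ∈ AmpV ν := by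
  obtain ⟨g, -, h1⟩ := hA
  obtain ⟨m, c, D, hc, hD, rfl⟩ := hv
  refine ⟨m, c, fun i => g.pull (D i), hc, fun i => ample_pull g _ (hD i), ?_⟩
  rw [qv_sum]
  exact Finset.sum_congr rfl fun i _ => by rw [act_smul, h1]

theorem autN_nef (A : GL (Fin 2) ℤ) (hA : A ∈ autN Γ ν) (v : V 2) (hv : v ∈ closure (AmpV ν)) :
    act A v ∈ closure (AmpV ν) :=
  act_closure (autN_amp Γ ν A hA) v hv

theorem autN_eff (A : GL (Fin 2) ℤ) (hA : A ∈ autN Γ ν) (v : V 2) (hv : v ∈ EffV ν) : act A v ∈ EffV ν := by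
  obtain ⟨g, -, h1⟩ := hA
  obtain ⟨m, c, D, hc, hD, rfl⟩ := hv
  refine ⟨m, c, fun i => g.pull (D i), hc, fun i => effective_pull g _ (hD i), ?_⟩
  rw [qv_sum]
  exact Finset.sum_congr rfl fun i _ => by rw [act_smul, h1]

end

theorem numz_pull (g : MAut X) (D : Cart X) (hD : NumZ D) : NumZ (g.pull D) := by
  intro A hA
  have h1 := hD (g⁻¹.pull A) (ample_pull _ _ hA)
  have h2 : g.pull (g⁻¹.pull A) = A := by
    rw [← pull_mul, inv_mul_cancel, pull_one]
  have h3 : g.pull D⁻¹ = (g.pull D)⁻¹ := Cart.ext' _ _ fun _ => map_inv₀ g.τ _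
  refine ⟨?_, ?_⟩
  · have h4 := ample_pull g _ h1.1
    rwa [pull_dmul, h2] at h4
  · have h4 := ample_pull g _ h1.2
    rwa [pull_dmul, h2, h3] at h4

/-- the integral matrix of a pull-back -/
private theorem qv_mat (ν : Cart X →* Multiplicative (Fin 2 → ℤ)) (hν : Num ν) (g : MAut X) :
    ∃ M : Matrix (Fin 2) (Fin 2) ℤ, ∀ D : Cart X,
      Multiplicative.toAdd (ν (g.pull D)) = M.mulVec (Multiplicative.toAdd (ν D)) := by
  classical
  choose E hE using fun i : Fin 2 => hν.surj (Multiplicative.ofAdd (Pi.single i (1 : ℤ)))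
  let φ : Cart X →* Multiplicative (Fin 2 → ℤ) :=
    { toFun := fun D => ν (g.pull D)
      map_one' := by
        have h1 : g.pull (1 : Cart X) = 1 := Cart.ext' _ _ fun _ => map_one g.τ
        rw [h1, map_one]
      map_mul' := fun D D' => by rw [pull_dmul, map_mul] }
  have hφ : ∀ D, φ D = ν (g.pull D) := fun D => rfl
  have hker : ∀ D D' : Cart X, ν D = ν D' → φ D = φ D' := by
    intro D D' h
    have h1 : ν (D * D'⁻¹) = 1 := by rw [map_mul, map_inv, h, mul_inv_cancel]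
    have h2 : φ (D * D'⁻¹) = 1 := by
      rw [hφ, hν.ker]
      exact numz_pull g _ ((hν.ker _).1 h1)
    rw [map_mul, map_inv] at h2
    exact mul_inv_eq_one.1 h2
  refine ⟨Matrix.of fun j i => Multiplicative.toAdd (φ (E i)) j, fun D => ?_⟩
  obtain ⟨s, hs⟩ : ∃ s, s = Multiplicative.toAdd (ν D) := ⟨_, rfl⟩
  have h1 : ν D = ν (∏ i, E i ^ (s i)) := by
    apply Multiplicative.toAdd.injective
    rw [map_prod, toAdd_prod, ← hs]
    have h2 : ∀ i, Multiplicative.toAdd (ν (E i ^ (s i))) = s i • Pi.single i (1 : ℤ) := by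
      intro i
      rw [map_zpow, toAdd_zpow, hE]
      rfl
    rw [Finset.sum_congr rfl fun i _ => h2 i]
    funext j
    rw [Finset.sum_apply]
    simp [Pi.single_apply]
  rw [← hφ, hker _ _ h1, map_prod, toAdd_prod, ← hs]
  funext j
  rw [Finset.sum_apply]
  unfold Matrix.mulVec dotProduct
  refine Finset.sum_congr rfl fun i _ => ?_
  rw [map_zpow, toAdd_zpow, Pi.smul_apply, smul_eq_mul, mul_comm]
  rfl

theorem exists_autN (Γ : Subgroup (MAut X)) (ν : Cart X →* Multiplicative (Fin 2 → ℤ)) (hν : Num ν) (g : MAut X)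
    (hg : g ∈ Γ) : ∃ A ∈ autN Γ ν, ∀ D : Cart X, cv ν (g.pull D) = act A (cv ν D) := by
  obtain ⟨M, hM⟩ := qv_mat ν hν g
  obtain ⟨N, hN⟩ := qv_mat ν hν g⁻¹
  have key : ∀ M N : Matrix (Fin 2) (Fin 2) ℤ, (∀ s, M.mulVec (N.mulVec s) = s) → M * N = 1 := by
    intro M N h
    apply Matrix.mulVec_injective
    funext s
    rw [← Matrix.mulVec_mulVec, h, Matrix.one_mulVec]
  have hMN : M * N = 1 := by
    apply key
    intro s
    obtain ⟨D, hD⟩ := hν.surj (Multiplicative.ofAdd s)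
    have h1 := hM (g⁻¹.pull D)
    rw [hN, hD, ← pull_mul, inv_mul_cancel, pull_one, hD] at h1
    exact h1.symm
  have hNM : N * M = 1 := by
    apply key
    intro s
    obtain ⟨D, hD⟩ := hν.surj (Multiplicative.ofAdd s)
    have h1 := hN (g.pull D)
    rw [hM, hD, ← pull_mul, mul_inv_cancel, pull_one, hD] at h1
    exact h1.symm
  obtain ⟨A, hA⟩ : ∃ A : GL (Fin 2) ℤ, (A : Matrix (Fin 2) (Fin 2) ℤ) = M := ⟨⟨M, N, hMN, hNM⟩, rfl⟩
  have h1 : ∀ D : Cart X, cv ν (g.pull D) = act A (cv ν D) := by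
    intro D
    funext j
    have h2 := congrFun (hM D) j
    unfold cv act
    rw [hA, h2]
    unfold Matrix.mulVec dotProduct
    push_cast
    rfl
  exact ⟨A, ⟨g, hg, h1⟩, h1⟩

end Pool.Agent.H83.TU
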