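import Pool.Agent.H83.TU.SD
import Pool.Agent.H83.TU.QV

/-!
# Theorem U: automorphisms and fundamental domains, comparison
-/

set_option autoImplicit false

namespace Pool.Agent.H83.TU

open AlgebraicGeometry CategoryTheory Pool.Agent.H57.KM Pool.Agent.H54.RV

variable {Y : Scheme.{0}} [IsIntegral Y] (f : Y ⟶ Spec (.of ℂ))

theorem autS_nu (ν : Cart (mdl f) →* Multiplicative (Fin 2 → ℤ)) : autS f ν = (autN (autG f) ν : Set (GL (Fin 2) ℤ)) := by
  ext g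
  constructor
  · rintro ⟨e, α, he, h1, h2, hD⟩
    have h3 : α = mkMAut f e he := MAut.ext' _ _ h1 h2
    refine ⟨α, ⟨Over.isoMk e he, ?_⟩, hD⟩
    rw [h3]
    rfl
  · rintro ⟨α, ⟨φ, rfl⟩, hD⟩
    exact ⟨(Over.forget (Spec (.of ℂ))).mapIso φ, toMAut f φ, Over.w φ.hom, fun _ => rfl, fun _ => rfl, hD⟩

theorem fundS_iff (G : Subgroup (GL (Fin 2) ℤ)) (S : Set (V 2)) : FundS (G : Set (GL (Fin 2) ℤ)) S ↔ FundV G S :=
  Iff.rfl

end Pool.Agent.H83.TU
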