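import Pool.Agent.H83.TU.CI
import Pool.Agent.H83.TU.PB

/-!
# [H83 TU PC] Theorem U: prime divisors are Cartier divisors, and can be subtracted from effective divisors

`ord_eq_pt`: for a Cartier divisor `E` and `P.η ⤳ x`: `ord (E.eq x) = ord (E.eq η)`.  (`quo_un` of `H54/RV/B6.lean`: `E.eq x / E.eq η` is a unit of `O η`; units have order `0`: `P.mem`, `ord_eq_zero`; `ord_mul`, `ord_inv`.)

`pdiv_cart`: for a prime divisor `P` there is an effective Cartier divisor `S` with `ord (S.eq η) = 1`, such that `E / S` is effective for every effective `E` with `ord (E.eq η) > 0`.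

PROOF.  `J x = {a ∈ O x | P.η ⤳ x → a = 0 ∨ 0 < ord a}`; `m x = π` of `pdiv_uni` if `P.η ⤳ x`, and `m x = 1` otherwise.  Apply `cart_of`:
* `hz, hadd, hmul, hsub`: clear (`ord (a + b) > 0` if `ord a, ord b > 0`, `a, b, a + b ≠ 0`: by `hgen`, or because the elements of positive order and `0` are the non-units of the local ring `P.p.R`; it is easiest to prove `hgen` first: `J x = m x * O x` and to deduce the others).
* `hgen`: if `P.η ⤳ x`: `a ∈ J x` iff `a = 0` or (`a ∈ O x` and `ord a > 0`) iff `a / π ∈ O x` (if `a / π ∈ O x` then `a ∈ O x`).  Otherwise `J x = O x`, `m x = 1`.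
* `hcoh`: `a ∈ J x`, `U` affine, `x ∈ U`.  `IsVar.frac`: `s₁ ∈ sec U`, `Un (O x) s₁`, `a * s₁ ∈ sec U`.  If `P.η ⤳ x` take `s = s₁`: for `y ∈ U` with `P.η ⤳ y`, `ord (a * s) = ord a + ord s > 0` if `a ≠ 0` (`ord s ≥ 0`, `pt_ord`).  If not `P.η ⤳ x`: there is an open `V` with `x ∈ V`, `P.η ∉ V` (`not_specializes_iff_exists_open`); `IsVar.bas` for `U`, `V`, `x`: `c ∈ sec U`, `Un (O x) c`, and `Un (O y) c → y ∈ V` for `y ∈ U`.  Take `s = s₁ * c`.  For `y ∈ U` with `P.η ⤳ y`: `P.η ∈ U` (`U` open), so `¬ Un (O η) c`, `ord c ≠ 0` (`ord_eq_zero`, `P.mem`), `ord c ≥ 0`: `ord c > 0`, so `ord (a * s) > 0` if `a ≠ 0`.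
The divisor `S` with `S.eq = m`: effective (`m x ∈ O x`), `ord (S.eq η) = ord π = 1` (`P.η ⤳ P.η`).  Let `E` be effective with `ord (E.eq η) > 0`: for `P.η ⤳ x`, `ord (E.eq x) = ord (E.eq η) > 0`, so `E.eq x / π ∈ O x`; for the other `x`, `m x = 1`.  (`mul_eq`, `inv_eq` of `H54/RV/Grp.lean`.)
-/

set_option autoImplicit false

namespace Pool.Agent.H83.TU

open Pool.Agent.H54.RV

variable {k K : Type} [Field k] [Field K] [Algebra k K] {X : Mod k K}

theorem ord_eq_pt (P : PDiv X) (E : Cart X) (x : X.P) (hx : P.η ⤳ x) :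
    P.p.ord (E.eq x) = P.p.ord (E.eq P.η) := by
  have h1 := quo_un E P.η x hx
  have h2 : P.p.ord (E.eq x / E.eq P.η) = 0 :=
    (ord_eq_zero P.p _ h1.1).2 ⟨(P.mem _).1 h1.2.1, (P.mem _).1 h1.2.2⟩
  rw [div_eq_mul_inv, ord_mul P.p _ _ (E.ne x) (inv_ne_zero (E.ne _)), ord_inv] at h2
  omega

theorem pdiv_cart (h : Hyp X) (P : PDiv X) :
    ∃ S : Cart X, Effective S ∧ P.p.ord (S.eq P.η) = 1 ∧
      ∀ E : Cart X, Effective E → 0 < P.p.ord (E.eq P.η) → Effective (E * S⁻¹) := by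
  have hX := h.var
  classical
  have hex : ∀ x, ∃ m : K, m ≠ 0 ∧ m ∈ X.O x ∧ (P.η ⤳ x → P.p.ord m = 1 ∧
      ∀ a ∈ X.O x, a ≠ 0 → (0 < P.p.ord a ↔ a / m ∈ X.O x)) ∧ (¬ P.η ⤳ x → m = 1) := by
    intro x
    by_cases hx : P.η ⤳ x
    · obtain ⟨q, hq, hq0, hq1, hq2⟩ := pdiv_uni h P x hx
      exact ⟨q, hq0, hq, fun _ => ⟨hq1, hq2⟩, fun hh => absurd hx hh⟩
    · exact ⟨1, one_ne_zero, (X.O x).one_mem, fun hh => absurd hh hx, fun _ => rfl⟩
  choose m hm0 hmO hm1 hm2 using hex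
  have hgen : ∀ x a, a ∈ {a : K | a ∈ X.O x ∧ (P.η ⤳ x → a = 0 ∨ 0 < P.p.ord a)} ↔
      a / m x ∈ X.O x := by
    intro x a
    rw [Set.mem_setOf_eq]
    by_cases hx : P.η ⤳ x
    · obtain ⟨h1, h2⟩ := hm1 x hx
      by_cases ha : a = 0
      · rw [ha, zero_div]
        exact ⟨fun _ => (X.O x).zero_mem, fun _ => ⟨(X.O x).zero_mem, fun _ => Or.inl rfl⟩⟩
      · constructor
        · rintro ⟨h3, h4⟩
          rcases h4 hx with h5 | h5
          · exact absurd h5 ha
          · exact (h2 a h3 ha).1 h5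
        · intro h3
          have h4 : a = a / m x * m x := by
            have := hm0 x
            field_simp
          have h5 : a ∈ X.O x := by
            rw [h4]
            exact (X.O x).mul_mem h3 (hmO x)
          exact ⟨h5, fun _ => Or.inr ((h2 a h5 ha).2 h3)⟩
    · rw [hm2 x hx, div_one]
      exact ⟨fun h3 => h3.1, fun h3 => ⟨h3, fun h4 => absurd h4 hx⟩⟩
  obtain ⟨S, hS⟩ := cart_of hX (fun x => {a : K | a ∈ X.O x ∧ (P.η ⤳ x → a = 0 ∨ 0 < P.p.ord a)}) m
    (fun x => ⟨(X.O x).zero_mem, fun _ => Or.inl rfl⟩)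
    (fun x a ha b hb => by
      rw [hgen] at ha hb ⊢
      rw [add_div]
      exact (X.O x).add_mem ha hb)
    (fun x a ha c hc => by
      rw [hgen] at ha ⊢
      rw [mul_div_assoc]
      exact (X.O x).mul_mem hc ha)
    (fun x a ha => ha.1) hm0 hgen
    (fun x U hU hxU a ha => by
      obtain ⟨s₁, hs₁, hs₁u, has⟩ := hX.frac U x hU hxU a ha.1
      by_cases hx : P.η ⤳ x
      · refine ⟨s₁, hs₁, hs₁u, fun y hy => ⟨(mem_sec U _).1 has y hy, fun hPy => ?_⟩⟩
        rcases ha.2 hx with h1 | h1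
        · left
          rw [h1, zero_mul]
        · right
          have ha0 : a ≠ 0 := by
            rintro rfl
            have h2 : P.p.ord (0 : K) = 0 := by
              have h3 := ord_inv P.p (0 : K)
              rw [inv_zero] at h3
              omega
            omega
          rw [ord_mul P.p _ _ ha0 hs₁u.1]
          have h2 := pt_ord hX P y hPy s₁ ((mem_sec U _).1 hs₁ y hy) hs₁u.1
          omega
      · obtain ⟨V, hV, hxV, hPV⟩ := not_specializes_iff_exists_open.1 hx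
        obtain ⟨c, hc, hcx, hcy⟩ := hX.bas U V x hU hV hxU hxV
        have hcs : c ∈ X.sec U := (mem_sec U c).2 hc
        refine ⟨s₁ * c, (X.sec U).mul_mem hs₁ hcs, un_mul hs₁u hcx, fun y hy => ⟨?_, fun hPy => ?_⟩⟩
        · rw [← mul_assoc]
          exact (X.O y).mul_mem ((mem_sec U _).1 has y hy) (hc y hy)
        · by_cases ha0 : a = 0
          · left
            rw [ha0, zero_mul]
          · right
            have hPU : P.η ∈ U := hPy.mem_open (hX.op U hU) hy
            have hc0 : c ≠ 0 := hcx.1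
            have h1 : ¬ Un (X.O P.η) c := fun hh => hPV (hcy P.η hPU hh)
            have h2 : P.p.ord c ≠ 0 := by
              intro hh
              obtain ⟨h3, h4⟩ := (ord_eq_zero P.p c hc0).1 hh
              exact h1 ⟨hc0, (P.mem c).2 h3, (P.mem _).2 h4⟩
            have h3 := pt_ord hX P y hPy c (hc y hy) hc0
            have h4 := pt_ord hX P y hPy (a * s₁) ((mem_sec U _).1 has y hy)
              (mul_ne_zero ha0 hs₁u.1)
            rw [← mul_assoc, ord_mul P.p _ _ (mul_ne_zero ha0 hs₁u.1) hc0]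
            omega)
  refine ⟨S, fun x => ?_, ?_, fun E hE hpos x => ?_⟩
  · rw [hS]
    exact hmO x
  · rw [hS]
    exact (hm1 P.η specializes_rfl).1
  · rw [mul_eq, inv_eq, hS, ← div_eq_mul_inv]
    by_cases hx : P.η ⤳ x
    · rw [← (hm1 x hx).2 (E.eq x) (hE x) (E.ne x), ord_eq_pt P E x hx]
      exact hpos
    · rw [hm2 x hx, div_one]
      exact hE x

end Pool.Agent.H83.TU
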