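import Pool.Agent.H83.TU.Cen

/-!
# [H83 TU CI] Theorem U: a Cartier divisor from a coherent family of principal ideals

`J x` is an ideal of `O x` for every point `x`, generated by `m x`; an element of `J x` is, up to an element of `sec U` which is a unit at `x`, in `J y` for all `y` in the affine open set `U`.  Then the `m x` are the local equations of a Cartier divisor.

PROOF.  `D.eq = m`, `D.ne = hm`; only `D.loc` is to be proved.  Let `x` be a point and `U` affine with `x ∈ U` (`IsVar.chart`).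
(1) `R = X.sec U` is a finitely generated `k`-algebra (`IsVar.fg`), so a noetherian ring (`Algebra.FiniteType.isNoetherianRing k`, as in `H54/RV/B2.lean`).  `I = {a ∈ R : ∀ y ∈ U, a ∈ J y}` is an ideal of `R` (`hz, hadd, hmul`; an element of `R` is in `O y` for `y ∈ U`, `mem_sec`), so it is generated by finitely many `g_1, ..., g_r ∈ R`.
(2) `m x ∈ J x` (`hgen`: `m x / m x = 1`).  `hcoh` gives `s ∈ R`, `Un (O x) s`, with `m x * s ∈ J y` for all `y ∈ U`.  `g_i ∈ J x`, so `h_i = g_i / m x ∈ O x`, and `IsVar.frac` gives `s_i ∈ R`, `Un (O x) s_i`, `h_i * s_i ∈ R`.  Let `t = s * ∏ s_i ∈ R`: `Un (O x) t` (`un_mul`).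
(3) `V = {y | y ∈ U ∧ Un (O y) t}` is open (`IsVar.basic`, `IsVar.op`) and contains `x`.  Let `y ∈ V`: `s` and the `s_i` are in `R`, so in `O y`, and `un_mul_iff` shows that they are units of `O y`.
(4) `m x ∈ J y`, since `m x = s⁻¹ * (m x * s)` (`hmul` with `c = s⁻¹ ∈ O y`); so `m x / m y ∈ O y` by `hgen`.
(5) `m y ∈ J y`; `hcoh` for the point `y` gives `s' ∈ R`, `Un (O y) s'`, with `m y * s' ∈ J z` for all `z ∈ U`; `J z ⊆ O z` by `hsub`, so `m y * s' ∈ R` and in fact in `I`: `m y * s' = ∑ c_i * g_i` with `c_i ∈ R`.  So `m y * s' / m x = ∑ c_i * h_i`, and `h_i = (h_i * s_i) * s_i⁻¹ ∈ O y`; so `m y / m x = (m y * s' / m x) * s'⁻¹ ∈ O y`.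
(6) (4), (5): `Un (O y) (m y / m x)` (`inv_div`).
-/

set_option autoImplicit false

namespace Pool.Agent.H83.TU

open Pool.Agent.H54.RV

variable {k K : Type} [Field k] [Field K] [Algebra k K] {X : Mod k K}

theorem cart_of (hX : IsVar X) (J : X.P → Set K) (m : X.P → K) (hz : ∀ x, (0 : K) ∈ J x)
    (hadd : ∀ x, ∀ a ∈ J x, ∀ b ∈ J x, a + b ∈ J x) (hmul : ∀ x, ∀ a ∈ J x, ∀ c ∈ X.O x, c * a ∈ J x)
    (hsub : ∀ x, ∀ a ∈ J x, a ∈ X.O x) (hm : ∀ x, m x ≠ 0) (hgen : ∀ x a, a ∈ J x ↔ a / m x ∈ X.O x)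
    (hcoh : ∀ x U, X.aff U → x ∈ U → ∀ a ∈ J x, ∃ s ∈ X.sec U, Un (X.O x) s ∧ ∀ y ∈ U, a * s ∈ J y) :
    ∃ D : Cart X, ∀ x, D.eq x = m x := by
  refine ⟨⟨m, hm, fun x => ?_⟩, fun x => rfl⟩
  obtain ⟨U, hU, hxU⟩ := hX.chart x
  have hnoe : IsNoetherianRing (X.sec U) := isNoetherianRing_of_fg (hX.fg U hU ⟨x, hxU⟩)
  let I : Ideal (X.sec U) :=
    { carrier := {a | ∀ y ∈ U, (a : K) ∈ J y}
      add_mem' := fun {a b} ha hb y hy => hadd y _ (ha y hy) _ (hb y hy)
      zero_mem' := fun y _ => hz y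
      smul_mem' := fun c a ha y hy => hmul y _ (ha y hy) _ ((mem_sec U _).1 c.2 y hy) }
  have hImem : ∀ a : X.sec U, a ∈ I ↔ ∀ y ∈ U, (a : K) ∈ J y := fun a => Iff.rfl
  obtain ⟨G, hG⟩ := (isNoetherianRing_iff_ideal_fg (X.sec U)).1 hnoe I
  have hGI : ∀ g ∈ G, g ∈ I := by
    intro g hg
    rw [← hG]
    exact Ideal.subset_span hg
  have hsd : ∀ y ∈ U, ∀ a ∈ X.sec U, a ∈ X.O y := fun y hy a ha => (mem_sec U a).1 ha y hy
  have hmm : ∀ y, m y ∈ J y := by
    intro y
    rw [hgen y, div_self (hm y)]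
    exact (X.O y).one_mem
  obtain ⟨s, hs, hsu, hsJ⟩ := hcoh x U hU hxU (m x) (hmm x)
  have hu : ∀ F : Finset (X.sec U), (∀ g ∈ F, g ∈ I) →
      ∃ u ∈ X.sec U, Un (X.O x) u ∧ ∀ g ∈ F, (g : K) / m x * u ∈ X.sec U := by
    classical
    intro F
    induction F using Finset.induction_on with
    | empty =>
      intro _
      exact ⟨1, (X.sec U).one_mem, un_one _, fun g hg => absurd hg (Finset.notMem_empty g)⟩
    | insert a F ha ih =>
      intro hF
      obtain ⟨u, hu1, hu2, hu3⟩ := ih (fun g hg => hF g (Finset.mem_insert_of_mem hg))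
      have h1 : (a : K) / m x ∈ X.O x :=
        (hgen x _).1 ((hImem a).1 (hF a (Finset.mem_insert_self _ _)) x hxU)
      obtain ⟨v, hv1, hv2, hv3⟩ := hX.frac U x hU hxU _ h1
      refine ⟨u * v, (X.sec U).mul_mem hu1 hv1, un_mul hu2 hv2, fun g hg => ?_⟩
      rcases Finset.mem_insert.1 hg with rfl | hg
      · have h2 : (g : K) / m x * (u * v) = ((g : K) / m x * v) * u := by ring
        rw [h2]
        exact (X.sec U).mul_mem hv3 hu1
      · rw [← mul_assoc]
        exact (X.sec U).mul_mem (hu3 g hg) hv1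
  obtain ⟨u, hu1, hu2, hu3⟩ := hu G hGI
  have ht : s * u ∈ X.sec U := (X.sec U).mul_mem hs hu1
  refine ⟨{y | y ∈ U ∧ Un (X.O y) (s * u)}, hX.op _ (hX.basic U (s * u) hU
    (fun y hy => hsd y hy _ ht)), ⟨hxU, un_mul hsu hu2⟩, ?_⟩
  rintro y ⟨hyU, hy⟩
  obtain ⟨hys, hyu⟩ := (un_mul_iff (hsd y hyU s hs) (hsd y hyU u hu1)).1 hy
  have h4 : m x ∈ J y := by
    have h1 := hmul y _ (hsJ y hyU) _ hys.2.2
    have h2 : s⁻¹ * (m x * s) = m x := by
      have := hys.1
      field_simp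
    rwa [h2] at h1
  have h4' : m x / m y ∈ X.O y := (hgen y _).1 h4
  obtain ⟨s', hs', hsu', hsJ'⟩ := hcoh y U hU hyU (m y) (hmm y)
  have hw : m y * s' ∈ X.sec U := (mem_sec U _).2 fun z hz => hsub z _ (hsJ' z hz)
  have hwI : (⟨m y * s', hw⟩ : X.sec U) ∈ Ideal.span (G : Set (X.sec U)) := by
    rw [hG]
    exact hsJ'
  have hspan : ∀ w : X.sec U, w ∈ Ideal.span (G : Set (X.sec U)) →
      (w : K) / m x * u ∈ X.O y := by
    intro w hw
    induction hw using Submodule.span_induction with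
    | mem g hg => exact hsd y hyU _ (hu3 g hg)
    | zero =>
      have h1 : ((0 : X.sec U) : K) / m x * u = 0 := by
        rw [ZeroMemClass.coe_zero, zero_div, zero_mul]
      rw [h1]
      exact (X.O y).zero_mem
    | add a b _ _ ha hb =>
      have h1 : ((a + b : X.sec U) : K) / m x * u = (a : K) / m x * u + (b : K) / m x * u := by
        push_cast
        ring
      rw [h1]
      exact (X.O y).add_mem ha hb
    | smul c a _ ha =>
      have h1 : ((c • a : X.sec U) : K) / m x * u = (c : K) * ((a : K) / m x * u) := by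
        rw [smul_eq_mul]
        push_cast
        ring
      rw [h1]
      exact (X.O y).mul_mem (hsd y hyU _ c.2) ha
  have h5 := hspan _ hwI
  have h6 : m y / m x ∈ X.O y := by
    have h7 := (X.O y).mul_mem ((X.O y).mul_mem h5 hyu.2.2) hsu'.2.2
    have h8 : m y * s' / m x * u * u⁻¹ * s'⁻¹ = m y / m x := by
      have e1 := hyu.1
      have e2 := hsu'.1
      have e3 := hm x
      field_simp
    dsimp only at h7
    rwa [h8] at h7
  refine ⟨div_ne_zero (hm y) (hm x), h6, ?_⟩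
  rw [inv_div]
  exact h4'

end Pool.Agent.H83.TU
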