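import Pool.Agent.H83.TU.Cen

/-!
# [H83 TU PA] Theorem U: the prime divisor of a prime element of a local ring

`gen_frac`: every element of `K` is a quotient of elements of `sec U` (`U` affine, not empty): the generic point `g` is in `U` (`gen_mem`), `a ∈ O g = ⊤`, `IsVar.frac`: `a * s ∈ sec U`, `s ∈ sec U`, `s ≠ 0` (`Un`).

`pdiv_of_prime`: `x` a point, `π` a prime element of `O x`.  There is a prime divisor `P` with `P.η ⤳ x`, and for `a ∈ O x`, `a ≠ 0`: `ord a > 0` iff `a / π ∈ O x`; `ord π = 1`.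

PROOF.  Let `U` be affine, `x ∈ U`, `R = X.sec U ⊆ O x`.
(1) `I = {a ∈ R : a / π ∈ O x}` is the preimage of the prime ideal `(π)` of `O x` under the inclusion `R → O x` (`Ideal.comap_isPrime`): a prime ideal; `IsVar.prime`: `η ∈ U` with `a ∈ I ↔ ¬ Un (O η) a` for `a ∈ R`.
(2) `η ⤳ x` (`specializes_iff_forall_open`): for `V` open, `x ∈ V`, `IsVar.bas` gives `a ∈ R`, `Un (O x) a`, `Un (O η) a → η ∈ V`; `a ∉ I` (otherwise `π` divides the unit `a` in `O x`), so `Un (O η) a`.  So `O x ≤ O η` (`IsVar.spec`).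
(3) Let `a ∈ O x`, `a ≠ 0`, `a / π ∉ O x`: then `Un (O η) a`.  Indeed `a * u ∈ R`, `u ∈ R`, `Un (O x) u` (`IsVar.frac`), `a * u / π ∉ O x` (`u` is a unit of `O x`), so `a * u ∉ I`, `Un (O η) (a * u)`, and `u ∉ I` so `Un (O η) u`.  Conversely if `a / π ∈ O x`, then `¬ Un (O η) a`: otherwise `Un (O η) (a * u)` for the same `u`, but `a * u ∈ I`.
(4) Every `b ∈ K`, `b ≠ 0`, is `b = π ^ n * u` with `n : ℤ` and `Un (O η) u`: `b = a / c` with `a, c ∈ R` nonzero (`gen_frac`), and for `0 ≠ a ∈ O x` there is a largest `n` with `a / π ^ n ∈ O x` (`O x` is noetherian or: `UniqueFactorizationMonoid` and `finiteMultiplicity_of_...`; or: `FiniteMultiplicity.of_prime_left`, `WfDvdMonoid`), and `a / π ^ n` is a unit of `O η` by (3).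
(5) `b = π ^ n * u` is in `O η` iff `n ≥ 0`: for `n < 0` it is not, because otherwise `π ^ (-n) * b = u` gives `Un (O η) π` (`un_mul_iff`), against (3).  So `O η` (as a subring of `K`) is a valuation subring (for `b ≠ 0`: `b ∈ O η` or `b⁻¹ ∈ O η`), and a discrete valuation ring: `IsDiscreteValuationRing.ofHasUnitMulPowIrreducibleFactorization` (`π` is irreducible in it, every nonzero element is associated to `π ^ n`).  This is the place `P.p`; `P.mem` holds by definition.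
(6) `ord π = 1` and `ord (π ^ n * u) = n`: `ord_unique` with the function `w b = n` (`w` is well defined: `π ^ n * u = π ^ m * v` with `n > m` would make `π ^ (n - m)` a unit of `O η`), or: `ord u = 0` for units (`ord_eq_zero`), so `ord (π ^ n * u) = n * ord π`, `ord π > 0` as `π` is not a unit of `P.p.R` (`ord_nonneg`, `ord_eq_zero`), and `ord_unif` gives `n * ord π = 1`.
(7) The last statement: `a ∈ O x`, `a ≠ 0`: `a ∈ O η` so `ord a ≥ 0`, and `ord a = 0` iff `Un (O η) a` iff `a / π ∉ O x` by (3).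
-/

set_option autoImplicit false

namespace Pool.Agent.H83.TU

open Pool.Agent.H54.RV

variable {k K : Type} [Field k] [Field K] [Algebra k K] {X : Mod k K}

theorem gen_frac (hX : IsVar X) (hg : ∃ g, Gen X g) (U : Set X.P) (hU : X.aff U) (hne : U.Nonempty) (a : K) :
    ∃ s ∈ X.sec U, s ≠ 0 ∧ a * s ∈ X.sec U := by
  obtain ⟨g, hg⟩ := hg
  have hgU := gen_mem hg U (hX.op U hU) hne
  obtain ⟨s, hs, hu, has⟩ := hX.frac U g hU hgU a (by
    rw [hg.top]
    exact Algebra.mem_top)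
  exact ⟨s, hs, hu.1, has⟩

/-- divisibility in a subalgebra of a field -/
private theorem pa_dvd {A : Subalgebra k K} {q a : K} (hq : q ∈ A) (ha : a ∈ A) (h0 : q ≠ 0) :
    (⟨q, hq⟩ : A) ∣ ⟨a, ha⟩ ↔ a / q ∈ A := by
  constructor
  · rintro ⟨c, hc⟩
    have h1 : a = q * (c : K) := congrArg Subtype.val hc
    rw [h1, mul_div_cancel_left₀ _ h0]
    exact c.2
  · intro h
    refine ⟨⟨a / q, h⟩, Subtype.ext ?_⟩
    change a = q * (a / q)
    rw [mul_div_cancel₀ _ h0]

/-- a place from the powers of a uniformizer -/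
private theorem pa_place (A : Subalgebra k K) (q : K) (hq : q ∈ A) (h0 : q ≠ 0) (hnu : ¬ Un A q)
    (hrep : ∀ b : K, b ≠ 0 → ∃ n : ℤ, ∃ u : K, Un A u ∧ b = q ^ n * u) :
    ∃ p : Place k K, (∀ a, a ∈ A ↔ a ∈ p.R) ∧ p.ord q = 1 := by
  have hneg : ∀ (n : ℤ) (u : K), Un A u → (q ^ n * u ∈ A ↔ 0 ≤ n) := by
    intro n u hu
    constructor
    · intro h
      by_contra hn
      obtain ⟨m, hm⟩ : ∃ m : ℕ, (m : ℤ) = -n := ⟨(-n).toNat, by omega⟩
      have hm1 : 1 ≤ m := by omega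
      have h1 : q ^ m * (q ^ n * u) = u := by
        rw [← mul_assoc, ← zpow_natCast, ← zpow_add₀ h0, hm, neg_add_cancel, zpow_zero, one_mul]
      have h2 : Un A (q ^ m * (q ^ n * u)) := by
        rw [h1]
        exact hu
      have h3 := ((un_mul_iff (A.pow_mem hq m) h).1 h2).1
      exact hnu ((un_pow_iff hq hm1).1 h3)
    · intro hn
      obtain ⟨m, rfl⟩ : ∃ m : ℕ, n = m := ⟨n.toNat, by omega⟩
      rw [zpow_natCast]
      exact A.mul_mem (A.pow_mem hq m) hu.2.1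
  have huniq : ∀ (n m : ℤ) (u v : K), Un A u → Un A v → q ^ n * u = q ^ m * v → n = m := by
    intro n m u v hu hv h
    have h1 : ∀ (n m : ℤ) (u v : K), Un A u → Un A v → q ^ n * u = q ^ m * v → m ≤ n := by
      intro n m u v hu hv h
      have h2 : q ^ (n - m) * (u / v) = 1 := by
        rw [zpow_sub₀ h0]
        have h3 : q ^ m ≠ 0 := zpow_ne_zero m h0
        have h4 := hv.1
        field_simp
        rw [h]
      have h3 := (hneg (n - m) (u / v) (un_div hu hv)).1 (by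
        rw [h2]
        exact A.one_mem)
      omega
    exact le_antisymm (h1 m n v u hv hu h.symm) (h1 n m u v hu hv h)
  choose! w uf hw using hrep
  have hval : ∀ b : K, b ≠ 0 → (b ∈ A ↔ 0 ≤ w b) := by
    intro b hb
    obtain ⟨h1, h2⟩ := hw b hb
    have h3 := hneg (w b) (uf b) h1
    rw [← h2] at h3
    exact h3
  have hwmul : ∀ a b : K, a ≠ 0 → b ≠ 0 → w (a * b) = w a + w b := by
    intro a b ha hb
    obtain ⟨h1, h2⟩ := hw a ha
    obtain ⟨h3, h4⟩ := hw b hb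
    obtain ⟨h5, h6⟩ := hw (a * b) (mul_ne_zero ha hb)
    apply huniq _ _ _ _ h5 (un_mul h1 h3)
    rw [← h6, zpow_add₀ h0]
    calc a * b = (q ^ w a * uf a) * (q ^ w b * uf b) := by rw [← h2, ← h4]
      _ = _ := by ring
  have hwq : w q = 1 := by
    obtain ⟨h1, h2⟩ := hw q h0
    apply huniq _ _ _ _ h1 (un_one A)
    rw [← h2, zpow_one, mul_one]
  have hwinv : ∀ b : K, b ≠ 0 → w b⁻¹ = -w b := by
    intro b hb
    have h1 := hwmul b b⁻¹ hb (inv_ne_zero hb)
    have h2 := hwmul 1 1 one_ne_zero one_ne_zero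
    rw [mul_one] at h2
    rw [mul_inv_cancel₀ hb] at h1
    omega
  let V : ValuationSubring K :=
    { A.toSubring with
      mem_or_inv_mem' := fun b => by
        change b ∈ A ∨ b⁻¹ ∈ A
        by_cases hb : b = 0
        · left
          rw [hb]
          exact A.zero_mem
        · rcases le_total 0 (w b) with h | h
          · exact Or.inl ((hval b hb).2 h)
          · right
            rw [hval _ (inv_ne_zero hb), hwinv b hb]
            omega }
  have hVA : ∀ a : K, a ∈ V ↔ a ∈ A := fun a => Iff.rfl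
  have hisu : ∀ b : V, (b : K) ≠ 0 → (IsUnit b ↔ w (b : K) = 0) := by
    intro b hb
    have hbA : 0 ≤ w (b : K) := (hval _ hb).1 ((hVA _).1 b.2)
    constructor
    · intro h
      obtain ⟨c, hc⟩ := h.exists_right_inv
      have h1 : (b : K) * (c : K) = 1 := congrArg Subtype.val hc
      have hc0 : (c : K) ≠ 0 := right_ne_zero_of_mul_eq_one h1
      have hcA : 0 ≤ w (c : K) := (hval _ hc0).1 ((hVA _).1 c.2)
      have h2 := hwmul _ _ hb hc0
      have h3 := hwmul 1 1 one_ne_zero one_ne_zero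
      rw [mul_one] at h3
      rw [h1] at h2
      omega
    · intro h
      have h1 : (b : K)⁻¹ ∈ V := by
        rw [hVA, hval _ (inv_ne_zero hb), hwinv _ hb, h]
        omega
      exact IsUnit.of_mul_eq_one ⟨(b : K)⁻¹, h1⟩ (Subtype.ext (mul_inv_cancel₀ hb))
  have hqV : q ∈ V := (hVA q).2 hq
  have hirr : Irreducible (⟨q, hqV⟩ : V) := by
    rw [irreducible_iff]
    refine ⟨fun h => ?_, fun a b hab => ?_⟩
    · have h1 := (hisu ⟨q, hqV⟩ h0).1 h
      change w q = 0 at h1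
      omega
    · have h1 : q = (a : K) * (b : K) := congrArg Subtype.val hab
      have ha0 : (a : K) ≠ 0 := fun h => h0 (by rw [h1, h, zero_mul])
      have hb0 : (b : K) ≠ 0 := fun h => h0 (by rw [h1, h, mul_zero])
      have haA : 0 ≤ w (a : K) := (hval _ ha0).1 ((hVA _).1 a.2)
      have hbA : 0 ≤ w (b : K) := (hval _ hb0).1 ((hVA _).1 b.2)
      have h2 := hwmul _ _ ha0 hb0
      rw [← h1, hwq] at h2
      rw [hisu a ha0, hisu b hb0]
      omega
  have hdvr : IsDiscreteValuationRing V := by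
    apply IsDiscreteValuationRing.ofHasUnitMulPowIrreducibleFactorization
    refine ⟨⟨q, hqV⟩, hirr, ?_⟩
    intro b hb
    have hb0 : (b : K) ≠ 0 := fun h => hb (Subtype.ext h)
    have hbA : 0 ≤ w (b : K) := (hval _ hb0).1 ((hVA _).1 b.2)
    obtain ⟨h1, h2⟩ := hw (b : K) hb0
    obtain ⟨n, hn⟩ : ∃ n : ℕ, (n : ℤ) = w (b : K) := ⟨(w (b : K)).toNat, by omega⟩
    rw [← hn, zpow_natCast] at h2
    refine ⟨n, ⟨⟨⟨uf b, h1.2.1⟩, ⟨(uf b)⁻¹, h1.2.2⟩, Subtype.ext (mul_inv_cancel₀ h1.1),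
      Subtype.ext (inv_mul_cancel₀ h1.1)⟩, Subtype.ext ?_⟩⟩
    change q ^ n * uf b = (b : K)
    exact h2.symm
  refine ⟨⟨V, fun c => A.algebraMap_mem c, hdvr⟩, fun a => Iff.rfl, ?_⟩
  rw [← ord_unique _ w hwmul ⟨q, h0, hwq⟩ (fun a ha => (hval a ha).symm) q h0]
  exact hwq

theorem pdiv_of_prime (h : Hyp X) (x : X.P) (π : K) (hπ : π ∈ X.O x) (hp : Prime (⟨π, hπ⟩ : X.O x)) :
    ∃ P : PDiv X, P.η ⤳ x ∧ P.p.ord π = 1 ∧
      ∀ a ∈ X.O x, a ≠ 0 → (0 < P.p.ord a ↔ a / π ∈ X.O x) := by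
  have hX := h.var
  have h0 : π ≠ 0 := fun hh => hp.ne_zero (Subtype.ext hh)
  have hππ : ¬ Un (X.O x) π := fun hh => hp.not_unit ((un_iff hπ).2 hh)
  obtain ⟨U, hU, hxU⟩ := hX.chart x
  have hRx : ∀ a ∈ X.sec U, a ∈ X.O x := fun a ha => (mem_sec U a).1 ha x hxU
  let j : X.sec U →ₐ[k] X.O x := Subalgebra.inclusion fun a ha => hRx a ha
  have hprime : (Ideal.span {(⟨π, hπ⟩ : X.O x)}).IsPrime :=
    (Ideal.span_singleton_prime hp.ne_zero).2 hp
  have hI : (Ideal.comap j (Ideal.span {(⟨π, hπ⟩ : X.O x)})).IsPrime := Ideal.comap_isPrime _ _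
  have hmemI : ∀ a : X.sec U, a ∈ Ideal.comap j (Ideal.span {(⟨π, hπ⟩ : X.O x)}) ↔
      (a : K) / π ∈ X.O x := by
    intro a
    rw [Ideal.mem_comap, Ideal.mem_span_singleton]
    exact pa_dvd hπ (hRx _ a.2) h0
  obtain ⟨η, hηU, hη⟩ := hX.prime U hU ⟨x, hxU⟩ _ hI
  have hη' : ∀ a ∈ X.sec U, (a / π ∈ X.O x ↔ ¬ Un (X.O η) a) := by
    intro a ha
    rw [← hη ⟨a, ha⟩, hmemI]
  have hnun : ∀ a : K, Un (X.O x) a → a / π ∉ X.O x := by
    intro a ha hh
    apply hππ
    refine ⟨h0, hπ, ?_⟩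
    have h1 : π⁻¹ = a / π * a⁻¹ := by
      have := ha.1
      field_simp
    rw [h1]
    exact (X.O x).mul_mem hh ha.2.2
  have hspec : η ⤳ x := by
    rw [specializes_iff_forall_open]
    intro V hV hxV
    obtain ⟨a, ha, hax, hay⟩ := hX.bas U V x hU hV hxU hxV
    apply hay η hηU
    by_contra hc
    exact hnun a hax ((hη' a ((mem_sec U a).2 ha)).2 hc)
  have hle : X.O x ≤ X.O η := hX.spec η x hspec
  have key : ∀ a ∈ X.O x, (Un (X.O η) a ↔ a / π ∉ X.O x) := by
    intro a ha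
    obtain ⟨u, hu, hux, hau⟩ := hX.frac U x hU hxU a ha
    have h1 : Un (X.O η) u := by
      by_contra hc
      exact hnun u hux ((hη' u hu).2 hc)
    rw [← un_mul_un h1, ← not_iff_not, not_not, ← hη' _ hau]
    constructor
    · intro h2
      have h3 : a / π = a * u / π * u⁻¹ := by
        have := hux.1
        field_simp
      rw [h3]
      exact (X.O x).mul_mem h2 hux.2.2
    · intro h2
      have h3 : a * u / π = a / π * u := by ring
      rw [h3]
      exact (X.O x).mul_mem h2 hux.2.1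
  haveI := h.ufd x
  have hfac : ∀ a ∈ X.O x, a ≠ 0 → ∃ (n : ℕ) (u : K), Un (X.O η) u ∧ a = π ^ n * u := by
    intro a ha ha0
    obtain ⟨n, c, hc, hac⟩ := WfDvdMonoid.max_power_factor (a₀ := (⟨a, ha⟩ : X.O x))
      (fun hh => ha0 (congrArg Subtype.val hh)) hp.irreducible
    refine ⟨n, (c : K), ?_, congrArg Subtype.val hac⟩
    rw [key _ c.2]
    intro hh
    exact hc ((pa_dvd hπ c.2 h0).2 hh)
  have hrep : ∀ b : K, b ≠ 0 → ∃ n : ℤ, ∃ u : K, Un (X.O η) u ∧ b = π ^ n * u := by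
    intro b hb
    obtain ⟨s, hs, hs0, hbs⟩ := gen_frac hX h.gen U hU ⟨x, hxU⟩ b
    obtain ⟨n, u, hu, hn⟩ := hfac (b * s) (hRx _ hbs) (mul_ne_zero hb hs0)
    obtain ⟨m, v, hv, hm⟩ := hfac s (hRx _ hs) hs0
    refine ⟨(n : ℤ) - m, u / v, un_div hu hv, ?_⟩
    have hv0 := hv.1
    have h1 : b = b * s / s := by field_simp
    rw [h1, hn, hm, zpow_sub₀ h0, zpow_natCast, zpow_natCast]
    have h2 : π ^ m ≠ 0 := pow_ne_zero m h0
    field_simp
  have hnu : ¬ Un (X.O η) π := by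
    rw [key π hπ, not_not, div_self h0]
    exact (X.O x).one_mem
  obtain ⟨p, hp1, hp2⟩ := pa_place (X.O η) π (hle hπ) h0 hnu hrep
  refine ⟨⟨η, p, hp1⟩, hspec, hp2, ?_⟩
  intro a ha ha0
  change 0 < p.ord a ↔ a / π ∈ X.O x
  have h1 : 0 ≤ p.ord a := (ord_nonneg p a ha0).2 ((hp1 a).1 (hle ha))
  have h2 : p.ord a = 0 ↔ Un (X.O η) a := by
    rw [ord_eq_zero p a ha0, ← hp1, ← hp1]
    exact ⟨fun hh => ⟨ha0, hh.1, hh.2⟩, fun hh => ⟨hh.2.1, hh.2.2⟩⟩
  have h3 : 0 < p.ord a ↔ ¬ p.ord a = 0 := by omega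
  rw [h3, h2, key a ha, not_not]

end Pool.Agent.H83.TU
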