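import Pool.Agent.H83.TU.UA

/-!
# [H83 TU AM] Theorem U: sums and multiples of ample divisors

* `ample_pow`, `ample_of_pow`: for `n ≥ 1`, `D ^ n` is ample iff `D` is ample.  (`nz (D ^ n) m s = nz D (n * m) s` and the same for `Sec` (`pow_eq`, `pow_mul`): this gives `←`.  `→`: for `x` take `m ≥ 1`, `s` with `Sec D m s`, `x ∈ nz D m s` affine; `s ^ n` is a section of `m` times `D ^ n`, with the same non-vanishing set: `s ^ n * (D.eq y ^ n) ^ m = (s * D.eq y ^ m) ^ n`, `un_pow_iff`.)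
* `ample_mul`: `A`, `B` ample: `A * B` is ample.  PROOF.  Let `x` be a point.  `hA x`: `n ≥ 1`, `s`, `U = nz A n s` affine, `x ∈ U`.  `triv` (`H54/RV/B3.lean`) for `B`, `U`, `V = univ`: `c ∈ sec U`, `Un (O x) c`, and for `y ∈ U` with `Un (O y) c`: `Un (O y) (B.eq y / B.eq x)`.  `ext_sec` for `L = A`, `M = 1`, `t = c`: `s ^ j * c` is a section of `n * j A` for some `j`; replace `c` by `s ^ (j + 1) * c`: `c' = s ^ (j + 1) * c` is a section of `n * (j + 1) A`, and `nz A (n * (j + 1)) c' = {y ∈ U | Un (O y) c} =: W` (as in the proof of `amp_pt`: `c' * A.eq ^ .. = (s * A.eq ^ n) * (s ^ j * c * (A.eq ^ n) ^ j)`, both factors in `O y`), affine (`IsVar.basic`), `x ∈ W`.  `hB x`: `m ≥ 1`, `t` with `Sec B m t`, `x ∈ nz B m t`.  Let `q = n * (j + 1)`.  `c' ^ m * t ^ q` is a section of `m * q` times `A * B`; its non-vanishing set is `{y ∈ W | Un (O y) (t * B.eq y ^ m)} = {y ∈ W | Un (O y) (t * B.eq x ^ m)}` (`B.eq y /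 B.eq x` is a unit on `W`; `t * B.eq x ^ m ∈ O y` for `y ∈ W`), affine by `IsVar.basic`, and contains `x`.
* `ample_prin`: `A` ample: `A * prin f` is ample: `s / f ^ n` is a section of `n (A + prin f)` with the same non-vanishing set.
* `numz_prin`: principal divisors are numerically trivial (`(prin f)⁻¹ = prin f⁻¹`: `Cart.ext'`).
-/

set_option autoImplicit false

namespace Pool.Agent.H83.TU

open Pool.Agent.H54.RV

variable {k K : Type} [Field k] [Field K] [Algebra k K] {X : Mod k K}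

theorem ample_pow (D : Cart X) (n : ℕ) (hn : 1 ≤ n) (hD : Ample D) : Ample (D ^ n) := by
  intro x
  obtain ⟨m, hm, s, hs, hx, haff⟩ := hD x
  have h1 : ∀ y, s ^ n * (D ^ n).eq y ^ m = (s * D.eq y ^ m) ^ n := by
    intro y
    rw [pow_eq, mul_pow, ← pow_mul, ← pow_mul, mul_comm n m]
  have h2 : nz (D ^ n) m (s ^ n) = nz D m s := by
    ext y
    show Un (X.O y) (s ^ n * (D ^ n).eq y ^ m) ↔ Un (X.O y) (s * D.eq y ^ m)
    rw [h1, un_pow_iff (hs y) hn]
  refine ⟨m, hm, s ^ n, fun y => ?_, ?_, ?_⟩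
  · rw [h1]
    exact (X.O y).pow_mem (hs y) n
  · rw [h2]
    exact hx
  · rw [h2]
    exact haff

theorem ample_of_pow (D : Cart X) (n : ℕ) (hn : 1 ≤ n) (hD : Ample (D ^ n)) : Ample D := by
  intro x
  obtain ⟨m, hm, s, hs, hx, haff⟩ := hD x
  have h1 : ∀ y, s * (D ^ n).eq y ^ m = s * D.eq y ^ (n * m) := by
    intro y
    rw [pow_eq, ← pow_mul]
  have h2 : nz (D ^ n) m s = nz D (n * m) s := by
    ext y
    show Un (X.O y) (s * (D ^ n).eq y ^ m) ↔ Un (X.O y) (s * D.eq y ^ (n * m))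
    rw [h1]
  refine ⟨n * m, Nat.mul_pos hn hm, s, fun y => ?_, ?_, ?_⟩
  · rw [← h1]
    exact hs y
  · rw [← h2]
    exact hx
  · rw [← h2]
    exact haff

theorem ample_mul (hX : IsVar X) (A B : Cart X) (hA : Ample A) (hB : Ample B) : Ample (A * B) := by
  intro x
  obtain ⟨n, hn, s, hs, hx, haff⟩ := hA x
  obtain ⟨c, hc1, hc2, hc3⟩ := triv hX B (nz A n s) Set.univ x haff isOpen_univ hx (Set.mem_univ x)
  obtain ⟨N, hN⟩ := ext_sec hX A 1 n s c hs (fun y hy => by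
    rw [one_eq, mul_one]
    exact hc1 y hy)
  obtain ⟨m, hm, t, ht, hxt, -⟩ := hB x
  obtain ⟨W, hW⟩ : ∃ W : Set X.P, W = {y | y ∈ nz A n s ∧ Un (X.O y) c} := ⟨_, rfl⟩
  have hWaff : X.aff W := by
    rw [hW]
    exact hX.basic _ c haff hc1
  obtain ⟨q, hq⟩ : ∃ q, q = n * (N + 1) := ⟨_, rfl⟩
  have hq1 : 1 ≤ q := by
    rw [hq]
    exact Nat.mul_pos hn (Nat.succ_pos N)
  obtain ⟨c', hc'⟩ : ∃ c', c' = s ^ (N + 1) * c := ⟨_, rfl⟩
  have e1 : ∀ y, c' * A.eq y ^ q =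
      s * A.eq y ^ n * (s ^ N * c * ((A.eq y ^ n) ^ N * (1 : Cart X).eq y)) := by
    intro y
    rw [hc', hq, one_eq, pow_mul, pow_succ s N, pow_succ (A.eq y ^ n) N]
    ring
  have e2 : ∀ y, c' * A.eq y ^ q = (s * A.eq y ^ n) ^ (N + 1) * c := by
    intro y
    rw [hc', hq, pow_mul, mul_pow]
    ring
  have hmem : ∀ y, c' * A.eq y ^ q ∈ X.O y := by
    intro y
    rw [e1]
    exact (X.O y).mul_mem (hs y) (hN N le_rfl y)
  have hWiff : ∀ y, Un (X.O y) (c' * A.eq y ^ q) ↔ y ∈ W := by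
    intro y
    rw [hW]
    constructor
    · intro h
      have h1 : Un (X.O y) (s * A.eq y ^ n) := by
        rw [e1, un_mul_iff (hs y) (hN N le_rfl y)] at h
        exact h.1
      refine ⟨h1, ?_⟩
      rw [e2, un_mul_iff ((X.O y).pow_mem (hs y) _) (hc1 y h1)] at h
      exact h.2
    · rintro ⟨h1, h2⟩
      rw [e2]
      exact un_mul (un_pow h1 _) h2
  have hxW : x ∈ W := by
    rw [hW]
    exact ⟨hx, hc2⟩
  have hBu : ∀ y ∈ W, Un (X.O y) ((B.eq y / B.eq x) ^ m) := by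
    intro y hy
    rw [hW] at hy
    exact un_pow (hc3 y hy.1 hy.2).2 m
  have e3 : ∀ y, t * B.eq x ^ m * (B.eq y / B.eq x) ^ m = t * B.eq y ^ m := by
    intro y
    rw [div_pow, mul_assoc, mul_div_cancel₀ _ (pow_ne_zero m (B.ne x))]
  have e4 : ∀ y, c' ^ m * t ^ q * (A * B).eq y ^ (m * q) =
      (c' * A.eq y ^ q) ^ m * (t * B.eq y ^ m) ^ q := by
    intro y
    rw [mul_eq, mul_pow, mul_pow, mul_pow, ← pow_mul, ← pow_mul, mul_comm q m]
    ring
  have hnz : nz (A * B) (m * q) (c' ^ m * t ^ q) = {y | y ∈ W ∧ Un (X.O y) (t * B.eq x ^ m)} := by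
    ext y
    show Un (X.O y) (c' ^ m * t ^ q * (A * B).eq y ^ (m * q)) ↔
      y ∈ W ∧ Un (X.O y) (t * B.eq x ^ m)
    rw [e4, un_mul_iff ((X.O y).pow_mem (hmem y) _) ((X.O y).pow_mem (ht y) _),
      un_pow_iff (hmem y) hm, un_pow_iff (ht y) hq1, hWiff]
    constructor
    · rintro ⟨h1, h2⟩
      refine ⟨h1, ?_⟩
      rw [← e3, un_mul_un (hBu y h1)] at h2
      exact h2
    · rintro ⟨h1, h2⟩
      refine ⟨h1, ?_⟩
      rw [← e3, un_mul_un (hBu y h1)]
      exact h2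
  refine ⟨m * q, Nat.mul_pos hm hq1, c' ^ m * t ^ q, fun y => ?_, ?_, ?_⟩
  · rw [e4]
    exact (X.O y).mul_mem ((X.O y).pow_mem (hmem y) _) ((X.O y).pow_mem (ht y) _)
  · rw [hnz]
    exact ⟨hxW, hxt⟩
  · rw [hnz]
    refine hX.basic W _ hWaff fun y hy => ?_
    rw [← mem_mul_un (hBu y hy), e3]
    exact ht y

theorem ample_prin (A : Cart X) (f : K) (hf : f ≠ 0) (hA : Ample A) : Ample (A * prin X f hf) := by
  intro x
  obtain ⟨n, hn, s, hs, hx, haff⟩ := hA x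
  have h1 : ∀ y, s / f ^ n * (A * prin X f hf).eq y ^ n = s * A.eq y ^ n := by
    intro y
    have h2 : (A * prin X f hf).eq y = A.eq y * f := rfl
    have h3 : f ^ n ≠ 0 := pow_ne_zero n hf
    rw [h2, mul_pow]
    field_simp
  have h2 : nz (A * prin X f hf) n (s / f ^ n) = nz A n s := by
    ext y
    show Un (X.O y) (s / f ^ n * (A * prin X f hf).eq y ^ n) ↔ Un (X.O y) (s * A.eq y ^ n)
    rw [h1]
  refine ⟨n, hn, s / f ^ n, fun y => ?_, ?_, ?_⟩
  · rw [h1]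
    exact hs y
  · rw [h2]
    exact hx
  · rw [h2]
    exact haff

theorem numz_prin (f : K) (hf : f ≠ 0) : NumZ (prin X f hf) := by
  intro A hA
  refine ⟨ample_prin A f hf hA, ?_⟩
  have h1 : (prin X f hf)⁻¹ = prin X f⁻¹ (inv_ne_zero hf) := Cart.ext' _ _ fun x => rfl
  rw [h1]
  exact ample_prin A f⁻¹ (inv_ne_zero hf) hA

end Pool.Agent.H83.TU
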