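import Pool.Agent.H83.TU.Props
import Pool.Agent.H83.TU.Cen

/-!
# Theorem U: the functional `R_F` (definition and statements used by the other parts)

`F` a field between `k` and `K` with `trdeg K / F = 1`.  `RF hX hg F D` is the sum over the places `v` of `K` over `F`
of the order of the local equation of `D` at the centre of `v`, times the degree of the residue field of `v` over `F`.
-/

set_option autoImplicit false

namespace Pool.Agent.H83.TU

open Pool.Agent.H54.RV

variable {k K : Type} [Field k] [Field K] [Algebra k K] {X : Mod k K}

/-- the functional `R_F` -/
noncomputable def RF (hX : IsVar X) (hg : ∃ g, Gen X g) (F : IntermediateField k K) (D : Cart X) : ℤ :=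
  ∑ᶠ p : Place F K, p.ord (D.eq (cenK hX hg (down p))) * (deg p : ℤ)

theorem down_R {F : IntermediateField k K} (p : Place F K) : (down p).R = p.R := rfl

theorem down_ord {F : IntermediateField k K} (p : Place F K) (a : K) : (down p).ord a = p.ord a := rfl

end Pool.Agent.H83.TU
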