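import Pool.Agent.H83.TU.CC
import Pool.Agent.H57.KM.Basic

/-!
# [H83 TU CF] Theorem U: if the irrational boundary classes are excluded, the nef cone is rational polyhedral

Hypotheses: `AmpV ν` open (`ho`), nonempty (`hne`), its closure contains no line (`hpt`); `ξ` a linear form on the plane, not `0`, with rational values on the integral vectors, `≥ 0` on `AmpV ν`; (`hbig`) a class of the closure of `AmpV ν` which is not in `AmpV ν` and is in the interior of `EffV ν` has a nonzero multiple which is integral; (`hb`) for a class `p` of the closure which is not in the interior of `EffV ν` and has no nonzero integral multiple, `ξ p > 0` is impossible.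

PROOF.  `cone_two` for `A = AmpV ν` (`ampV_add`, `ampV_smul` of `NV.lean`): `p`, `q` in the closure, not in `AmpV ν`, not `0`, the closure is the set of the `a p + c q`, `a, c ≥ 0`.
Claim: every `p ≠ 0` in the closure and not in `AmpV ν` is `r • toR u` with `r > 0` and an integral vector `u`.  If `p` has a nonzero integral multiple `t • p = toR s`: `u = s`, `r = 1 / t` if `t > 0`, and `u = -s`, `r = -1 / t` if `t < 0` (`toR (-s) = - toR s`).  Otherwise `p ∉ interior (EffV ν)` (`hbig`).  `ξ p ≥ 0`, since `ξ` is continuous (a linear form on `Fin 2 → ℝ`: `LinearMap.continuous_of_finiteDimensional`) and `≥ 0` on `AmpV ν`.  `ξ p > 0` is impossible by `hb`.  So `ξ p = 0`: with `ξ v = ξ_0 v_0 + ξ_1 v_1`, `ξ_0, ξ_1` rational (values at the unit vectors), not both `0`; multiply by a common denominator: integers `m_0, m_1`, not both `0`, with `m_0 p_0 + m_1 p_1 = 0`, so `p` is a multiple of the integral vector `(m_1, -m_0)`: `p = r • toR (m_1,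 -m_0)`, `r ≠ 0` as `p ≠ 0`, and `(1 / r) • p` is integral: a contradiction.
Conclusion: `p = r • toR u`, `q = r' • toR w` with `r, r' > 0`, and the set of the `a p + c q` is the set of the `a toR u + c toR w` (replace `a` by `a r`, `a / r`).
-/

set_option autoImplicit false

namespace Pool.Agent.H83.TU

open Pool.Agent.H57.KM Pool.Agent.H54.RV

variable {k K : Type} [Field k] [Field K] [Algebra k K] {X : Mod k K}

private theorem cf_lin (ξ : V 2 →ₗ[ℝ] ℝ) (v : V 2) :
    ξ v = v 0 * ξ (toR ![1, 0]) + v 1 * ξ (toR ![0, 1]) := by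
  have h : v = v 0 • toR ![1, 0] + v 1 • toR ![0, 1] := by
    funext i
    fin_cases i <;> simp [toR]
  conv_lhs => rw [h]
  rw [map_add, map_smul, map_smul, smul_eq_mul, smul_eq_mul]

/-- a nonzero zero of a nonzero rational linear form in the plane is a multiple of an integral vector -/
private theorem cf_zero (ξ : V 2 →ₗ[ℝ] ℝ) (hξ : ξ ≠ 0) (hq : ∀ s : Fin 2 → ℤ, ∃ q : ℚ, ξ (toR s) = q)
    (p : V 2) (hp0 : p ≠ 0) (hp : ξ p = 0) :
    ∃ (t : ℝ) (s : Fin 2 → ℤ), t ≠ 0 ∧ t • p = toR s := by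
  obtain ⟨a, ha⟩ := hq ![1, 0]
  obtain ⟨b, hb⟩ := hq ![0, 1]
  have hab : a ≠ 0 ∨ b ≠ 0 := by
    by_contra hc
    push Not at hc
    apply hξ
    apply LinearMap.ext
    intro v
    rw [cf_lin, ha, hb, hc.1, hc.2]
    simp
  set m0 : ℤ := a.num * b.den with hm0
  set m1 : ℤ := b.num * a.den with hm1
  have hda : (a.den : ℝ) ≠ 0 := by exact_mod_cast a.den_nz
  have hdb : (b.den : ℝ) ≠ 0 := by exact_mod_cast b.den_nz
  have ea : (a : ℝ) = (a.num : ℝ) / a.den := by exact_mod_cast (Rat.num_div_den a).symm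
  have eb : (b : ℝ) = (b.num : ℝ) / b.den := by exact_mod_cast (Rat.num_div_den b).symm
  have e1 : (m0 : ℝ) * p 0 + (m1 : ℝ) * p 1 = 0 := by
    rw [cf_lin, ha, hb, ea, eb] at hp
    rw [hm0, hm1]
    push_cast
    field_simp at hp
    linarith
  have hm : m0 ≠ 0 ∨ m1 ≠ 0 := by
    rcases hab with h | h
    · left
      rw [hm0]
      exact mul_ne_zero (Rat.num_ne_zero.2 h) (by exact_mod_cast b.den_nz)
    · right
      rw [hm1]
      exact mul_ne_zero (Rat.num_ne_zero.2 h) (by exact_mod_cast a.den_nz)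
  have hp01 : p 0 ≠ 0 ∨ p 1 ≠ 0 := by
    by_contra hc
    push Not at hc
    apply hp0
    funext i
    fin_cases i
    · exact hc.1
    · exact hc.2
  by_cases h1 : m1 = 0
  · have h0 : m0 ≠ 0 := by
      rcases hm with h | h
      · exact h
      · exact absurd h1 h
    have h0R : (m0 : ℝ) ≠ 0 := by exact_mod_cast h0
    have hp00 : p 0 = 0 := by
      rw [h1, Int.cast_zero, zero_mul, add_zero] at e1
      exact (mul_eq_zero.1 e1).resolve_left h0R
    have hp1 : p 1 ≠ 0 := by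
      rcases hp01 with h | h
      · exact absurd hp00 h
      · exact h
    refine ⟨(p 1)⁻¹, ![0, 1], inv_ne_zero hp1, ?_⟩
    funext i
    fin_cases i
    · simp [toR, hp00]
    · simp [toR, hp1]
  · have h1R : (m1 : ℝ) ≠ 0 := by exact_mod_cast h1
    have hp00 : p 0 ≠ 0 := by
      intro h
      rw [h, mul_zero, zero_add] at e1
      rcases hp01 with h2 | h2
      · exact h2 h
      · exact h2 ((mul_eq_zero.1 e1).resolve_left h1R)
    refine ⟨m1 / p 0, ![m1, -m0], div_ne_zero h1R hp00, ?_⟩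
    funext i
    fin_cases i
    · simp [toR, hp00]
    · have e2 : (m1 : ℝ) * p 1 = -(m0 : ℝ) * p 0 := by linarith
      show (m1 : ℝ) / p 0 * p 1 = ((-m0 : ℤ) : ℝ)
      rw [div_mul_eq_mul_div, e2, mul_div_assoc, div_self hp00, mul_one]
      push_cast
      ring

private theorem cf_pos (p : V 2) (h : ∃ (t : ℝ) (s : Fin 2 → ℤ), t ≠ 0 ∧ t • p = toR s) :
    ∃ (r : ℝ) (u : Fin 2 → ℤ), 0 < r ∧ p = r • toR u := by
  obtain ⟨t, s, ht, hs⟩ := h
  rcases lt_or_gt_of_ne ht with h1 | h1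
  · refine ⟨(-t)⁻¹, -s, inv_pos.2 (by linarith), ?_⟩
    have e : toR (-s) = (-t) • p := by
      rw [neg_smul, hs]
      funext i
      simp [toR]
    rw [e, smul_smul, inv_mul_cancel₀ (by linarith : -t ≠ 0), one_smul]
  · refine ⟨t⁻¹, s, inv_pos.2 h1, ?_⟩
    rw [← hs, smul_smul, inv_mul_cancel₀ ht, one_smul]

theorem nef_rat (ν : Cart X →* Multiplicative (Fin 2 → ℤ)) (ho : IsOpen (AmpV ν)) (hne : (AmpV ν).Nonempty)
    (hpt : ∀ v, v ∈ closure (AmpV ν) → -v ∈ closure (AmpV ν) → v = 0)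
    (ξ : V 2 →ₗ[ℝ] ℝ) (hξ : ξ ≠ 0) (hq : ∀ s : Fin 2 → ℤ, ∃ q : ℚ, ξ (toR s) = q)
    (hp : ∀ v ∈ AmpV ν, 0 ≤ ξ v)
    (hbig : ∀ p ∈ interior (EffV ν), p ∈ closure (AmpV ν) → p ∉ AmpV ν →
      ∃ (t : ℝ) (s : Fin 2 → ℤ), t ≠ 0 ∧ t • p = toR s)
    (hb : ∀ p ∈ closure (AmpV ν), p ∉ interior (EffV ν) →
      (∀ (t : ℝ) (s : Fin 2 → ℤ), t ≠ 0 → t • p ≠ toR s) → ¬ 0 < ξ p) :
    ∃ u w : Fin 2 → ℤ, closure (AmpV ν) = {v | ∃ a c : ℝ, 0 ≤ a ∧ 0 ≤ c ∧ v = a • toR u + c • toR w} := by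
  obtain ⟨p, q, hp0, hq0, hpc, hqc, hpA, hqA, hC⟩ := cone_two (AmpV ν) ho hne
    (fun v hv w hw => ampV_add hv hw) (fun c hc v hv => ampV_smul hc hv) hpt
  have key : ∀ p : V 2, p ≠ 0 → p ∈ closure (AmpV ν) → p ∉ AmpV ν →
      ∃ (r : ℝ) (u : Fin 2 → ℤ), 0 < r ∧ p = r • toR u := by
    intro p hp0 hpc hpA
    apply cf_pos
    by_contra hn
    have hn2 : ∀ (t : ℝ) (s : Fin 2 → ℤ), t ≠ 0 → t • p ≠ toR s := fun t s ht hs => hn ⟨t, s, ht, hs⟩
    have hni : p ∉ interior (EffV ν) := fun hi => hn (hbig p hi hpc hpA)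
    have hcont : Continuous ξ := LinearMap.continuous_of_finiteDimensional ξ
    have hnn : 0 ≤ ξ p := by
      have hsub : closure (AmpV ν) ⊆ {v | 0 ≤ ξ v} :=
        closure_minimal hp (isClosed_le continuous_const hcont)
      exact hsub hpc
    have hz : ξ p = 0 := le_antisymm (not_lt.1 (hb p hpc hni hn2)) hnn
    exact hn (cf_zero ξ hξ hq p hp0 hz)
  obtain ⟨r, u, hr, hu⟩ := key p hp0 hpc hpA
  obtain ⟨r', w, hr', hw⟩ := key q hq0 hqc hqA
  refine ⟨u, w, ?_⟩
  rw [hC]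
  ext v
  constructor
  · rintro ⟨a, c, ha, hc, rfl⟩
    refine ⟨a * r, c * r', mul_nonneg ha hr.le, mul_nonneg hc hr'.le, ?_⟩
    rw [hu, hw, smul_smul, smul_smul]
  · rintro ⟨a, c, ha, hc, rfl⟩
    refine ⟨a / r, c / r', div_nonneg ha hr.le, div_nonneg hc hr'.le, ?_⟩
    rw [hu, hw, smul_smul, smul_smul, div_mul_cancel₀ _ hr.ne', div_mul_cancel₀ _ hr'.ne']

end Pool.Agent.H83.TU
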