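import Pool.Agent.H83.TU.Base
import Pool.Agent.H54.RV.Front
import Pool.Agent.H54.RV.S8

/-!
# [H83 TU HB] Theorem U: the standing hypotheses for an integral scheme proper over `ℂ`

* `gen_mdl`: the generic point of `Y` has local ring `K` and specialises to all points (`genericPoint_spec`, `toK` at the generic point is the identity / an isomorphism: `Y.functionField` is the stalk at the generic point; `mem_O`).
* `ufd_mdl`: `locA f x` is isomorphic to the stalk at `x` (`toK f x` is injective: `toK_inj`; `RingEquiv.ofBijective` onto the range), `MulEquiv.uniqueFactorizationMonoid`.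
* `hyp_mdl`: `Hyp (mdl f)` (`isVar_mdl`; find its name and file with grep in `Pool/Agent/H54/RV`).
-/

set_option autoImplicit false

namespace Pool.Agent.H83.TU

open AlgebraicGeometry CategoryTheory Pool.Agent.H54.RV

variable {Y : Scheme.{0}} [IsIntegral Y] (f : Y ⟶ Spec (.of ℂ))

theorem gen_mdl : Gen (mdl f) (genericPoint Y) where
  top := by
    rw [eq_top_iff]
    intro a _
    refine ⟨(show Y.presheaf.stalk (genericPoint Y) from a), ?_⟩
    have h1 := Y.presheaf.stalkSpecializes_refl (genericPoint Y)
    exact congrArg (fun g => g.hom (show Y.presheaf.stalk (genericPoint Y) from a)) h1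
  spec x := (genericPoint_spec Y).specializes (Set.mem_univ x)

theorem ufd_mdl (x : Y) (h : UniqueFactorizationMonoid (Y.presheaf.stalk x)) :
    UniqueFactorizationMonoid ((mdl f).O x) := by
  have e : Y.presheaf.stalk x ≃+* (toK f x).range :=
    RingEquiv.ofBijective (toK f x).rangeRestrict
      ⟨fun a b hab => toK_inj f x (congrArg Subtype.val hab), (toK f x).rangeRestrict_surjective⟩
  exact MulEquiv.uniqueFactorizationMonoid (β := (toK f x).range) e.toMulEquiv h

theorem hyp_mdl [IsProper f] (hA : ∃ D : Cart (mdl f), Ample D) (hd : Algebra.trdeg ℂ (FF f) = 3)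
    (hu : ∀ x : Y, UniqueFactorizationMonoid (Y.presheaf.stalk x)) : Hyp (mdl f) where
  var := isVar_mdl f
  gen := ⟨genericPoint Y, gen_mdl f⟩
  ufd x := ufd_mdl f x (hu x)
  amp := hA
  tr := hd

end Pool.Agent.H83.TU
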