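import Pool.Agent.H83.TU.RB
import Mathlib.RingTheory.AlgebraicIndependent.Transcendental

/-!
# [H83 TU RC] Theorem U: `R_F` is positive on ample divisors

* `rf_sec`: if `s ≠ 0` is a section of `m D`, then `m * RF D ≥ 0`, more precisely `m * RF D = RF (prin s * D ^ m)` and `prin s * D ^ m` is effective (`rf_mul`, `rf_prin`, `rf_pow`).
* `rf_ample`: `D` ample: `RF D > 0`.  PROOF.  Since `trdeg K / F = 1` there is `f ∈ K` transcendental over `F` (otherwise `K / F` is algebraic and `trdeg = 0`: `Algebra.trdeg_eq_zero_iff`-like lemma; or `Algebra.trdeg` positive gives an algebraically independent element).  `UF X` for `D`, `T = {g}` (`g` the generic point, `f ∈ O g = ⊤`), `f` and a large `m ≥ 1`: `s` with `Sec D m s`, `Sec D m (s * f)`, `s ≠ 0` (`nz`: `Un`).  `exists_pole` over `F`: a place `p` with `ord f < 0`.  Let `E = prin s * D ^ m`, effective, and `c` the centre of `p`: `E.eq c = s * D.eq c ^ m`, `s * f * D.eq c ^ m ∈ O c ⊆ p.R`, so `ord (E.eq c) + ord f ≥ 0`, so `ord (E.eq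 c) > 0`, and `rf_pos`: `0 < RF E = m * RF D`.
* `rfun_rf`: `RF` is an `RFun`.
* `rfun_numz`: an `RFun` vanishes on the numerically trivial divisors: `NumZ D`, `A` ample (`h.amp`): `A * D ^ n` and `A * (D⁻¹) ^ n` are ample for all `n` (induction), so `R A + n * R D > 0` and `R A - n * R D > 0` for all `n` (`RFun.add`; `R 1 = 0` and `R D⁻¹ = - R D` follow from `add`); `n = R A` (as a natural number) gives `R D = 0`.
* `exists_F0`: there is a field `F` between `k` and `K` with `trdeg K / F = 1`: a transcendence basis `c_1, c_2, c_3` (`h.tr`), `F = k(c_1, c_2)`; additivity of the transcendence degree in towers (`Algebra.trdeg_add_eq` or the lemmas on `IsTranscendenceBasis` in towers): `trdeg k F = 2`.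
-/

set_option autoImplicit false

namespace Pool.Agent.H83.TU

open Pool.Agent.H54.RV
open scoped IntermediateField.algebraAdjoinAdjoin

variable {k K : Type} [Field k] [Field K] [Algebra k K] {X : Mod k K}

theorem rf_sec [CharZero k] (hX : IsVar X) (hg : ∃ g, Gen X g) (F : IntermediateField k K)
    (hF : Algebra.trdeg F K = 1) (D : Cart X) (m : ℕ) (s : K) (hs : s ≠ 0) (hsec : Sec D m s) :
    Effective (prin X s hs * D ^ m) ∧ RF hX hg F (prin X s hs * D ^ m) = m * RF hX hg F D := by
  refine ⟨fun x => hsec x |> fun h => ?_, ?_⟩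
  · rw [mul_eq, pow_eq]
    exact h
  · rw [rf_mul hX hg F hF, rf_prin hX hg F hF, rf_pow hX hg F hF, zero_add]

theorem rf_ample [CharZero k] (hX : IsVar X) (hg : ∃ g, Gen X g) (hUF : UF X) (F : IntermediateField k K)
    (hF : Algebra.trdeg F K = 1) (D : Cart X) (hD : Ample D) : 0 < RF hX hg F D := by
  haveI : CharZero F := charZero_of_injective_algebraMap (algebraMap k F).injective
  have htr : Algebra.Transcendental F K := by
    rw [← trdeg_ne_zero_iff, hF]
    exact one_ne_zero
  obtain ⟨f, hf⟩ := htr.transcendental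
  have hf0 : f ≠ 0 := by
    rintro rfl
    exact hf isAlgebraic_zero
  obtain ⟨g, hgg⟩ := hg
  obtain ⟨m₀, hm₀⟩ := hUF D {g} f hD (fun x hx => by
    rw [Finset.mem_singleton.1 hx, hgg.top]
    exact Algebra.mem_top)
  obtain ⟨s, hs1, hs2, hs3⟩ := hm₀ (max m₀ 1) (le_max_left _ _)
  have hm1 : 1 ≤ max m₀ 1 := le_max_right _ _
  set m := max m₀ 1 with hm
  have hs0 : s ≠ 0 := left_ne_zero_of_mul (hs3 g (Finset.mem_singleton_self g)).1
  have hg : ∃ g, Gen X g := ⟨g, hgg⟩
  obtain ⟨p, hp⟩ := exists_pole (k := F) (κ := K) hF (F_fg hX hg F) f hf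
  obtain ⟨hE1, hE2⟩ := rf_sec hX hg F hF D m s hs0 hs1
  have hEc : (prin X s hs0 * D ^ m).eq (cenK hX hg (down p)) =
      s * D.eq (cenK hX hg (down p)) ^ m := by
    rw [mul_eq, pow_eq]
    rfl
  have hE0 : s * D.eq (cenK hX hg (down p)) ^ m ≠ 0 := mul_ne_zero hs0 (pow_ne_zero _ (D.ne _))
  have h1 : s * f * D.eq (cenK hX hg (down p)) ^ m ∈ p.R := cenK_le hX hg (down p) _ (hs2 _)
  have h2 : s * f * D.eq (cenK hX hg (down p)) ^ m =
      s * D.eq (cenK hX hg (down p)) ^ m * f := by ring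
  rw [h2, ← ord_nonneg p _ (mul_ne_zero hE0 hf0), ord_mul p _ _ hE0 hf0] at h1
  have h3 := rf_pos hX hg F hF _ hE1 p (by
    rw [hEc]
    omega)
  rw [hE2] at h3
  by_contra hcon
  rw [not_lt] at hcon
  have h4 : (m : ℤ) * RF hX hg F D ≤ 0 :=
    mul_nonpos_of_nonneg_of_nonpos (Nat.cast_nonneg m) hcon
  omega

theorem rfun_rf [CharZero k] (hX : IsVar X) (hg : ∃ g, Gen X g) (hUF : UF X) (F : IntermediateField k K)
    (hF : Algebra.trdeg F K = 1) : RFun (RF hX hg F) :=
  ⟨rf_mul hX hg F hF, rf_eff hX hg F hF, rf_ample hX hg hUF F hF⟩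

theorem rfun_numz (h : Hyp X) (R : Cart X → ℤ) (hR : RFun R) (D : Cart X) (hD : NumZ D) : R D = 0 := by
  obtain ⟨A, hA⟩ := h.amp
  have h1 : ∀ n : ℕ, Ample (A * D ^ n) := by
    intro n
    induction n with
    | zero =>
      rw [pow_zero, mul_one]
      exact hA
    | succ n ih =>
      rw [pow_succ, ← mul_assoc]
      exact (hD _ ih).1
  have h2 : ∀ n : ℕ, Ample (A * D⁻¹ ^ n) := by
    intro n
    induction n with
    | zero =>
      rw [pow_zero, mul_one]
      exact hA
    | succ n ih =>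
      rw [pow_succ, ← mul_assoc]
      exact (hD _ ih).2
  have hone : R 1 = 0 := by
    have h3 := hR.add 1 1
    rw [mul_one] at h3
    omega
  have hinv : R D⁻¹ = -R D := by
    have h3 := hR.add D D⁻¹
    rw [mul_inv_cancel, hone] at h3
    omega
  have hpow : ∀ (E : Cart X) (n : ℕ), R (E ^ n) = n * R E := by
    intro E n
    induction n with
    | zero =>
      rw [pow_zero, hone]
      push_cast
      ring
    | succ n ih =>
      rw [pow_succ, hR.add, ih]
      push_cast
      ring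
  have hA0 := hR.amp A hA
  obtain ⟨n, hn⟩ : ∃ n : ℕ, (n : ℤ) = R A := ⟨(R A).toNat, by omega⟩
  have h3 := hR.amp _ (h1 n)
  have h4 := hR.amp _ (h2 n)
  rw [hR.add, hpow, hn] at h3 h4
  rw [hinv] at h4
  by_contra hcon
  rcases lt_or_gt_of_ne hcon with h5 | h5
  · have h6 : R A * R D ≤ R A * (-1) := mul_le_mul_of_nonneg_left (by omega) hA0.le
    omega
  · have h6 : R A * (-R D) ≤ R A * (-1) := mul_le_mul_of_nonneg_left (by omega) hA0.le
    omega

theorem exists_F0 (h : Hyp X) : ∃ F : IntermediateField k K, Algebra.trdeg F K = 1 := by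
  obtain ⟨s, hs⟩ := exists_isTranscendenceBasis k K
  have h3 : Cardinal.mk s = 3 := by rw [hs.cardinalMk_eq_trdeg, h.tr]
  obtain ⟨t, hts, ht⟩ := Cardinal.le_mk_iff_exists_subset.1
    (show (2 : Cardinal) ≤ Cardinal.mk s by
      rw [h3]
      exact_mod_cast (by norm_num : (2 : ℕ) ≤ 3))
  have hi : AlgebraicIndependent k ((↑) : t → K) := hs.1.mono hts
  have h2 : Algebra.trdeg k (Algebra.adjoin k (Set.range ((↑) : t → K))) = 2 := by
    rw [← hi.aevalEquiv.trdeg_eq, MvPolynomial.trdeg_of_isDomain, Cardinal.lift_id, ht]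
  have h4 : Algebra.trdeg (Algebra.adjoin k (Set.range ((↑) : t → K)))
      (IntermediateField.adjoin k (Set.range ((↑) : t → K))) = 0 := by
    have h5 : Algebra.IsAlgebraic (Algebra.adjoin k (Set.range ((↑) : t → K)))
        (IntermediateField.adjoin k (Set.range ((↑) : t → K))) :=
      IsLocalization.isAlgebraic _ (nonZeroDivisors _)
    exact trdeg_eq_zero
  refine ⟨IntermediateField.adjoin k (Set.range ((↑) : t → K)), ?_⟩
  have h5 := trdeg_add_eq k (Algebra.adjoin k (Set.range ((↑) : t → K))) (A := K)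
  have h6 := trdeg_add_eq (Algebra.adjoin k (Set.range ((↑) : t → K)))
    (IntermediateField.adjoin k (Set.range ((↑) : t → K))) (A := K)
  rw [h4, zero_add] at h6
  rw [h2, h.tr, ← h6] at h5
  have h7 : (2 : Cardinal) + 1 = 3 := by norm_num
  have h8 : (2 : Cardinal) < Cardinal.aleph0 := by exact_mod_cast Cardinal.nat_lt_aleph0 2
  rw [← h7] at h5
  exact Cardinal.eq_of_add_eq_add_left h5 h8

end Pool.Agent.H83.TU
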