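import Pool.Agent.H83.TU.NV
import Pool.Agent.H83.TU.RC

/-!
# Theorem U: an additive function which is positive on ample divisors is a linear form on the plane (complete)
-/

set_option autoImplicit false

namespace Pool.Agent.H83.TU

open Pool.Agent.H54.RV

variable {k K : Type} [Field k] [Field K] [Algebra k K] {X : Mod k K}

/-- the homomorphism given by an `RFun` -/
noncomputable def rHom {R : Cart X → ℤ} (hR : RFun R) : Cart X →* Multiplicative ℤ where
  toFun D := Multiplicative.ofAdd (R D)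
  map_one' := by
    have h := hR.add 1 1
    rw [one_mul] at h
    have h1 : R 1 = 0 := by omega
    rw [h1]
    rfl
  map_mul' D E := by
    rw [hR.add]
    rfl

theorem rHom_apply {R : Cart X → ℤ} (hR : RFun R) (D : Cart X) :
    Multiplicative.toAdd (rHom hR D) = R D := rfl

theorem rfun_one {R : Cart X → ℤ} (hR : RFun R) : R 1 = 0 := by
  rw [← rHom_apply hR, map_one]
  rfl

theorem rfun_inv {R : Cart X → ℤ} (hR : RFun R) (D : Cart X) : R D⁻¹ = - R D := by
  rw [← rHom_apply hR, ← rHom_apply hR, map_inv, toAdd_inv]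

theorem rfun_zpow {R : Cart X → ℤ} (hR : RFun R) (D : Cart X) (n : ℤ) : R (D ^ n) = n * R D := by
  rw [← rHom_apply hR, ← rHom_apply hR, map_zpow, toAdd_zpow, smul_eq_mul]

theorem rfun_lin (h : Hyp X) {ν : Cart X →* Multiplicative (Fin 2 → ℤ)} (hν : Num ν) {R : Cart X → ℤ}
    (hR : RFun R) : ∃ x : (Fin 2 → ℝ) →ₗ[ℝ] ℝ, ∀ D, x (cv ν D) = R D := by
  obtain ⟨B, hB⟩ := cv_surj hν (Pi.single 0 1)
  obtain ⟨C, hC⟩ := cv_surj hν (Pi.single 1 1)
  let x : (Fin 2 → ℝ) →ₗ[ℝ] ℝ :=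
    (R B : ℝ) • LinearMap.proj 0 + (R C : ℝ) • LinearMap.proj 1
  refine ⟨x, fun D => ?_⟩
  obtain ⟨s, hs⟩ := cv_int ν D
  have h1 : cv ν (B ^ s 0 * C ^ s 1) = cv ν D := by
    rw [cv_mul, cv_zpow, cv_zpow, hB, hC, hs]
    funext i
    fin_cases i <;> simp
  have h2 : cv ν (D * (B ^ s 0 * C ^ s 1)⁻¹) = 0 := by
    rw [cv_mul, cv_inv, h1, add_neg_cancel]
  have h3 := rfun_numz h R hR _ ((cv_eq_zero hν _).1 h2)
  rw [hR.add, rfun_inv hR, hR.add, rfun_zpow hR, rfun_zpow hR] at h3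
  have h4 : R D = s 0 * R B + s 1 * R C := by linarith
  show (R B : ℝ) * cv ν D 0 + (R C : ℝ) * cv ν D 1 = (R D : ℝ)
  rw [hs, h4]
  push_cast
  ring

end Pool.Agent.H83.TU
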