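import Pool.Agent.H83.TU.UA

/-!
# [H83 TU UB] Theorem U: sections which do not vanish at finitely many points

`avoid`: `V` a `k`-subspace of `K`, `T` a finite set of points, `e x ∈ K` with `s * e x ∈ O x` for all `s ∈ V`, `x ∈ T`; if for every `x ∈ T` there is `s ∈ V` with `Un (O x) (s * e x)`, then there is one `s ∈ V` which works for all `x ∈ T`.
PROOF.  For `x ∈ T` the set `V_x = {s ∈ V | ¬ Un (O x) (s * e x)}` is a `k`-subspace of `V`: `s * e x` is in the maximal ideal of the local ring `O x` (`un_iff`: `s * e x ∈ O x` is a unit iff `Un`; the non-units of a local ring are closed under addition (`un_add`) and under multiplication by scalars), and `V_x ≠ V`.  An infinite field: a vector space is not a finite union of proper subspaces (`Subspace.biUnion_ne_univ_of_top_notMem` or `Subspace.top_mem_of_biUnion_eq_univ`, `Mathlib/GroupTheory/CosetCover.lean`), `k` is infinite (`CharZero`).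

`un_all : UN X` and `uf_all : UF X` (for `IsVar X`): take `m₀` the sum (or supremum) over `x ∈ T` of the bounds of `un_pt`, `uf_pt`; apply `avoid` to `V = secL (A ^ m * M) 1`, `e x = (A ^ m * M).eq x ^ 1`, and to `V = {s ∈ secL A m | s * f ∈ secL A m}` (a subspace), `e x = A.eq x ^ m`.  For `T` empty take `s = 0`.
-/

set_option autoImplicit false

namespace Pool.Agent.H83.TU

open Pool.Agent.H54.RV

variable {k K : Type} [Field k] [Field K] [Algebra k K] [CharZero k] {X : Mod k K}

theorem avoid (V : Submodule k K) (T : Finset X.P) (e : X.P → K) (hV : ∀ s ∈ V, ∀ x ∈ T, s * e x ∈ X.O x)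
    (h : ∀ x ∈ T, ∃ s ∈ V, Un (X.O x) (s * e x)) : ∃ s ∈ V, ∀ x ∈ T, Un (X.O x) (s * e x) := by
  classical
  have hinf : Infinite k := Infinite.of_injective (Nat.cast : ℕ → k) Nat.cast_injective
  let W : T → Submodule k V := fun x =>
    { carrier := {s | ¬ Un (X.O (x : X.P)) ((s : K) * e x)}
      zero_mem' := by
        show ¬ Un (X.O (x : X.P)) (((0 : V) : K) * e x)
        rw [Submodule.coe_zero, zero_mul]
        exact fun hh => hh.1 rfl
      add_mem' := by
        intro a b ha hb hab
        have h1 : Un (X.O (x : X.P)) ((a : K) * e x + (b : K) * e x) := by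
          have h2 : (a : K) * e x + (b : K) * e x = ((a + b : V) : K) * e x := by
            rw [Submodule.coe_add, add_mul]
          rw [h2]
          exact hab
        rcases un_add (hV a a.2 x x.2) (hV b b.2 x x.2) h1 with h3 | h3
        · exact ha h3
        · exact hb h3
      smul_mem' := by
        intro c a ha hca
        have h1 : ((c • a : V) : K) * e x = algebraMap k K c * ((a : K) * e x) := by
          rw [Submodule.coe_smul, Algebra.smul_def, mul_assoc]
        have h2 : Un (X.O (x : X.P)) (algebraMap k K c * ((a : K) * e x)) := by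
          rw [← h1]
          exact hca
        exact ha ((un_mul_iff ((X.O (x : X.P)).algebraMap_mem c) (hV a a.2 x x.2)).1 h2).2 }
  by_contra hcon
  have hcov : ⋃ x : T, ((W x : Submodule k V) : Set V) = Set.univ := by
    rw [Set.eq_univ_iff_forall]
    intro s
    by_contra hs
    apply hcon
    refine ⟨s, s.2, fun x hx => ?_⟩
    by_contra hu
    apply hs
    rw [Set.mem_iUnion]
    exact ⟨⟨x, hx⟩, hu⟩
  obtain ⟨x, hx⟩ := Subspace.exists_eq_top_of_iUnion_eq_univ hcov
  obtain ⟨s, hs, hu⟩ := h x x.2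
  have h1 : (⟨s, hs⟩ : V) ∈ W x := by
    rw [hx]
    exact Submodule.mem_top
  exact h1 hu

theorem un_all (hX : IsVar X) : UN X := by
  classical
  intro A M T hA
  choose m₀ hm₀ using fun x : X.P => un_pt hX A M hA x
  refine ⟨∑ x ∈ T, m₀ x, fun m hm => ?_⟩
  obtain ⟨s, hs, hu⟩ := avoid (X := X) (secL (A ^ m * M) 1) T (fun x => (A ^ m * M).eq x ^ 1)
    (fun s hs x _ => hs x) (fun x hx => by
      obtain ⟨s, hs, hu⟩ := hm₀ x m ((Finset.single_le_sum (fun y _ => Nat.zero_le (m₀ y)) hx).trans hm)
      exact ⟨s, hs, hu⟩)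
  exact ⟨s, hs, hu⟩

theorem uf_all (hX : IsVar X) : UF X := by
  classical
  intro A T f hA hf
  have h0 : ∀ x : X.P, ∃ m₀ : ℕ, x ∈ T → ∀ m ≥ m₀, ∃ s : K, Sec A m s ∧ Sec A m (s * f) ∧ x ∈ nz A m s := by
    intro x
    by_cases hx : x ∈ T
    · obtain ⟨m₀, h1⟩ := uf_pt hX A hA x f (hf x hx)
      exact ⟨m₀, fun _ => h1⟩
    · exact ⟨0, fun h1 => absurd h1 hx⟩
  choose m₀ hm₀ using h0
  refine ⟨∑ x ∈ T, m₀ x, fun m hm => ?_⟩
  let V : Submodule k K :=
    { carrier := {s | Sec A m s ∧ Sec A m (s * f)}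
      zero_mem' := ⟨(secL A m).zero_mem, by
        rw [zero_mul]
        exact (secL A m).zero_mem⟩
      add_mem' := fun {a b} ha hb => ⟨(secL A m).add_mem ha.1 hb.1, by
        rw [add_mul]
        exact (secL A m).add_mem ha.2 hb.2⟩
      smul_mem' := fun c a ha => ⟨(secL A m).smul_mem c ha.1, by
        rw [Algebra.smul_mul_assoc]
        exact (secL A m).smul_mem c ha.2⟩ }
  obtain ⟨s, hs, hu⟩ := avoid (X := X) V T (fun x => A.eq x ^ m)
    (fun s hs x _ => hs.1 x) (fun x hx => by
      obtain ⟨s, hs, hs2, hu⟩ :=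
        hm₀ x hx m ((Finset.single_le_sum (fun y _ => Nat.zero_le (m₀ y)) hx).trans hm)
      exact ⟨s, ⟨hs, hs2⟩, hu⟩)
  exact ⟨s, hs.1, hs.2, hu⟩

end Pool.Agent.H83.TU
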