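import Pool.Agent.H83.TU.CI1
import Pool.Agent.H83.TU.CF
import Pool.Agent.H83.TU.QV
import Pool.Agent.H83.TU.RX
import Pool.Agent.H83.TU.UB
import Pool.Agent.H83.TU.HB

/-!
# Theorem U: clause (II) and the final assembly
-/

set_option autoImplicit false

namespace Pool.Agent.H83.TU

open Pool.Agent.H57.KM Pool.Agent.H54.RV Pool.Agent.H39.TU

variable {k K : Type} [Field k] [Field K] [Algebra k K] [IsAlgClosed k] [CharZero k] {X : Mod k K}

/-- clause (II): the hypotheses on `ξ` are the theorem of Riemann-Roch, the vanishing theorem of Kodaira and the theorem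
of Miyaoka for the second Chern class, if the canonical class is numerically trivial; the hypothesis on the big boundary
classes is the theorem of Kawamata -/
theorem clauseII (h : Hyp X) (hsm : ∀ x, SmP X x) (Γ : Subgroup (MAut X))
    (ν : Cart X →* Multiplicative (Fin 2 → ℤ)) (hν : Num ν) (ho : IsOpen (AmpV ν)) (hAC : AC ν)
    (ξ : V 2 →ₗ[ℝ] ℝ) (hξ : ξ ≠ 0) (hq : ∀ s : Fin 2 → ℤ, ∃ q : ℚ, ξ (toR s) = q)
    (hp : ∀ D : Cart X, Ample D → 0 ≤ ξ (cv ν D))
    (hv : ∀ D : Cart X, Ample D → vol D + ξ (cv ν D) ≤ h0 D 1)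
    (hbig : ∀ p ∈ interior (EffV ν), p ∈ closure (AmpV ν) → p ∉ AmpV ν →
      ∃ (t : ℝ) (s : Fin 2 → ℤ), t ≠ 0 ∧ t • p = toR s) :
    (∃ u w : Fin 2 → ℤ, closure (AmpV ν) = {v | ∃ a c : ℝ, 0 ≤ a ∧ 0 ≤ c ∧ v = a • toR u + c • toR w}) ∧
      FundV (autN Γ ν) (closure (AmpV ν)) ∧
      (FundV (autN Γ ν) (closure (AmpV ν) ∩ EffV ν) ↔ closure (AmpV ν) ⊆ EffV ν) := by
  have hne : (AmpV ν).Nonempty := by
    obtain ⟨A, hA⟩ := h.amp
    exact ⟨cv ν A, ampV_cv ν A hA⟩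
  -- the functional `R`
  obtain ⟨F, hF⟩ := exists_F0 h
  have hR := rfun_rf h.var h.gen (uf_all h.var) F hF
  obtain ⟨x, hx⟩ := rfun_lin h hν hR
  have hpt : ∀ v, v ∈ closure (AmpV ν) → -v ∈ closure (AmpV ν) → v = 0 :=
    fun v h1 h2 => nefV_pointed h hν ho hAC _ hR x hx v h1 h2
  have hpos : ∀ v ∈ AmpV ν, 0 ≤ ξ v := by
    rintro _ ⟨m, c, D, hc, hD, rfl⟩
    rw [map_sum]
    refine Finset.sum_nonneg fun i _ => ?_
    rw [map_smul]
    exact mul_nonneg (hc i).le (hp _ (hD i))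
  obtain ⟨u, w, huw⟩ := nef_rat ν ho hne hpt ξ hξ hq hpos hbig (by
    intro p h1 h2 h3 h4
    obtain ⟨D, hD, -, h5⟩ := (clauseI h hsm ν hν p h1 h2 h3).2 ξ h4 Set.univ isOpen_univ (Set.mem_univ _)
    exact absurd (hv D hD) (not_le.2 h5))
  have hint : (interior (closure (AmpV ν))).Nonempty := by
    obtain ⟨a, ha⟩ := hne
    exact ⟨a, interior_mono subset_closure (by rwa [ho.interior_eq])⟩
  refine ⟨⟨u, w, huw⟩, fund_plane _ _ u w huw hint fun g hg v hv => autN_nef Γ ν g hg v hv, ?_⟩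
  refine q1_plane _ _ _ u w huw hint (fun g hg v hv => autN_nef Γ ν g hg v hv) ?_
  have h1 : interior (closure (AmpV ν)) = AmpV ν := by
    rw [(ampV_conv (ν := ν)).interior_closure_eq_interior_of_nonempty_interior, ho.interior_eq]
    rwa [ho.interior_eq]
  rw [h1]
  exact ampV_effV h.var hν

end Pool.Agent.H83.TU
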