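import Pool.Agent.H83.TU.NV

/-!
# [H83 TU CC] Theorem U: pointed plane cones

* `cone_two`: let `A ⊆ ℝ²` be a nonempty open convex cone whose closure contains no line.  Then there are `p, q ≠ 0` in the closure, not in `A`, with closure `{a p + c q | a, c ≥ 0}`.
PROOF.  `C = closure A` is a closed convex cone.  There is a linear form `ℓ` which is positive on `C - {0}` (a closed pointed convex cone in finite dimension; in the plane: take `ℓ` in the interior of the dual cone, or: the set `C ∩ {|v| = 1}` is compact, its convex hull does not contain `0` by pointedness, separate `0` from it with `geometric_hahn_banach_point_compact`/`_closed_...`).  Choose `v₀ ∈ A` with `ℓ v₀ = 1` and `d ≠ 0` with `ℓ d = 0`.  `T = {t : ℝ | v₀ + t d ∈ C}` is closed, convex and bounded (`C ∩ {ℓ = 1}` is bounded: otherwise a limit of normalised elements is a nonzero element of `C` with `ℓ = 0`), and contains a neighbourhood of `0` (`A` is open),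 so `T = [t₁, t₂]` with `t₁ < 0 < t₂` (`IsCompact`, `sInf`, `sSup`, `OrdConnected`).  `p = v₀ + t₁ d`, `q = v₀ + t₂ d`: in `C`, not `0`, not in `A` (`A` is open: `t₁ - ε` would be in `T`).  Every `v ∈ C`, `v ≠ 0`, is `ℓ(v)` times an element of `C ∩ {ℓ = 1}`, that is `v₀ + t d` with `t ∈ [t₁, t₂]` (the kernel of `ℓ` is the line of `d`: dimension 2), a convex combination of `p` and `q`.  The other inclusion is clear.
* `nefV_pointed`: the closure of `AmpV ν` contains no line.  Hypotheses: `AmpV ν` open, `AC ν` (classes in the ample cone are ample), an `RFun R` with `R D = x (cv ν D)` for a linear form `x`.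
PROOF.  Let `v, -v ∈ C = closure (AmpV ν)`, `v ≠ 0`.  `AmpV ν + C ⊆ AmpV ν` (`a + c`, `a` in the open convex cone, `c` in its closure: `a + c` is the sum of `a - (c' - c) ∈ AmpV ν` and `c' ∈ AmpV ν` near `c`).  So for `A` ample and all real `t`: `cv A + t v ∈ AmpV ν`, `x (cv A) + t x(v) > 0` (`x > 0` on `AmpV ν` as `R > 0` on ample divisors), so `x v = 0`.  `x` has integral coefficients (`x (cv D) = R D ∈ ℤ`; `cv_surj`: `x e_i ∈ ℤ`) and is not `0`, so its kernel is the line of a nonzero integral vector `s` (`s = (x_1, -x_0)`), `v = r s`, `r ≠ 0`.  `cv_surj`: `B` with `cv B = s`.  For every ample `A'`, `cv (A' * B) = cv A' + (1/r) v ∈ AmpV ν` and `cv (A' * B⁻¹) ∈ AmpV ν`: both are ample (`AC ν`): `NumZ B`, so `cv B = 0` (`cv_eq_zero`): a contradiction.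
-/

set_option autoImplicit false

namespace Pool.Agent.H83.TU

open Pool.Agent.H54.RV

private theorem cl_add {A : Set (Fin 2 → ℝ)} (hadd : ∀ v ∈ A, ∀ w ∈ A, v + w ∈ A) {v w : Fin 2 → ℝ}
    (hv : v ∈ closure A) (hw : w ∈ closure A) : v + w ∈ closure A :=
  map_mem_closure₂ continuous_add hv hw hadd

private theorem cl_smul {A : Set (Fin 2 → ℝ)} (hsm : ∀ c : ℝ, 0 < c → ∀ v ∈ A, c • v ∈ A) {c : ℝ} (hc : 0 < c)
    {v : Fin 2 → ℝ} (hv : v ∈ closure A) : c • v ∈ closure A :=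
  map_mem_closure (continuous_const_smul c) hv (hsm c hc)

private theorem cl_zero {A : Set (Fin 2 → ℝ)} (hne : A.Nonempty) (hsm : ∀ c : ℝ, 0 < c → ∀ v ∈ A, c • v ∈ A) :
    (0 : Fin 2 → ℝ) ∈ closure A := by
  obtain ⟨v, hv⟩ := hne
  have h1 : Filter.Tendsto (fun n : ℕ => (1 / ((n : ℝ) + 1)) • v) Filter.atTop (nhds ((0 : ℝ) • v)) :=
    tendsto_one_div_add_atTop_nhds_zero_nat.smul_const v
  rw [zero_smul] at h1
  exact mem_closure_of_tendsto h1 (Filter.Eventually.of_forall fun n => hsm _ (by positivity) v hv)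

private theorem cl_smul' {A : Set (Fin 2 → ℝ)} (hne : A.Nonempty) (hsm : ∀ c : ℝ, 0 < c → ∀ v ∈ A, c • v ∈ A) {c : ℝ}
    (hc : 0 ≤ c) {v : Fin 2 → ℝ} (hv : v ∈ closure A) : c • v ∈ closure A := by
  rcases hc.eq_or_lt with h | h
  · rw [← h, zero_smul]
    exact cl_zero hne hsm
  · exact cl_smul hsm h hv

private theorem add_cl {A : Set (Fin 2 → ℝ)} (ho : IsOpen A) (hadd : ∀ v ∈ A, ∀ w ∈ A, v + w ∈ A) {a c : Fin 2 → ℝ}
    (ha : a ∈ A) (hc : c ∈ closure A) : a + c ∈ A := by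
  have h1 : IsOpen {c' : Fin 2 → ℝ | a + (c - c') ∈ A} := ho.preimage (by fun_prop)
  obtain ⟨c', h2, h3⟩ := mem_closure_iff.1 hc _ h1 (by
    show a + (c - c) ∈ A
    rwa [sub_self, add_zero])
  have h4 := hadd _ h2 _ h3
  have h5 : a + (c - c') + c' = a + c := by abel
  rwa [h5] at h4

private theorem lin2 (f : (Fin 2 → ℝ) →ₗ[ℝ] ℝ) (v : Fin 2 → ℝ) :
    f v = v 0 * f (Pi.single 0 1) + v 1 * f (Pi.single 1 1) := by
  have h : v = v 0 • Pi.single 0 1 + v 1 • Pi.single 1 1 := by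
    funext i
    fin_cases i <;> simp
  conv_lhs => rw [h]
  rw [map_add, map_smul, map_smul, smul_eq_mul, smul_eq_mul]

/-- the kernel of a nonzero linear form -/
private theorem ker2 (m n : ℝ) (hmn : m ≠ 0 ∨ n ≠ 0) (v : Fin 2 → ℝ) (h : v 0 * m + v 1 * n = 0) :
    ∃ t : ℝ, v = t • ![n, -m] := by
  have hs : m ^ 2 + n ^ 2 ≠ 0 := by
    rcases hmn with h1 | h1
    · have : 0 < m ^ 2 := by positivity
      nlinarith [sq_nonneg n]
    · have : 0 < n ^ 2 := by positivity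
      nlinarith [sq_nonneg m]
  refine ⟨(v 0 * n - v 1 * m) / (m ^ 2 + n ^ 2), ?_⟩
  funext i
  fin_cases i
  · show v 0 = (v 0 * n - v 1 * m) / (m ^ 2 + n ^ 2) * n
    rw [div_mul_eq_mul_div, eq_div_iff hs]
    linear_combination m * h
  · show v 1 = (v 0 * n - v 1 * m) / (m ^ 2 + n ^ 2) * -m
    rw [div_mul_eq_mul_div, eq_div_iff hs]
    linear_combination n * h

/-- a linear form which is positive on a closed pointed cone -/
private theorem form {C : Set (Fin 2 → ℝ)} (hcl : IsClosed C) (hadd : ∀ v ∈ C, ∀ w ∈ C, v + w ∈ C)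
    (hsm : ∀ c : ℝ, 0 ≤ c → ∀ v ∈ C, c • v ∈ C) (hpt : ∀ v, v ∈ C → -v ∈ C → v = 0) :
    ∃ (f : (Fin 2 → ℝ) →L[ℝ] ℝ) (u : ℝ), 0 < u ∧ ∀ v ∈ C, u * ‖v‖ ≤ f v := by
  have hconv : Convex ℝ C := by
    intro v hv w hw a b ha hb _
    exact hadd _ (hsm a ha v hv) _ (hsm b hb w hw)
  have hS : IsCompact (C ∩ Metric.sphere (0 : Fin 2 → ℝ) 1) := (isCompact_sphere 0 1).inter_left hcl
  have h1 : ∀ s ∈ C ∩ Metric.sphere (0 : Fin 2 → ℝ) 1, ∃ g : (Fin 2 → ℝ) →L[ℝ] ℝ, (∀ v ∈ C, 0 ≤ g v) ∧ 0 < g s := by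
    rintro s ⟨hs, hs1⟩
    have hs0 : s ≠ 0 := by
      rintro rfl
      rw [mem_sphere_zero_iff_norm, norm_zero] at hs1
      exact zero_ne_one hs1
    have hns : -s ∉ C := fun h => hs0 (hpt s hs h)
    obtain ⟨g, u, hgu, hg⟩ := geometric_hahn_banach_point_closed hconv hcl hns
    have hu : u < 0 := by
      have := hg _ (hsm 0 le_rfl s hs)
      rwa [zero_smul, map_zero] at this
    refine ⟨g, fun v hv => ?_, ?_⟩
    · by_contra hneg
      rw [not_le] at hneg
      have h2 := hg _ (hsm (u / g v) (div_nonneg_of_nonpos hu.le hneg.le) v hv)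
      rw [map_smul, smul_eq_mul, div_mul_cancel₀ _ hneg.ne] at h2
      exact lt_irrefl _ h2
    · rw [map_neg] at hgu
      linarith
  choose! g hg0 hg1 using h1
  obtain ⟨t, ht, hcov⟩ := hS.elim_nhds_subcover (fun s => {v | 0 < g s v}) (fun s hs =>
    (isOpen_lt continuous_const (g s).continuous).mem_nhds (hg1 s hs))
  obtain ⟨f, hf⟩ : ∃ f : (Fin 2 → ℝ) →L[ℝ] ℝ, f = ∑ s ∈ t, g s := ⟨_, rfl⟩
  have hfs : ∀ v, f v = ∑ s ∈ t, g s v := by
    intro v
    rw [hf]
    exact sum_apply _ _ _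
  have hfpos : ∀ v ∈ C ∩ Metric.sphere (0 : Fin 2 → ℝ) 1, 0 < f v := by
    intro v hv
    rw [hfs]
    obtain ⟨s, hs, hsv⟩ := Set.mem_iUnion₂.1 (hcov hv)
    exact Finset.sum_pos' (fun r hr => hg0 r (ht r hr) v hv.1) ⟨s, hs, hsv⟩
  obtain ⟨u, hu, hfu⟩ : ∃ u : ℝ, 0 < u ∧ ∀ v ∈ C ∩ Metric.sphere (0 : Fin 2 → ℝ) 1, u ≤ f v := by
    rcases (C ∩ Metric.sphere (0 : Fin 2 → ℝ) 1).eq_empty_or_nonempty with h | h
    · exact ⟨1, one_pos, fun v hv => by rw [h] at hv; exact hv.elim⟩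
    · obtain ⟨w, hw, hmin⟩ := hS.exists_isMinOn h f.continuous.continuousOn
      exact ⟨f w, hfpos w hw, fun v hv => hmin hv⟩
  refine ⟨f, u, hu, fun v hv => ?_⟩
  by_cases hv0 : v = 0
  · rw [hv0, norm_zero, mul_zero, map_zero]
  have hn : 0 < ‖v‖ := norm_pos_iff.2 hv0
  have h1 : (‖v‖⁻¹ • v) ∈ C ∩ Metric.sphere (0 : Fin 2 → ℝ) 1 := by
    refine ⟨hsm _ (by positivity) v hv, ?_⟩
    rw [mem_sphere_zero_iff_norm, norm_smul, norm_inv, norm_norm, inv_mul_cancel₀ hn.ne']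
  have h2 := hfu _ h1
  rwa [map_smul, smul_eq_mul, inv_mul_eq_div, le_div_iff₀ hn] at h2

theorem cone_two (A : Set (Fin 2 → ℝ)) (ho : IsOpen A) (hne : A.Nonempty)
    (hadd : ∀ v ∈ A, ∀ w ∈ A, v + w ∈ A) (hsm : ∀ c : ℝ, 0 < c → ∀ v ∈ A, c • v ∈ A)
    (hpt : ∀ v, v ∈ closure A → -v ∈ closure A → v = 0) :
    ∃ p q : Fin 2 → ℝ, p ≠ 0 ∧ q ≠ 0 ∧ p ∈ closure A ∧ q ∈ closure A ∧ p ∉ A ∧ q ∉ A ∧
      closure A = {v | ∃ a c : ℝ, 0 ≤ a ∧ 0 ≤ c ∧ v = a • p + c • q} := by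
  obtain ⟨f, u, hu, hf⟩ := form isClosed_closure (fun v hv w hw => cl_add hadd hv hw)
    (fun c hc v hv => cl_smul' hne hsm hc hv) hpt
  obtain ⟨a0, ha0⟩ := hne
  have hne : A.Nonempty := ⟨a0, ha0⟩
  -- a point of `A` is not zero
  have hn0 : ∀ a ∈ A, a ≠ 0 := by
    rintro a ha rfl
    -- `A` is a neighbourhood of `0`, so everything is in the closure
    have h1 : ∀ v : Fin 2 → ℝ, v ∈ closure A := by
      intro v
      have h2 : Filter.Tendsto (fun n : ℕ => (1 / ((n : ℝ) + 1)) • v) Filter.atTop (nhds ((0 : ℝ) • v)) :=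
        tendsto_one_div_add_atTop_nhds_zero_nat.smul_const v
      rw [zero_smul] at h2
      obtain ⟨n, hn⟩ := (h2.eventually (ho.mem_nhds ha)).exists
      have h3 := hsm ((n : ℝ) + 1) (by positivity) _ hn
      rw [smul_smul, mul_one_div_cancel (by positivity), one_smul] at h3
      exact subset_closure h3
    have h4 := hpt (fun _ => 1) (h1 _) (h1 _)
    have h5 := congrFun h4 0
    simp at h5
  have hfa : 0 < f a0 := lt_of_lt_of_le (mul_pos hu (norm_pos_iff.2 (hn0 a0 ha0))) (hf a0 (subset_closure ha0))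
  obtain ⟨v0, hv0⟩ : ∃ v0 : Fin 2 → ℝ, v0 = (f a0)⁻¹ • a0 := ⟨_, rfl⟩
  have hv0A : v0 ∈ A := by rw [hv0]; exact hsm _ (by positivity) a0 ha0
  have hfv0 : f v0 = 1 := by rw [hv0, map_smul, smul_eq_mul, inv_mul_cancel₀ hfa.ne']
  obtain ⟨m, hm⟩ : ∃ m : ℝ, m = f (Pi.single 0 1) := ⟨_, rfl⟩
  obtain ⟨n, hn⟩ : ∃ n : ℝ, n = f (Pi.single 1 1) := ⟨_, rfl⟩
  have hfl : ∀ v : Fin 2 → ℝ, f v = v 0 * m + v 1 * n := by
    intro v
    rw [hm, hn]
    exact lin2 f.toLinearMap v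
  have hmn : m ≠ 0 ∨ n ≠ 0 := by
    by_contra h
    push Not at h
    have h1 := hfl v0
    rw [h.1, h.2, hfv0] at h1
    simp at h1
  obtain ⟨e, he⟩ : ∃ e : Fin 2 → ℝ, e = ![n, -m] := ⟨_, rfl⟩
  have he0 : e ≠ 0 := by
    intro h
    rw [he] at h
    have h1 := congrFun h 0
    have h2 := congrFun h 1
    simp at h1 h2
    rcases hmn with h3 | h3
    · exact h3 h2
    · exact h3 h1
  have hfe : f e = 0 := by
    rw [hfl, he]
    show n * m + -m * n = 0
    ring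
  have hker : ∀ v : Fin 2 → ℝ, f v = 0 → ∃ t : ℝ, v = t • e := by
    intro v hv
    rw [hfl] at hv
    rw [he]
    exact ker2 m n hmn v hv
  obtain ⟨T, hT⟩ : ∃ T : Set ℝ, T = {t : ℝ | v0 + t • e ∈ closure A} := ⟨_, rfl⟩
  have hTcl : IsClosed T := by
    rw [hT]
    exact isClosed_closure.preimage (by fun_prop)
  have hen : 0 < ‖e‖ := norm_pos_iff.2 he0
  have hTb : T ⊆ Metric.closedBall 0 ((1 / u + ‖v0‖) / ‖e‖) := by
    intro t ht
    rw [hT] at ht
    have h1 := hf _ ht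
    rw [map_add, map_smul, hfv0, hfe, smul_zero, add_zero] at h1
    have h2 : ‖v0 + t • e‖ ≤ 1 / u := by
      rw [le_div_iff₀ hu]
      linarith
    have h3 : ‖t • e‖ ≤ 1 / u + ‖v0‖ := by
      have h4 := norm_sub_le (v0 + t • e) v0
      rw [add_sub_cancel_left] at h4
      linarith
    rw [norm_smul] at h3
    rw [Metric.mem_closedBall, dist_zero_right, le_div_iff₀ hen]
    exact h3
  have hTc : IsCompact T := (isCompact_closedBall (0 : ℝ) _).of_isClosed_subset hTcl hTb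
  have hopen : ∀ t : ℝ, v0 + t • e ∈ A → ∃ ε : ℝ, 0 < ε ∧ t + ε ∈ T ∧ t - ε ∈ T := by
    intro t ht
    have h1 : IsOpen {r : ℝ | v0 + r • e ∈ A} := ho.preimage (by fun_prop)
    obtain ⟨ε, hε, h2⟩ := Metric.isOpen_iff.1 h1 t ht
    refine ⟨ε / 2, by positivity, ?_, ?_⟩
    · rw [hT]
      refine subset_closure (h2 ?_)
      rw [Metric.mem_ball, Real.dist_eq, add_sub_cancel_left, abs_of_pos (by positivity)]
      linarith
    · rw [hT]
      refine subset_closure (h2 ?_)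
      rw [Metric.mem_ball, Real.dist_eq, abs_sub_comm, sub_sub_cancel, abs_of_pos (by positivity)]
      linarith
  obtain ⟨ε, hε, hε1, hε2⟩ := hopen 0 (by rw [zero_smul, add_zero]; exact hv0A)
  have hTne : T.Nonempty := ⟨_, hε1⟩
  have h1T := hTc.sInf_mem hTne
  have h2T := hTc.sSup_mem hTne
  have hlow : ∀ t ∈ T, sInf T ≤ t := fun t ht => csInf_le hTc.bddBelow ht
  have hupp : ∀ t ∈ T, t ≤ sSup T := fun t ht => le_csSup hTc.bddAbove ht
  obtain ⟨t1, ht1⟩ : ∃ t1 : ℝ, t1 = sInf T := ⟨_, rfl⟩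
  obtain ⟨t2, ht2⟩ : ∃ t2 : ℝ, t2 = sSup T := ⟨_, rfl⟩
  rw [← ht1] at h1T hlow
  rw [← ht2] at h2T hupp
  have h12 : t1 < t2 := by
    have := hlow _ hε2
    have := hupp _ hε1
    linarith
  have hp1 : v0 + t1 • e ∈ closure A := by rw [hT] at h1T; exact h1T
  have hq1 : v0 + t2 • e ∈ closure A := by rw [hT] at h2T; exact h2T
  have hval : ∀ t : ℝ, f (v0 + t • e) = 1 := by
    intro t
    rw [map_add, map_smul, hfv0, hfe, smul_zero, add_zero]
  refine ⟨v0 + t1 • e, v0 + t2 • e, ?_, ?_, hp1, hq1, ?_, ?_, ?_⟩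
  · intro h
    have := hval t1
    rw [h, map_zero] at this
    exact zero_ne_one this
  · intro h
    have := hval t2
    rw [h, map_zero] at this
    exact zero_ne_one this
  · intro h
    obtain ⟨ε', h1, -, h2⟩ := hopen t1 h
    have := hlow _ h2
    linarith
  · intro h
    obtain ⟨ε', h1, h2, -⟩ := hopen t2 h
    have := hupp _ h2
    linarith
  · ext v
    constructor
    · intro hv
      by_cases hv0' : v = 0
      · exact ⟨0, 0, le_rfl, le_rfl, by rw [hv0', zero_smul, zero_smul, add_zero]⟩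
      have hfv : 0 < f v := lt_of_lt_of_le (mul_pos hu (norm_pos_iff.2 hv0')) (hf v hv)
      have h1 : f ((f v)⁻¹ • v - v0) = 0 := by
        rw [map_sub, map_smul, hfv0, smul_eq_mul, inv_mul_cancel₀ hfv.ne', sub_self]
      obtain ⟨t, ht⟩ := hker _ h1
      have h2 : (f v)⁻¹ • v = v0 + t • e := by rw [← ht]; abel
      have htT : t ∈ T := by
        rw [hT]
        show v0 + t • e ∈ closure A
        rw [← h2]
        exact cl_smul hsm (by positivity) hv
      have h3 := hlow t htT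
      have h4 := hupp t htT
      have h5 : 0 < t2 - t1 := by linarith
      refine ⟨f v * ((t2 - t) / (t2 - t1)), f v * ((t - t1) / (t2 - t1)),
        mul_nonneg hfv.le (div_nonneg (by linarith) h5.le), mul_nonneg hfv.le (div_nonneg (by linarith) h5.le), ?_⟩
      have h6 : v = f v • (v0 + t • e) := by
        rw [← h2, smul_smul, mul_inv_cancel₀ hfv.ne', one_smul]
      have h7 : (t2 - t) / (t2 - t1) + (t - t1) / (t2 - t1) = 1 := by
        rw [← add_div, div_eq_one_iff_eq h5.ne']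
        ring
      have h8 : (t2 - t) / (t2 - t1) * t1 + (t - t1) / (t2 - t1) * t2 = t := by
        rw [div_mul_eq_mul_div, div_mul_eq_mul_div, ← add_div, div_eq_iff h5.ne']
        ring
      conv_lhs => rw [h6]
      rw [mul_smul, mul_smul, ← smul_add]
      congr 1
      rw [smul_add, smul_add, smul_smul, smul_smul]
      generalize (t2 - t) / (t2 - t1) = α at h7 h8 ⊢
      generalize (t - t1) / (t2 - t1) = β at h7 h8 ⊢
      have h9 : α • v0 + (α * t1) • e + (β • v0 + (β * t2) • e) = (α + β) • v0 + (α * t1 + β * t2) • e := by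
        rw [add_smul, add_smul]
        abel
      rw [h9, h7, h8, one_smul]
    · rintro ⟨a, c, ha, hc, rfl⟩
      exact cl_add hadd (cl_smul' hne hsm ha hp1) (cl_smul' hne hsm hc hq1)

variable {k K : Type} [Field k] [Field K] [Algebra k K] {X : Mod k K}

theorem nefV_pointed (h : Hyp X) {ν : Cart X →* Multiplicative (Fin 2 → ℤ)} (hν : Num ν) (ho : IsOpen (AmpV ν))
    (hAC : AC ν) (R : Cart X → ℤ) (hR : RFun R) (x : (Fin 2 → ℝ) →ₗ[ℝ] ℝ) (hx : ∀ D, x (cv ν D) = R D)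
    (v : Fin 2 → ℝ) (h1 : v ∈ closure (AmpV ν)) (h2 : -v ∈ closure (AmpV ν)) : v = 0 := by
  by_contra hv0
  obtain ⟨A, hA⟩ := h.amp
  have hAV := ampV_cv ν A hA
  have hadd : ∀ v ∈ AmpV ν, ∀ w ∈ AmpV ν, v + w ∈ AmpV ν := fun v hv w hw => ampV_add hv hw
  have hsm : ∀ c : ℝ, 0 < c → ∀ v ∈ AmpV ν, c • v ∈ AmpV ν := fun c hc v hv => ampV_smul hc hv
  have hxpos : ∀ w ∈ AmpV ν, 0 < x w := by
    rintro _ ⟨m, c, D, hc, hD, rfl⟩
    rw [map_sum]
    refine Finset.sum_pos (fun i _ => ?_) ⟨0, Finset.mem_univ _⟩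
    rw [map_smul, smul_eq_mul, hx]
    exact mul_pos (hc i) (by exact_mod_cast hR.amp _ (hD i))
  have key : ∀ a ∈ AmpV ν, ∀ t : ℝ, a + t • v ∈ AmpV ν := by
    intro a ha t
    rcases lt_trichotomy t 0 with ht | ht | ht
    · have h3 : t • v = (-t) • (-v) := by rw [smul_neg, neg_smul, neg_neg]
      rw [h3]
      exact add_cl ho hadd ha (cl_smul hsm (by linarith) h2)
    · rw [ht, zero_smul, add_zero]
      exact ha
    · exact add_cl ho hadd ha (cl_smul hsm ht h1)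
  have hxv : x v = 0 := by
    by_contra hne
    have h3 := hxpos _ (key _ hAV (-(x (cv ν A)) / x v))
    rw [map_add, map_smul, smul_eq_mul, div_mul_cancel₀ _ hne] at h3
    linarith
  obtain ⟨D0, hD0⟩ := cv_surj hν (Pi.single 0 1)
  obtain ⟨D1, hD1⟩ := cv_surj hν (Pi.single 1 1)
  have hx0 : x (Pi.single 0 1) = R D0 := by
    rw [← hx, hD0]
    congr 1
    funext i
    fin_cases i <;> simp
  have hx1 : x (Pi.single 1 1) = R D1 := by
    rw [← hx, hD1]
    congr 1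
    funext i
    fin_cases i <;> simp
  have hmn : ((R D0 : ℤ) : ℝ) ≠ 0 ∨ ((R D1 : ℤ) : ℝ) ≠ 0 := by
    by_contra hcon
    push Not at hcon
    have h3 := hxpos _ hAV
    rw [lin2, hx0, hx1, hcon.1, hcon.2, mul_zero, mul_zero, add_zero] at h3
    exact lt_irrefl _ h3
  rw [lin2, hx0, hx1] at hxv
  obtain ⟨r, hr⟩ := ker2 _ _ hmn v hxv
  have hr0 : r ≠ 0 := by
    rintro rfl
    rw [zero_smul] at hr
    exact hv0 hr
  obtain ⟨B, hB⟩ := cv_surj hν ![R D1, -R D0]
  have hB' : cv ν B = r⁻¹ • v := by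
    rw [hB, hr, smul_smul, inv_mul_cancel₀ hr0, one_smul]
    funext i
    fin_cases i <;> simp
  have hBZ : NumZ B := by
    intro A' hA'
    have h3 := ampV_cv ν A' hA'
    constructor
    · refine hAC _ ?_
      rw [cv_mul, hB']
      exact key _ h3 _
    · refine hAC _ ?_
      rw [cv_mul, cv_inv, hB', ← neg_smul]
      exact key _ h3 _
  have h3 := (cv_eq_zero hν B).2 hBZ
  rw [hB'] at h3
  rcases smul_eq_zero.1 h3 with h4 | h4
  · exact hr0 (inv_eq_zero.1 h4)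
  · exact hv0 h4

end Pool.Agent.H83.TU
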