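import Pool.Agent.H83.TU.CI
import Pool.Agent.H83.TU.PA

/-!
# [H83 TU PO] Theorem U: the polar divisor of a function

`polar`: for `ζ ∈ K`, `ζ ≠ 0`, there is an effective Cartier divisor `M` such that `ζ` is a section of `M`, and for every point `x` and `a ∈ O x`: `a * ζ ∈ O x` iff `a / M.eq x ∈ O x` (the local equation generates the ideal of the denominators).  In particular `ζ ∈ O x` iff `M.eq x` is a unit of `O x` (`polar_mem`).

PROOF.  `J x = {a ∈ O x | a * ζ ∈ O x}`.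
(1) It is principal: `K` is the field of fractions of `O x` (`gen_frac`-argument: `ζ ∈ O g = ⊤` for the generic point `g`, `IsVar.chart x`, `gen_mem`, `IsVar.frac`), so `ζ = b / c` with `b, c ∈ O x` nonzero; `O x` is a UFD (`h.ufd x`), so dividing by a greatest common divisor we may assume that `b`, `c` are relatively prime in `O x` (`UniqueFactorizationMonoid.exists_reduced_factors'`, or `IsLocalization`/`IsFractionRing.exists_reduced_fraction`).  `m x = c`: for `a ∈ O x`, `a * ζ ∈ O x` iff `c` divides `a * b` iff `c` divides `a` (`IsRelPrime.dvd_of_dvd_mul_right`, in a UFD / decomposition monoid), iff `a / c ∈ O x`.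
(2) `hz, hadd, hmul, hsub, hm` are clear.  `hcoh`: `a, a * ζ ∈ O x`: `IsVar.frac` twice: `s = s₁ * s₂ ∈ sec U`, `Un (O x) s`, with `a * s, a * ζ * s ∈ sec U`, so `a * s ∈ J y` for all `y ∈ U` (`mem_sec`).
(3) `cart_of` gives `M` with `M.eq = m`.  `1 * M.eq x = m x ∈ J x` so `M` is effective and `ζ * M.eq x ∈ O x`.
(4) `polar_mem`: take `a = 1`: `ζ ∈ O x` iff `1 / M.eq x ∈ O x`.
-/

set_option autoImplicit false

namespace Pool.Agent.H83.TU

open Pool.Agent.H54.RV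

variable {k K : Type} [Field k] [Field K] [Algebra k K] {X : Mod k K}

theorem po_den (h : Hyp X) (ζ : K) (x : X.P) :
    ∃ c ∈ X.O x, c ≠ 0 ∧ c * ζ ∈ X.O x ∧ ∀ a ∈ X.O x, (a * ζ ∈ X.O x ↔ a / c ∈ X.O x) := by
  obtain ⟨U, hU, hx⟩ := h.var.chart x
  obtain ⟨s, hs, hs0, hsζ⟩ := gen_frac h.var h.gen U hU ⟨x, hx⟩ ζ
  have hsx : s ∈ X.O x := (mem_sec U s).1 hs x hx
  have hbx : ζ * s ∈ X.O x := (mem_sec U _).1 hsζ x hx
  haveI := h.ufd x
  have hs0' : (⟨s, hsx⟩ : X.O x) ≠ 0 := fun hh => hs0 (congrArg Subtype.val hh)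
  obtain ⟨b, c, e, hrel, hb, hc⟩ :=
    UniqueFactorizationMonoid.exists_reduced_factors' (⟨ζ * s, hbx⟩ : X.O x) ⟨s, hsx⟩ hs0'
  have hb' : (e : K) * b = ζ * s := congrArg Subtype.val hb
  have hc' : (e : K) * c = s := congrArg Subtype.val hc
  have he0 : (e : K) ≠ 0 := by
    intro hh
    rw [hh, zero_mul] at hc'
    exact hs0 hc'.symm
  have hc0 : (c : K) ≠ 0 := by
    intro hh
    rw [hh, mul_zero] at hc'
    exact hs0 hc'.symm
  have hbc : (b : K) = ζ * c := by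
    refine mul_left_cancel₀ he0 ?_
    rw [hb', ← hc']
    ring
  refine ⟨c, c.2, hc0, ?_, fun a ha => ⟨fun h1 => ?_, fun h1 => ?_⟩⟩
  · rw [mul_comm, ← hbc]
    exact b.2
  · have hd : c ∣ (⟨a, ha⟩ : X.O x) * b := by
      refine ⟨⟨a * ζ, h1⟩, Subtype.ext ?_⟩
      show a * (b : K) = c * (a * ζ)
      rw [hbc]
      ring
    obtain ⟨q, hq⟩ := hrel.symm.dvd_of_dvd_mul_right hd
    have hq' : a = (c : K) * q := congrArg Subtype.val hq
    have : a / c = q := by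
      rw [div_eq_iff hc0, hq', mul_comm]
    rw [this]
    exact q.2
  · have : a * ζ = (a / c) * b := by
      rw [hbc]
      field_simp
    rw [this]
    exact (X.O x).mul_mem h1 b.2

theorem polar (h : Hyp X) (ζ : K) (hζ : ζ ≠ 0) :
    ∃ M : Cart X, Effective M ∧ Sec M 1 ζ ∧ ∀ x, ∀ a ∈ X.O x, (a * ζ ∈ X.O x ↔ a / M.eq x ∈ X.O x) := by
  choose m hm1 hm2 hm3 hm4 using fun x => po_den h ζ x
  obtain ⟨D, hD⟩ := cart_of h.var (fun x => {a | a ∈ X.O x ∧ a * ζ ∈ X.O x}) m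
    (fun x => ⟨(X.O x).zero_mem, by rw [zero_mul]; exact (X.O x).zero_mem⟩)
    (fun x a ha b hb => ⟨(X.O x).add_mem ha.1 hb.1, by
      rw [add_mul]
      exact (X.O x).add_mem ha.2 hb.2⟩)
    (fun x a ha c hc => ⟨(X.O x).mul_mem hc ha.1, by
      rw [mul_assoc]
      exact (X.O x).mul_mem hc ha.2⟩)
    (fun x a ha => ha.1) hm2
    (fun x a => ⟨fun ha => (hm4 x a ha.1).1 ha.2, fun ha => by
      have h1 : a ∈ X.O x := by
        have h2 := (X.O x).mul_mem ha (hm1 x)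
        rwa [div_mul_cancel₀ _ (hm2 x)] at h2
      exact ⟨h1, (hm4 x a h1).2 ha⟩⟩)
    (fun x U hU hxU a ha => by
      obtain ⟨s₁, h1, h2, h3⟩ := h.var.frac U x hU hxU a ha.1
      obtain ⟨s₂, h4, h5, h6⟩ := h.var.frac U x hU hxU (a * ζ) ha.2
      refine ⟨s₁ * s₂, (X.sec U).mul_mem h1 h4, un_mul h2 h5, fun y hy => ⟨?_, ?_⟩⟩
      · rw [← mul_assoc]
        exact (X.O y).mul_mem ((mem_sec U _).1 h3 y hy) ((mem_sec U _).1 h4 y hy)
      · have e : a * (s₁ * s₂) * ζ = s₁ * (a * ζ * s₂) := by ring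
        rw [e]
        exact (X.O y).mul_mem ((mem_sec U _).1 h1 y hy) ((mem_sec U _).1 h6 y hy))
  refine ⟨D, fun x => ?_, fun x => ?_, fun x a ha => ?_⟩
  · rw [hD]
    exact hm1 x
  · rw [hD, pow_one, mul_comm]
    exact hm3 x
  · rw [hD]
    exact hm4 x a ha

theorem polar_mem (M : Cart X) (ζ : K) (x : X.P)
    (hM : ∀ a ∈ X.O x, (a * ζ ∈ X.O x ↔ a / M.eq x ∈ X.O x)) : ζ ∈ X.O x ↔ (M.eq x)⁻¹ ∈ X.O x := by
  have h1 := hM 1 (X.O x).one_mem
  rwa [one_mul, one_div] at h1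

end Pool.Agent.H83.TU
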