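import Pool.Agent.H83.TU.Base
import Pool.Agent.H54.RV.A2

/-!
# [H83 TU PF2] Theorem U: the residue field of the place of a maximal ideal of a Dedekind domain

`B` a Dedekind domain with fraction field `κ`, a `k`-algebra, `P` a maximal ideal, `plP k P` its place (`H54/RV/A2.lean`; `plP_R`).  The degree of the residue field of the place is `finrank k (B ⧸ P)`.

PROOF.  Let `R = (plP k P).R` (a valuation subring: the elements of valuation `≤ 1`).  The ring homomorphism `φ : B → R` (`HeightOneSpectrum.valuation_le_one`) composed with the residue map `R → R/m` has kernel `P` (`plP_pos` or `HeightOneSpectrum.valuation_lt_one_iff_mem`).  It is surjective: let `a ∈ R`, `a = b / c`, `b, c ∈ B`, `c ≠ 0`; we need `d ∈ B` with `a - d` of valuation `< 1`.  There is a presentation `a = b / c` with `c ∉ P` (`HeightOneSpectrum` : `IsLocalization.AtPrime R P.asIdeal`, e.g. `IsDedekindDomain.HeightOneSpectrum.exists_...`, or `mem_integers_of_valuation_le_one`-like lemmas for one prime; or directly: `B_P` is a discrete valuation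 ring with the same valuation).  `P` is maximal: `c * e = 1 + z` with `e ∈ B`, `z ∈ P`; take `d = b * e`: `a - d = (b - b * c * e) / c = - b * z / c` has valuation `< 1`.  So `B ⧸ P ≃ R/m` as `k`-algebras (`Ideal.quotientKerAlgEquivOfSurjective`; the `k`-algebra structure of `R` is `plAlg`), and the dimensions are equal (`LinearEquiv.finrank_eq`).
-/

set_option autoImplicit false

namespace Pool.Agent.H83.TU

open IsDedekindDomain Pool.Agent.H54.RV

theorem pf2_max {k κ : Type} [Field k] [Field κ] [Algebra k κ] (p : Place k κ) (a : κ) (ha : a ∈ p.R)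
    (h0 : a ≠ 0) : (⟨a, ha⟩ : p.R) ∈ IsLocalRing.maximalIdeal p.R ↔ 0 < p.ord a := by
  have h1 : 0 ≤ p.ord a := (ord_nonneg p a h0).2 ha
  rw [IsLocalRing.mem_maximalIdeal, mem_nonunits_iff]
  constructor
  · intro hu
    refine lt_of_le_of_ne h1 fun h2 => hu ?_
    obtain ⟨-, h3⟩ := (ord_eq_zero p a h0).1 h2.symm
    exact IsUnit.of_mul_eq_one (⟨a⁻¹, h3⟩ : p.R) (Subtype.ext (mul_inv_cancel₀ h0))
  · intro h2 hu
    obtain ⟨c, hc⟩ := hu.exists_right_inv
    have hc' : a * (c : κ) = 1 := congrArg Subtype.val hc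
    have h3 : a⁻¹ ∈ p.R := by
      rw [inv_eq_of_mul_eq_one_right hc']
      exact c.2
    have h4 := (ord_eq_zero p a h0).2 ⟨ha, h3⟩
    omega

theorem deg_plP {k κ B : Type} [Field k] [Field κ] [Algebra k κ] [CommRing B] [IsDedekindDomain B]
    [Algebra k B] [Algebra B κ] [IsFractionRing B κ] [IsScalarTower k B κ] (P : HeightOneSpectrum B) :
    deg (plP k (κ := κ) P) = Module.finrank k (B ⧸ P.asIdeal) := by
  obtain ⟨p, hp⟩ : ∃ p : Place k κ, p = plP k P := ⟨_, rfl⟩
  rw [← hp]
  have hmem : ∀ b : B, algebraMap B κ b ∈ p.R := fun b => by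
    rw [hp, plP_R, Valuation.mem_valuationSubring_iff]
    exact P.valuation_le_one _
  let φ : B →+* p.R := (algebraMap B κ).codRestrict p.R.toSubring hmem
  have hφ : ∀ b, ((φ b : p.R) : κ) = algebraMap B κ b := fun b => rfl
  let ψ : B →ₐ[k] IsLocalRing.ResidueField p.R :=
    { toRingHom := (IsLocalRing.residue p.R).comp φ
      commutes' := fun c => by
        have h1 : φ (algebraMap k B c) = algebraMap k p.R c := by
          refine Subtype.ext ?_
          rw [hφ, ← IsScalarTower.algebraMap_apply k B κ]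
          rfl
        show IsLocalRing.residue p.R (φ (algebraMap k B c)) = _
        rw [h1]
        rfl }
  have hψ : ∀ b, ψ b = IsLocalRing.residue p.R (φ b) := fun b => rfl
  have hker : P.asIdeal = RingHom.ker ψ := by
    ext b
    rw [RingHom.mem_ker, hψ, IsLocalRing.residue_eq_zero_iff]
    by_cases hb : b = 0
    · subst hb
      simp
    · have hb0 : algebraMap B κ b ≠ 0 := by
        rw [ne_eq, FaithfulSMul.algebraMap_eq_zero_iff]
        exact hb
      rw [← plP_pos (k := k) (κ := κ) P b hb, ← hp]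
      exact (pf2_max p _ (hmem b) hb0).symm
  have hsurj : Function.Surjective ψ := by
    intro y
    obtain ⟨⟨a, ha⟩, rfl⟩ := IsLocalRing.residue_surjective y
    have ha' : P.valuation κ a ≤ 1 := by
      rw [hp, plP_R, Valuation.mem_valuationSubring_iff] at ha
      exact ha
    obtain ⟨n, d, hnd⟩ := HeightOneSpectrum.exists_primeCompl_mul_eq_of_integer _ a ha'
    have hd : (d : B) ∉ P.asIdeal := d.2
    obtain ⟨e, i, hi, hei⟩ := P.isMaximal.exists_inv hd
    have h1 : ψ n = IsLocalRing.residue p.R ⟨a, ha⟩ * ψ (d : B) := by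
      rw [hψ, hψ, ← map_mul]
      congr 1
      exact Subtype.ext hnd.symm
    have h2 : ψ e * ψ (d : B) = 1 := by
      have h3 : ψ i = 0 := by
        rw [hker, RingHom.mem_ker] at hi
        exact hi
      have h4 := congrArg ψ hei
      rw [map_add, map_mul, h3, add_zero, map_one] at h4
      exact h4
    refine ⟨n * e, ?_⟩
    rw [map_mul, h1, mul_assoc, mul_comm (ψ (d : B)), h2, mul_one]
  let E₁ : (B ⧸ P.asIdeal) ≃ₐ[k] (B ⧸ RingHom.ker ψ) := Ideal.quotientEquivAlgOfEq k hker
  let E₂ : (B ⧸ RingHom.ker ψ) ≃ₐ[k] IsLocalRing.ResidueField p.R :=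
    Ideal.quotientKerAlgEquivOfSurjective hsurj
  exact ((E₁.trans E₂).toLinearEquiv.finrank_eq).symm

theorem fin_plP {k κ B : Type} [Field k] [Field κ] [Algebra k κ] [CommRing B] [IsDedekindDomain B]
    [Algebra k B] [Algebra B κ] [IsFractionRing B κ] [IsScalarTower k B κ] (P : HeightOneSpectrum B)
    (h : Module.Finite k (B ⧸ P.asIdeal)) : 0 < deg (plP k (κ := κ) P) := by
  rw [deg_plP]
  exact Module.finrank_pos

end Pool.Agent.H83.TU
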