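import Pool.Agent.H83.TU.PF1
import Pool.Agent.H83.TU.PF2

/-!
# [H83 TU PF3] Theorem U: zeros and the product formula over any field of characteristic `0`

`κ / k` finitely generated of transcendence degree `1`, `k` of characteristic `0` (not algebraically closed).  The same as `H54/RV/A5.lean` with residue degrees:
* `zerosD`: for `f` transcendental over `k` only finitely many places have `0 < ord f`, and `∑ ord f * deg = finrank k⟮f⟯ κ`.  Proof of `zeros` in `A5.lean` (`pf_ded`, `pf_sum` instead of `a4_ded`, `a4_sum`; the bijection `P ↦ plP k P`; `plP_ord`; the degree by `deg_plP`).  The private lemmas `a5_adj`, `a5_int` can be copied (they do not use that `k` is algebraically closed).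
* `ord_alg`: if `a ≠ 0` is algebraic over `k` then `ord a = 0` for all places: `p.R` contains `k` and is integrally closed in `κ` (as in `a5_int`), `a` and `a⁻¹` are integral over `k` (a field), so `a, a⁻¹ ∈ p.R` (`ord_eq_zero`).
* `fin_ordD`, `sum_ordD`: as `fin_ord`, `sum_ord` of `A5.lean` (`ord_alg` for the algebraic elements, `zerosD` for `a` and `a⁻¹`, `a3_eq`).
* `deg_pos`: the degree of every place is positive (the residue field is finite over `k`): `ord_unif` gives `t` with `ord t = 1`; `t` is transcendental over `k` by `ord_alg`; as in `zerosD` the place is `plP k P` for a maximal ideal `P ∋ t` of `BB k t`, and `pf_quo_fin`, `fin_plP`.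
* `exists_pole`: a transcendental `f` has a pole: by `zerosD` for `f⁻¹` (`finrank > 0`, `a3_fin`, `a3_eq`: `finsum` over an empty set would be `0`).
-/

set_option autoImplicit false

namespace Pool.Agent.H83.TU

open IntermediateField IsDedekindDomain Pool.Agent.H54.RV

variable {k κ : Type} [Field k] [Field κ] [Algebra k κ]

private theorem pf3_adj (p : Place k κ) (f : κ) (hf : f ∈ p.R) (a : κ)
    (ha : a ∈ Algebra.adjoin k {f}) : a ∈ p.R := by
  induction ha using Algebra.adjoin_induction with
  | mem x hx =>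
    rw [Set.mem_singleton_iff] at hx
    rw [hx]
    exact hf
  | algebraMap r => exact p.mem r
  | add x y _ _ hx hy => exact p.R.add_mem _ _ hx hy
  | mul x y _ _ hx hy => exact p.R.mul_mem _ _ hx hy

private theorem pf3_int (p : Place k κ) (f : κ) (hf : f ∈ p.R) (b : BB k f) :
    (b : κ) ∈ p.R := by
  have hb : IsIntegral (Algebra.adjoin k {f}) (b : κ) := b.2
  obtain ⟨P, hP, hP0⟩ := hb
  let φ : Algebra.adjoin k {f} →+* p.R :=
    { toFun := fun x => ⟨x.1, pf3_adj p f hf x.1 x.2⟩
      map_one' := rfl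
      map_mul' := fun _ _ => rfl
      map_zero' := rfl
      map_add' := fun _ _ => rfl }
  have h1 : IsIntegral p.R (b : κ) := by
    refine ⟨P.map φ, hP.map φ, ?_⟩
    rw [Polynomial.eval₂_map]
    exact hP0
  obtain ⟨y, hy⟩ := IsIntegrallyClosed.isIntegral_iff.1 h1
  rw [← hy]
  exact y.2

private theorem pf3_inv (a : κ) (h : Transcendental k a) : Transcendental k a⁻¹ := by
  intro h1
  have := h1.inv
  rw [inv_inv] at this
  exact h this

theorem ord_alg (a : κ) (ha : a ≠ 0) (h : IsAlgebraic k a) (p : Place k κ) : p.ord a = 0 := by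
  have key : ∀ b : κ, IsAlgebraic k b → b ∈ p.R := by
    intro b hb
    obtain ⟨P, hP, hP0⟩ := hb.isIntegral
    let φ : k →+* p.R :=
      { toFun := fun x => ⟨algebraMap k κ x, p.mem x⟩
        map_one' := Subtype.ext (map_one _)
        map_mul' := fun _ _ => Subtype.ext (map_mul _ _ _)
        map_zero' := Subtype.ext (map_zero _)
        map_add' := fun _ _ => Subtype.ext (map_add _ _ _) }
    have h1 : IsIntegral p.R b := by
      refine ⟨P.map φ, hP.map φ, ?_⟩
      rw [Polynomial.eval₂_map]
      exact hP0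
    obtain ⟨y, hy⟩ := IsIntegrallyClosed.isIntegral_iff.1 h1
    rw [← hy]
    exact y.2
  rw [ord_eq_zero p a ha]
  exact ⟨key a h, key a⁻¹ h.inv⟩

variable [CharZero k]

omit [CharZero k] in
private theorem pf3_mem (f : κ) : f ∈ BB k f := by
  have h1 : IsIntegral (Algebra.adjoin k {f})
      (algebraMap (Algebra.adjoin k {f}) κ ⟨f, Algebra.self_mem_adjoin_singleton k f⟩) :=
    isIntegral_algebraMap
  exact h1

theorem zerosD (htr : Algebra.trdeg k κ = 1) (hfg : (⊤ : IntermediateField k κ).FG) (f : κ)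
    (hf : Transcendental k f) : {p : Place k κ | 0 < p.ord f}.Finite ∧
      ∑ᶠ p ∈ {p : Place k κ | 0 < p.ord f}, p.ord f * (deg p : ℤ) = (Module.finrank k⟮f⟯ κ : ℤ) := by
  obtain ⟨hD, hFr⟩ := pf_ded htr hfg f hf
  have hf0 : f ≠ 0 := by
    rintro rfl
    exact hf isAlgebraic_zero
  set f' : BB k f := ⟨f, pf3_mem f⟩ with hf'
  have hf'0 : f' ≠ 0 := by
    intro h
    exact hf0 (congrArg Subtype.val h)
  obtain ⟨S, hS, hsum⟩ := pf_sum htr hfg f hf f' rfl
  have hset : {p : Place k κ | 0 < p.ord f} =
      (fun P => plP k (κ := κ) (B := BB k f) P) '' (S : Set (HeightOneSpectrum (BB k f))) := by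
    ext p
    simp only [Set.mem_ofPred_eq, Set.mem_image, Finset.mem_coe]
    constructor
    · intro hp
      have h1 : f ∈ p.R := (ord_nonneg p f hf0).1 hp.le
      obtain ⟨P, hP⟩ := plP_surj (B := BB k f) p (fun b => pf3_int p f h1 b)
      refine ⟨P, ?_, hP⟩
      rw [hS, ← plP_pos (k := k) (κ := κ) P f' hf'0, hP]
      exact hp
    · rintro ⟨P, hP, rfl⟩
      rw [hS, ← plP_pos (k := k) (κ := κ) P f' hf'0] at hP
      exact hP
  have hinj : Function.Injective (fun P => plP k (κ := κ) (B := BB k f) P) := plP_inj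
  refine ⟨?_, ?_⟩
  · rw [hset]
    exact S.finite_toSet.image _
  · rw [hset, finsum_mem_image hinj.injOn, finsum_mem_coe_finset, ← hsum]
    apply Finset.sum_congr rfl
    intro P _
    rw [plP_ord P f hf0, deg_plP]

theorem fin_ordD (htr : Algebra.trdeg k κ = 1) (hfg : (⊤ : IntermediateField k κ).FG) (a : κ)
    (ha : a ≠ 0) : {p : Place k κ | p.ord a ≠ 0}.Finite := by
  by_cases h : Transcendental k a
  · refine ((zerosD htr hfg a h).1.union (zerosD htr hfg a⁻¹ (pf3_inv a h)).1).subset ?_
    intro p hp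
    simp only [Set.mem_ofPred_eq, Set.mem_union] at hp ⊢
    rw [ord_inv]
    omega
  · have : {p : Place k κ | p.ord a ≠ 0} = ∅ := by
      ext p
      simp [ord_alg a ha (not_not.1 h) p]
    rw [this]
    exact Set.finite_empty

theorem sum_ordD (htr : Algebra.trdeg k κ = 1) (hfg : (⊤ : IntermediateField k κ).FG) (a : κ)
    (ha : a ≠ 0) : ∑ᶠ p : Place k κ, p.ord a * (deg p : ℤ) = 0 := by
  classical
  by_cases h : Transcendental k a
  · obtain ⟨f1, s1⟩ := zerosD htr hfg a h
    obtain ⟨f2, s2⟩ := zerosD htr hfg a⁻¹ (pf3_inv a h)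
    have h1 : ∀ p : Place k κ, p.ord a * (deg p : ℤ) =
        Set.indicator {p : Place k κ | 0 < p.ord a} (fun p => p.ord a * (deg p : ℤ)) p -
        Set.indicator {p : Place k κ | 0 < p.ord a⁻¹} (fun p => p.ord a⁻¹ * (deg p : ℤ)) p := by
      intro p
      simp only [Set.indicator_apply, Set.mem_ofPred_eq, ord_inv]
      split_ifs with h3 h4 h4
      · omega
      · ring
      · ring
      · have h5 : p.ord a = 0 := by omega
        rw [h5]
        ring
    rw [finsum_congr h1, finsum_sub_distrib, ← finsum_mem_def, ← finsum_mem_def, s1, s2]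
    · have h2 : Module.finrank k⟮a⁻¹⟯ κ = Module.finrank k⟮a⟯ κ :=
        congrArg (fun L : IntermediateField k κ => Module.finrank L κ) (a3_eq a)
      rw [h2, sub_self]
    · exact f1.subset (Set.support_indicator_subset)
    · exact f2.subset (Set.support_indicator_subset)
  · rw [finsum_congr (fun p => by rw [ord_alg a ha (not_not.1 h) p, zero_mul])]
    exact finsum_zero

theorem deg_pos (htr : Algebra.trdeg k κ = 1) (hfg : (⊤ : IntermediateField k κ).FG) (p : Place k κ) :
    0 < deg p := by
  obtain ⟨t, ht0, ht⟩ := ord_unif p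
  have htt : Transcendental k t := by
    intro h
    rw [ord_alg t ht0 h p] at ht
    exact zero_ne_one ht
  obtain ⟨hD, hFr⟩ := pf_ded htr hfg t htt
  set t' : BB k t := ⟨t, pf3_mem t⟩ with ht'
  have ht'0 : t' ≠ 0 := by
    intro h
    exact ht0 (congrArg Subtype.val h)
  have h1 : t ∈ p.R := (ord_nonneg p t ht0).1 (by rw [ht]; exact zero_le_one)
  obtain ⟨P, hP⟩ := plP_surj (B := BB k t) p (fun b => pf3_int p t h1 b)
  have h2 : t' ∈ P.asIdeal := by
    rw [← plP_pos (k := k) (κ := κ) P t' ht'0, hP]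
    show 0 < p.ord t
    rw [ht]
    exact zero_lt_one
  rw [← hP]
  exact fin_plP P (pf_quo_fin htr hfg t htt t' rfl P h2)

theorem exists_pole (htr : Algebra.trdeg k κ = 1) (hfg : (⊤ : IntermediateField k κ).FG) (f : κ)
    (hf : Transcendental k f) : ∃ p : Place k κ, p.ord f < 0 := by
  by_contra hcon
  have h1 : ∀ p : Place k κ, ¬ p.ord f < 0 := fun p hp => hcon ⟨p, hp⟩
  have h2 := (zerosD htr hfg f⁻¹ (pf3_inv f hf)).2
  have h3 : {p : Place k κ | 0 < p.ord f⁻¹} = ∅ := by
    ext p
    simp only [Set.mem_ofPred_eq, Set.mem_empty_iff_false, iff_false, ord_inv]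
    have := h1 p
    omega
  rw [h3, finsum_mem_empty] at h2
  have h4 : FiniteDimensional k⟮f⁻¹⟯ κ := a3_fin htr hfg f⁻¹ (pf3_inv f hf)
  have h5 : 0 < Module.finrank k⟮f⁻¹⟯ κ := Module.finrank_pos
  omega

end Pool.Agent.H83.TU
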