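import Pool.Agent.H83.TU.PA
import Pool.Agent.H83.TU.PF3
import Pool.Agent.H83.TU.RF

/-!
# [H83 TU RA] Theorem U: the sum which defines `R_F` is finite

* `K_fg`: `K` is a finitely generated field extension of `k`: `U` affine, not empty (`h.var.ne`, `IsVar.chart`), `IsVar.fg`: `sec U` is a finitely generated `k`-algebra, and every element of `K` is a quotient of elements of `sec U` (`gen_frac`): the field generated by the generators of `sec U` is `⊤` (as in `H54/RV/B4.lean`, `kap_fg`).
* `F_fg`: the same over a field `F` between `k` and `K`: `IntermediateField.fg_top_iff` (`EssFiniteType`), `Algebra.EssFiniteType.of_comp k F K`.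
* `fin_cover`: for a Cartier divisor `D` there is a finite set `T` of points such that for every point `y` there is `x ∈ T` with `Un (O y) (D.eq y / D.eq x)`: `D.loc` and compactness (`IsVar.comp`, `isCompact_univ.elim_nhds_subcover`).
* `rf_fin`: by `fin_cover`, `ord_loc`-argument: for a place `p` over `F` with centre `c` (`cenK_dom`) there is `x ∈ T` with `Un (O c) (D.eq c / D.eq x)`, so `ord (D.eq c) = ord (D.eq x)` (elements of `O c` are in `p.R`: `cenK_le`; `ord_eq_zero`, `ord_mul`, `ord_inv`; or `ord_loc` with `U = {y | Un (O y) (D.eq y / D.eq x)}`, `down_ord`).  So the set is contained in the union over `x ∈ T` of `{p | p.ord (D.eq x) ≠ 0}`, finite by `fin_ordD` over the field `F` (`F` has characteristic `0`).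
-/

set_option autoImplicit false

namespace Pool.Agent.H83.TU

open Pool.Agent.H54.RV

variable {k K : Type} [Field k] [Field K] [Algebra k K] {X : Mod k K}

theorem K_fg (hX : IsVar X) (hg : ∃ g, Gen X g) : (⊤ : IntermediateField k K).FG := by
  obtain ⟨x0⟩ := hX.ne
  obtain ⟨U, hU, hx0⟩ := hX.chart x0
  obtain ⟨s, hs⟩ := hX.fg U hU ⟨x0, hx0⟩
  refine ⟨s, ?_⟩
  have hle : X.sec U ≤ (IntermediateField.adjoin k (s : Set K)).toSubalgebra := by
    rw [← hs]
    exact Algebra.adjoin_le (IntermediateField.subset_adjoin k (s : Set K))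
  rw [eq_top_iff]
  intro a _
  obtain ⟨t, ht, ht0, hat⟩ := gen_frac hX hg U hU ⟨x0, hx0⟩ a
  have h1 : a * t ∈ IntermediateField.adjoin k (s : Set K) := hle hat
  have h2 : t ∈ IntermediateField.adjoin k (s : Set K) := hle ht
  have h3 : a = a * t / t := by
    field_simp
  rw [h3]
  exact (IntermediateField.adjoin k (s : Set K)).div_mem h1 h2

theorem F_fg (hX : IsVar X) (hg : ∃ g, Gen X g) (F : IntermediateField k K) : (⊤ : IntermediateField F K).FG := by
  obtain ⟨s, hs⟩ := K_fg hX hg
  refine ⟨s, ?_⟩
  have h1 : IntermediateField.adjoin k (s : Set K) ≤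
      (IntermediateField.adjoin F (s : Set K)).restrictScalars k := by
    rw [IntermediateField.adjoin_le_iff]
    exact IntermediateField.subset_adjoin F (s : Set K)
  rw [eq_top_iff]
  intro a _
  have h2 : a ∈ (⊤ : IntermediateField k K) := IntermediateField.mem_top
  rw [← hs] at h2
  exact h1 h2

theorem fin_cover (hX : IsVar X) (D : Cart X) :
    ∃ T : Finset X.P, ∀ y, ∃ x ∈ T, Un (X.O y) (D.eq y / D.eq x) := by
  choose U hU hxU hun using D.loc
  have := hX.comp
  obtain ⟨T, -, hT⟩ := (isCompact_univ (X := X.P)).elim_nhds_subcover U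
    (fun x _ => (hU x).mem_nhds (hxU x))
  refine ⟨T, fun y => ?_⟩
  have h1 := hT (Set.mem_univ y)
  rw [Set.mem_iUnion₂] at h1
  obtain ⟨x, hx, hy⟩ := h1
  exact ⟨x, hx, hun x y hy⟩

theorem rf_fin [CharZero k] (hX : IsVar X) (hg : ∃ g, Gen X g) (F : IntermediateField k K)
    (hF : Algebra.trdeg F K = 1) (D : Cart X) :
    {p : Place F K | p.ord (D.eq (cenK hX hg (down p))) ≠ 0}.Finite := by
  have : CharZero F := charZero_of_injective_algebraMap (algebraMap k F).injective
  obtain ⟨T, hT⟩ := fin_cover hX D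
  refine Set.Finite.subset (T.finite_toSet.biUnion fun x _ =>
    fin_ordD hF (F_fg hX hg F) (D.eq x) (D.ne x)) ?_
  intro p hp
  obtain ⟨x, hx, hun⟩ := hT (cenK hX hg (down p))
  rw [Set.mem_iUnion₂]
  refine ⟨x, hx, ?_⟩
  have h1 := ord_loc hX hg D (down p) x {cenK hX hg (down p)} (fun y hy => by
    rw [Set.mem_singleton_iff.1 hy]
    exact hun) rfl
  rw [down_ord, down_ord] at h1
  show p.ord (D.eq x) ≠ 0
  rw [← h1]
  exact hp

end Pool.Agent.H83.TU
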