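import Pool.Agent.H83.TU.PC
import Pool.Agent.H83.TU.Props

/-!
# [H83 TU EN] Theorem U: nontrivial effective divisors are not numerically trivial

`exists_pdiv`: `S` effective, `S⁻¹` not effective: there is a prime divisor `P` with `ord (S.eq η) ≥ 1`.
PROOF.  There is `x` with `(S.eq x)⁻¹ ∉ O x`.  `S.eq x ∈ O x` is nonzero and not a unit of `O x`, a UFD, so it is divisible by a prime `π` of `O x` (`WfDvdMonoid.exists_irreducible_factor`, `UniqueFactorizationMonoid.irreducible_iff_prime`).  `pdiv_of_prime` gives `P` with `P.η ⤳ x` and `ord (S.eq x) > 0` (as `S.eq x / π ∈ O x`); `ord_eq_pt`: `ord (S.eq η) > 0`.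

`eff_not_numz`: `S` effective, `S⁻¹` not effective: `S` is not numerically trivial.
PROOF.  Suppose `NumZ S`.  `P` of `exists_pdiv`, `A` ample (`h.amp`), `C` from `NZ X` for `A` and `P`.  `A * (S⁻¹) ^ n` is ample for all `n : ℕ` (induction on `n`, `NumZ S`, second part).  Let `n = C + 1`.  `Ample (A * (S⁻¹) ^ n)` at any point (`h.var.ne`): `m ≥ 1` and `f` with `Sec (A * (S⁻¹) ^ n) m f`, and `f ≠ 0` (`Un`).  For all `y`: `f * (A.eq y / S.eq y ^ n) ^ m ∈ O y` and `S.eq y ∈ O y`, so `f * A.eq y ^ m ∈ O y`: `Sec A m f`, and at `y = η`: `ord (f * A.eq η ^ m) = ord (f * (A.eq η / S.eq η ^ n) ^ m) + n * m * ord (S.eq η) ≥ n * m` (`P.mem`, `ord_nonneg`, `ord_mul`; `ord (a ^ n) = n * ord a` by induction, `ord_one`).  But it is `≤ C * m < n * m`, a contradiction.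
-/

set_option autoImplicit false

namespace Pool.Agent.H83.TU

open Pool.Agent.H54.RV

variable {k K : Type} [Field k] [Field K] [Algebra k K] {X : Mod k K}

theorem exists_pdiv (h : Hyp X) (S : Cart X) (hS : Effective S) (hn : ¬ Effective S⁻¹) :
    ∃ P : PDiv X, 1 ≤ P.p.ord (S.eq P.η) := by
  have h1 : ∃ x, (S.eq x)⁻¹ ∉ X.O x := by
    by_contra hcon
    push Not at hcon
    exact hn fun x => by
      rw [inv_eq]
      exact hcon x
  obtain ⟨x, hx⟩ := h1
  have hufd := h.ufd x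
  have ha0 : (⟨S.eq x, hS x⟩ : X.O x) ≠ 0 := by
    intro h2
    exact S.ne x (congrArg Subtype.val h2)
  have hau : ¬ IsUnit (⟨S.eq x, hS x⟩ : X.O x) := by
    intro h2
    exact hx ((un_iff (hS x)).1 h2).2.2
  obtain ⟨i, hi, b, hb⟩ := WfDvdMonoid.exists_irreducible_factor hau ha0
  have hp : Prime i := UniqueFactorizationMonoid.irreducible_iff_prime.1 hi
  obtain ⟨P, hPx, -, hP⟩ := pdiv_of_prime h x i.1 i.2 hp
  refine ⟨P, ?_⟩
  have hi0 : (i : K) ≠ 0 := by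
    intro h2
    exact hi.ne_zero (Subtype.ext h2)
  have h3 : S.eq x = (i : K) * (b : K) := congrArg Subtype.val hb
  have h4 : S.eq x / (i : K) ∈ X.O x := by
    rw [h3, mul_div_cancel_left₀ _ hi0]
    exact b.2
  have h5 : 0 < P.p.ord (S.eq x) := (hP (S.eq x) (hS x) (S.ne x)).2 h4
  rw [ord_eq_pt P S x hPx] at h5
  omega


theorem eff_not_numz (h : Hyp X) (hZ : NZ X) (S : Cart X) (hS : Effective S) (hn : ¬ Effective S⁻¹) :
    ¬ NumZ S := by
  intro hN
  obtain ⟨P, hP⟩ := exists_pdiv h S hS hn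
  obtain ⟨A, hA⟩ := h.amp
  obtain ⟨C, hC⟩ := hZ A P
  have hamp : ∀ n : ℕ, Ample (A * (S⁻¹) ^ n) := by
    intro n
    induction n with
    | zero =>
      rw [pow_zero, mul_one]
      exact hA
    | succ n ih =>
      rw [pow_succ, ← mul_assoc]
      exact (hN _ ih).2
  have hordpow : ∀ (a : K) (_ : a ≠ 0) (n : ℕ), P.p.ord (a ^ n) = n * P.p.ord a := by
    intro a ha n
    induction n with
    | zero => rw [pow_zero, ord_one, Nat.cast_zero, zero_mul]
    | succ n ih =>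
      rw [pow_succ, ord_mul _ _ _ (pow_ne_zero n ha) ha, ih]
      push_cast
      ring
  obtain ⟨x0⟩ := h.var.ne
  obtain ⟨m, hm, f, hf, hx, -⟩ := hamp (C + 1) x0
  have hf0 : f ≠ 0 := left_ne_zero_of_mul hx.1
  have heq : ∀ y, f * A.eq y ^ m = (f * (A * (S⁻¹) ^ (C + 1)).eq y ^ m) * S.eq y ^ ((C + 1) * m) := by
    intro y
    have e1 : (S.eq y)⁻¹ ^ (C + 1) * S.eq y ^ (C + 1) = 1 := by
      rw [← mul_pow, inv_mul_cancel₀ (S.ne y), one_pow]
    rw [mul_eq, pow_eq, inv_eq, pow_mul, mul_assoc, ← mul_pow, mul_assoc, e1, mul_one]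
  have hsec : Sec A m f := by
    intro y
    rw [heq y]
    exact (X.O y).mul_mem (hf y) ((X.O y).pow_mem (hS y) _)
  have h1 := hC m f hm hf0 hsec
  have hg0 : f * (A * (S⁻¹) ^ (C + 1)).eq P.η ^ m ≠ 0 :=
    mul_ne_zero hf0 (pow_ne_zero _ ((A * (S⁻¹) ^ (C + 1)).ne P.η))
  have h2 : 0 ≤ P.p.ord (f * (A * (S⁻¹) ^ (C + 1)).eq P.η ^ m) :=
    (ord_nonneg P.p _ hg0).2 ((P.mem _).1 (hf P.η))
  rw [heq P.η, ord_mul _ _ _ hg0 (pow_ne_zero _ (S.ne P.η)), hordpow _ (S.ne P.η)] at h1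
  have h3 : (((C + 1) * m : ℕ) : ℤ) ≤ (((C + 1) * m : ℕ) : ℤ) * P.p.ord (S.eq P.η) :=
    le_mul_of_one_le_right (Int.natCast_nonneg _) hP
  have h4 : (C : ℤ) * m < (((C + 1) * m : ℕ) : ℤ) := by
    push_cast
    have : (1 : ℤ) ≤ m := by exact_mod_cast hm
    linarith
  linarith


end Pool.Agent.H83.TU
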