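import Pool.Agent.H83.TU.Cen
import Pool.Agent.H83.TU.Props

/-!
# [H83 TU UA] Theorem U: sections of `m A + M` which do not vanish at a point

`sec_mul`: the product of a section of `D` and of a section of `E` is a section of `D * E`, a unit where both are units (`pow_one`, `mul_eq`, `un_mul`).  `sec_pow`, `sec_iff_pow`: `Sec D n s ↔ Sec (D ^ n) 1 s` (`pow_eq`, `pow_one`), the same for `nz`.

`un_pt`: `A` ample, `M` a Cartier divisor, `x` a point: for all large `m` the divisor `A ^ m * M` has a section which is a unit at `x`.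
PROOF.  `hA x`: `n₁ ≥ 1` and a section `s₁` of `n₁ A` which is a unit at `x`.  For `r < n₁` let `amp_pt` (`H54/RV/B10.lean`) for `L = A` and the divisor `A ^ r * M` give `n`, `W`, `N`; take `j = n₁ * N` (so `j ≥ N`): a section `t_r` of `(A ^ n) ^ j * (A ^ r * M) = A ^ (n * j + r) * M`, a unit at `x` (`x ∈ W = nz ..`).  Put `e_r = n * j + r`, congruent to `r` modulo `n₁`.  For `m ≥ m₀ = ∑ e_r`, `r = m % n₁`: `m = e_r + i * n₁`, and `s₁ ^ i * t_r` is a section of `(A ^ n₁) ^ i * (A ^ e_r * M) = A ^ m * M`, a unit at `x`.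

`uf_pt`: `A` ample, `x` a point, `f ∈ O x`: for all large `m` there is a section `s` of `m A`, a unit at `x`, such that `s * f` is a section of `m A`.
PROOF.  `hA x`: `n₁ ≥ 1`, `s₁` with `V = nz A n₁ s₁` affine, `x ∈ V`.  `IsVar.frac`: `c ∈ sec V`, `Un (O x) c`, `f * c ∈ sec V`.  `ext_sec` (`H54/RV/B9.lean`) for `L = A`, `M = 1`, `n = n₁`, `s = s₁` and `t = c`, `t = f * c`: for all large `j`, `s₁ ^ j * c` and `s₁ ^ j * (f * c)` are sections of `n₁ * j A` (`one_eq`, `mul_one`, `pow_mul`).  Fix such a `j`; `un_pt` for `M = 1`: for all large `i` a section `t_i` of `i A`, a unit at `x`.  For `m = n₁ * j + i`: `s = s₁ ^ j * c * t_i`.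
-/

set_option autoImplicit false

namespace Pool.Agent.H83.TU

open Pool.Agent.H54.RV

variable {k K : Type} [Field k] [Field K] [Algebra k K] {X : Mod k K}

theorem sec_iff_pow (D : Cart X) (n : ℕ) (s : K) : Sec D n s ↔ Sec (D ^ n) 1 s := by
  unfold Sec
  simp only [pow_eq, pow_one]

theorem nz_iff_pow (D : Cart X) (n : ℕ) (s : K) : nz D n s = nz (D ^ n) 1 s := by
  unfold nz
  simp only [pow_eq, pow_one]

theorem sec_mul (D E : Cart X) (s t : K) (hs : Sec D 1 s) (ht : Sec E 1 t) : Sec (D * E) 1 (s * t) := by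
  intro x
  have h1 := (X.O x).mul_mem (hs x) (ht x)
  rw [pow_one] at h1 ⊢
  rw [pow_one] at h1
  rw [mul_eq]
  have h2 : s * t * (D.eq x * E.eq x) = s * D.eq x * (t * E.eq x) := by ring
  rw [h2]
  exact h1

theorem nz_mul (D E : Cart X) (s t : K) (x : X.P) (hs : x ∈ nz D 1 s) (ht : x ∈ nz E 1 t) :
    x ∈ nz (D * E) 1 (s * t) := by
  have h1 := un_mul hs ht
  show Un (X.O x) (s * t * (D * E).eq x ^ 1)
  have h2 : s * t * (D * E).eq x ^ 1 = s * D.eq x ^ 1 * (t * E.eq x ^ 1) := by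
    rw [mul_eq, pow_one, pow_one, pow_one]
    ring
  rw [h2]
  exact h1

theorem un_pt (hX : IsVar X) (A M : Cart X) (hA : Ample A) (x : X.P) :
    ∃ m₀ : ℕ, ∀ m ≥ m₀, ∃ s : K, Sec (A ^ m * M) 1 s ∧ x ∈ nz (A ^ m * M) 1 s := by
  obtain ⟨n₁, hn₁, s₁, hs₁, hx₁, -⟩ := hA x
  have key : ∀ r : ℕ, ∃ (e : ℕ) (t : K), e % n₁ = r % n₁ ∧ Sec (A ^ e * M) 1 t ∧
      x ∈ nz (A ^ e * M) 1 t := by
    intro r
    obtain ⟨n, W, N, hn, hW, hxW, hj⟩ := amp_pt hX A (A ^ r * M) hA x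
    obtain ⟨t, ht1, ht2⟩ := hj (n₁ * N) (Nat.le_mul_of_pos_left N hn₁)
    have e1 : (A ^ n) ^ (n₁ * N) * (A ^ r * M) = A ^ (n * (n₁ * N) + r) * M := by
      rw [← pow_mul, ← mul_assoc, ← pow_add]
    rw [e1] at ht1 ht2
    refine ⟨n * (n₁ * N) + r, t, ?_, ht1, ?_⟩
    · have e2 : n * (n₁ * N) + r = r + n₁ * (n * N) := by ring
      rw [e2, Nat.add_mul_mod_self_left]
    · rw [ht2]
      exact hxW
  choose e t he ht1 ht2 using key
  refine ⟨∑ r ∈ Finset.range n₁, e r, fun m hm => ?_⟩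
  have hr : m % n₁ < n₁ := Nat.mod_lt _ hn₁
  have hle : e (m % n₁) ≤ m := by
    refine le_trans ?_ hm
    exact Finset.single_le_sum (f := e) (fun _ _ => Nat.zero_le _) (Finset.mem_range.2 hr)
  have hmod : e (m % n₁) ≡ m [MOD n₁] := by
    have h1 := he (m % n₁)
    rw [Nat.mod_mod] at h1
    exact h1
  obtain ⟨i, hi⟩ := (Nat.modEq_iff_dvd' hle).1 hmod
  have hm' : m = n₁ * i + e (m % n₁) := by omega
  have e3 : A ^ m * M = (A ^ n₁) ^ i * (A ^ (e (m % n₁)) * M) := by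
    rw [← pow_mul, ← mul_assoc, ← pow_add, ← hm']
  have h4 : ∀ y, s₁ ^ i * ((A ^ n₁) ^ i).eq y ^ 1 = (s₁ * A.eq y ^ n₁) ^ i := by
    intro y
    rw [pow_one, pow_eq, pow_eq, mul_pow]
  refine ⟨s₁ ^ i * t (m % n₁), ?_, ?_⟩
  · rw [e3]
    refine sec_mul _ _ _ _ (fun y => ?_) (ht1 _)
    rw [h4]
    exact (X.O y).pow_mem (hs₁ y) i
  · rw [e3]
    refine nz_mul _ _ _ _ x ?_ (ht2 _)
    change Un (X.O x) (s₁ ^ i * ((A ^ n₁) ^ i).eq x ^ 1)
    rw [h4]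
    exact un_pow hx₁ i

theorem uf_pt (hX : IsVar X) (A : Cart X) (hA : Ample A) (x : X.P) (f : K) (hf : f ∈ X.O x) :
    ∃ m₀ : ℕ, ∀ m ≥ m₀, ∃ s : K, Sec A m s ∧ Sec A m (s * f) ∧ x ∈ nz A m s := by
  obtain ⟨n₁, hn₁, s₁, hs₁, hx₁, haff⟩ := hA x
  obtain ⟨c, hc, hcu, hfc⟩ := hX.frac _ x haff hx₁ f hf
  obtain ⟨N, hN⟩ := ext_sec hX A 1 n₁ s₁ c hs₁ (fun y hy => by
    rw [one_eq, mul_one]
    exact (mem_sec _ _).1 hc y hy)
  obtain ⟨N', hN'⟩ := ext_sec hX A 1 n₁ s₁ (f * c) hs₁ (fun y hy => by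
    rw [one_eq, mul_one]
    exact (mem_sec _ _).1 hfc y hy)
  obtain ⟨m₁, hm₁⟩ := un_pt hX A 1 hA x
  have hj1 : N ≤ max N N' := le_max_left _ _
  have hj2 : N' ≤ max N N' := le_max_right _ _
  set j := max N N' with hj
  refine ⟨n₁ * j + m₁, fun m hm => ?_⟩
  obtain ⟨i, rfl⟩ : ∃ i, m = n₁ * j + i := ⟨m - n₁ * j, by omega⟩
  obtain ⟨t, ht1, ht2⟩ := hm₁ i (by omega)
  have ht1' : ∀ y, t * A.eq y ^ i ∈ X.O y := by
    intro y
    have h1 := ht1 y
    rwa [pow_one, mul_eq, one_eq, mul_one, pow_eq] at h1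
  have ht2' : Un (X.O x) (t * A.eq x ^ i) := by
    have h1 : Un (X.O x) (t * (A ^ i * 1).eq x ^ 1) := ht2
    rwa [pow_one, mul_eq, one_eq, mul_one, pow_eq] at h1
  refine ⟨s₁ ^ j * c * t, fun y => ?_, fun y => ?_, ?_⟩
  · have h1 := (X.O y).mul_mem (hN j hj1 y) (ht1' y)
    rw [one_eq] at h1
    have e1 : s₁ ^ j * c * t * A.eq y ^ (n₁ * j + i) =
        s₁ ^ j * c * ((A.eq y ^ n₁) ^ j * 1) * (t * A.eq y ^ i) := by
      rw [pow_add, pow_mul]
      ring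
    rw [e1]
    exact h1
  · have h1 := (X.O y).mul_mem (hN' j hj2 y) (ht1' y)
    rw [one_eq] at h1
    have e1 : s₁ ^ j * c * t * f * A.eq y ^ (n₁ * j + i) =
        s₁ ^ j * (f * c) * ((A.eq y ^ n₁) ^ j * 1) * (t * A.eq y ^ i) := by
      rw [pow_add, pow_mul]
      ring
    rw [e1]
    exact h1
  · change Un (X.O x) (s₁ ^ j * c * t * A.eq x ^ (n₁ * j + i))
    have e1 : s₁ ^ j * c * t * A.eq x ^ (n₁ * j + i) =
        (s₁ * A.eq x ^ n₁) ^ j * c * (t * A.eq x ^ i) := by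
      rw [pow_add, pow_mul, mul_pow]
      ring
    rw [e1]
    exact un_mul (un_mul (un_pow hx₁ j) hcu) ht2'

end Pool.Agent.H83.TU
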