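import Pool.Agent.H54.RV.C10

/-!
# Theorem U (MP_e49dc9_ag): the geometric layer, definitions

`X : Mod k K` is a space of local rings in the field `K` (`Pool.Agent.H54.RV`), `D : Cart X` a Cartier divisor.

* `secL D n`: the space of the sections of `n D`; `h0 D n`: its dimension; `vol D = limsup h0 D n / n ^ 3`.
* `Gen X g`: `g` is a generic point, with local ring `K`.
* `Hyp X`: the standing hypotheses: a factorial projective variety of dimension `3`.
* `NumZ D`: `D` is numerically trivial: `A + D` and `A - D` are ample for all ample `A` (Kleiman's criterion).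
* `Num ν`: the Picard number is `2`: `ν` maps the Cartier divisors onto `ℤ²`, and its kernel consists of the
  numerically trivial divisors.  `cv ν D`: the class of `D` in `ℝ²`; `AmpV ν`, `EffV ν`: the ample and the effective
  cone in `ℝ²`.
* `NT X`: the property of the numerical classes `cl` (defined by curves) which is Kleiman's theorem.
* `Dom X x p`: the local ring at `x` is dominated by the place `p` of `K`; `cenK`: the centre of a place of `K`.
* `Place.down`: a place of `K` over a field `F` between `k` and `K`, as a place over `k`; `Place.deg`: the degree of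
  the residue field over the base field.
* `PDiv X`: prime divisors, as points whose local ring is a discrete valuation ring.
* `Star D`: the sections of `D` vanish to order at most `1` along the prime divisors.
-/

set_option autoImplicit false

namespace Pool.Agent.H83.TU

open Pool.Agent.H54.RV

section places

variable {k κ : Type} [Field k] [Field κ] [Algebra k κ]

/-- the base field acts on the valuation ring of a place -/
noncomputable instance plAlg (p : Place k κ) : Algebra k p.R :=
  ((algebraMap k κ).codRestrict p.R.toSubring p.mem).toAlgebra

instance plTower (p : Place k κ) : IsScalarTower k p.R κ := IsScalarTower.of_algebraMap_eq fun _ => rfl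

/-- the degree of the residue field of a place over the base field (`0` if it is infinite) -/
noncomputable def deg (p : Place k κ) : ℕ := Module.finrank k (IsLocalRing.ResidueField p.R)

/-- a place over a field between `k` and `κ`, as a place over `k` -/
def down {F : IntermediateField k κ} (p : Place F κ) : Place k κ where
  R := p.R
  mem c := p.mem (algebraMap k F c)
  dvr := p.dvr

end places

variable {k K : Type} [Field k] [Field K] [Algebra k K]

section secs

variable {X : Mod k K}

/-- the sections of the multiple `n D` -/
def secL (D : Cart X) (n : ℕ) : Submodule k K where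
  carrier := {s | Sec D n s}
  zero_mem' := fun x => by
    rw [zero_mul]
    exact (X.O x).zero_mem
  add_mem' := fun {a b} ha hb x => by
    rw [add_mul]
    exact (X.O x).add_mem (ha x) (hb x)
  smul_mem' := fun c a ha x => by
    rw [Algebra.smul_mul_assoc]
    exact (X.O x).smul_mem (ha x) c

theorem mem_secL (D : Cart X) (n : ℕ) (s : K) : s ∈ secL D n ↔ Sec D n s := Iff.rfl

/-- the dimension of the space of the sections of `n D` -/
noncomputable def h0 (D : Cart X) (n : ℕ) : ℕ := Module.finrank k (secL D n)

/-- the upper limit of `h0 (n D) / n ^ 3` -/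
noncomputable def vol (D : Cart X) : ℝ :=
  Filter.limsup (fun n : ℕ => (h0 D n : ℝ) / (n : ℝ) ^ 3) Filter.atTop

end secs

variable (X : Mod k K)

/-- a generic point, with local ring `K` -/
structure Gen (g : X.P) : Prop where
  top : X.O g = ⊤
  spec : ∀ x, g ⤳ x

/-- the sum of an ample divisor and of a divisor with intersection number zero with all curves is ample -/
def NT : Prop := ∀ A D : Cart X, Ample A → cl D = 0 → Ample (A * D)

/-- the standing hypotheses: `X` is a factorial projective variety of dimension `3` -/
structure Hyp : Prop where
  var : IsVar X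
  gen : ∃ g, Gen X g
  ufd : ∀ x, UniqueFactorizationMonoid (X.O x)
  amp : ∃ A : Cart X, Ample A
  tr : Algebra.trdeg k K = 3

/-- the local ring at `x` is dominated by the valuation ring of the place `p` -/
def Dom (x : X.P) (p : Place k K) : Prop :=
  ∀ a ∈ X.O x, a ∈ p.R ∧ (a ≠ 0 → a⁻¹ ∈ p.R → a⁻¹ ∈ X.O x)

/-- prime divisors, as points whose local ring is a discrete valuation ring -/
structure PDiv where
  /-- the generic point of the divisor -/
  η : X.P
  /-- its local ring as a place -/
  p : Place k K
  mem : ∀ a, a ∈ X.O η ↔ a ∈ p.R

variable {X}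

/-- the sections of `D` vanish to order at most `1` along the prime divisors -/
def Star (D : Cart X) : Prop :=
  ∀ (P : PDiv X) (s : K), s ≠ 0 → Sec D 1 s → P.p.ord (s * D.eq P.η) ≤ 1

/-- numerically trivial divisors -/
def NumZ (D : Cart X) : Prop := ∀ A : Cart X, Ample A → Ample (A * D) ∧ Ample (A * D⁻¹)

/-- the classes of the divisors modulo the numerically trivial ones form the group `ℤ²`, by the map `ν` -/
structure Num (ν : Cart X →* Multiplicative (Fin 2 → ℤ)) : Prop where
  surj : Function.Surjective ν
  ker : ∀ D, ν D = 1 ↔ NumZ D

variable (ν : Cart X →* Multiplicative (Fin 2 → ℤ))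

/-- the class of a divisor in the plane -/
noncomputable def cv (D : Cart X) : Fin 2 → ℝ := fun i => ((Multiplicative.toAdd (ν D) i : ℤ) : ℝ)

/-- the ample cone in the plane -/
def AmpV : Set (Fin 2 → ℝ) :=
  {v | ∃ (m : ℕ) (c : Fin (m + 1) → ℝ) (D : Fin (m + 1) → Cart X),
    (∀ i, 0 < c i) ∧ (∀ i, Ample (D i)) ∧ v = ∑ i, c i • cv ν (D i)}

/-- the effective cone in the plane -/
def EffV : Set (Fin 2 → ℝ) :=
  {v | ∃ (m : ℕ) (c : Fin m → ℝ) (D : Fin m → Cart X),
    (∀ i, 0 ≤ c i) ∧ (∀ i, Effective (D i)) ∧ v = ∑ i, c i • cv ν (D i)}

/-- the class of `D` is in the ample cone and is not the sum of two integral classes of the ample cone -/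
def Indec (D : Cart X) : Prop :=
  cv ν D ∈ AmpV ν ∧ ∀ A B : Cart X, cv ν A ∈ AmpV ν → cv ν B ∈ AmpV ν → cv ν A + cv ν B ≠ cv ν D

end Pool.Agent.H83.TU
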