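import Pool.Agent.H83.TU.PC

/-!
# [H83 TU SP] Theorem U: a section with a double component splits the divisor

`D` a Cartier divisor, `s ≠ 0` a section of `D` with `ord (s * D.eq η) ≥ 2` at a prime divisor `P`.  Then the divisor `prin s * D` of the section is a product `S * T` of effective divisors whose inverses are not effective.

PROOF.  `E = prin X s hs * D` is effective (`Sec D 1 s`, `pow_one`; `mul_eq`), `E.eq η = s * D.eq η`.  `S` the divisor of `pdiv_cart h P`; `ord (E.eq η) > 0`, so `T = E * S⁻¹` is effective, and `S * T = E` (`Cart X` is a commutative group).  `ord (S.eq η) = 1`, `ord (T.eq η) = ord (E.eq η) - 1 ≥ 1` (`mul_eq`, `inv_eq`, `ord_mul`, `ord_inv`).  If `S⁻¹` (or `T⁻¹`) was effective, `(S.eq η)⁻¹ ∈ O η`, so (`P.mem`, `ord_nonneg`, `ord_inv`) `- ord (S.eq η) ≥ 0`: a contradiction.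
-/

set_option autoImplicit false

namespace Pool.Agent.H83.TU

open Pool.Agent.H54.RV

variable {k K : Type} [Field k] [Field K] [Algebra k K] {X : Mod k K}

theorem split_of_ord (h : Hyp X) (D : Cart X) (P : PDiv X) (s : K) (hs : s ≠ 0) (hsec : Sec D 1 s)
    (h2 : 2 ≤ P.p.ord (s * D.eq P.η)) :
    ∃ S T : Cart X, Effective S ∧ Effective T ∧ ¬ Effective S⁻¹ ∧ ¬ Effective T⁻¹ ∧ S * T = prin X s hs * D := by
  obtain ⟨S, hSe, hS1, hSub⟩ := pdiv_cart h P
  set E : Cart X := prin X s hs * D with hE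
  have hEe : Effective E := by
    intro x
    have h1 := hsec x
    rw [pow_one] at h1
    exact h1
  have hEη : P.p.ord (E.eq P.η) = P.p.ord (s * D.eq P.η) := rfl
  have key : ∀ F : Cart X, 0 < P.p.ord (F.eq P.η) → ¬ Effective F⁻¹ := by
    intro F hF hinv
    have h1 := hinv P.η
    rw [inv_eq, P.mem, ← ord_nonneg P.p _ (inv_ne_zero (F.ne _)), ord_inv] at h1
    omega
  refine ⟨S, E * S⁻¹, hSe, hSub E hEe (by rw [hEη]; omega), key S (by omega), key _ ?_, ?_⟩
  · rw [mul_eq, inv_eq, ord_mul P.p _ _ (E.ne _) (inv_ne_zero (S.ne _)), ord_inv, hS1, hEη]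
    omega
  · rw [mul_comm, mul_assoc, inv_mul_cancel, mul_one]

end Pool.Agent.H83.TU
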