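import Pool.Agent.H83.TU.NV
import Pool.Agent.H83.DC.Real

/-!
# [H83 TU BN] Theorem U: from the numerical classes defined by curves to the map `ν`

`X` with `IsVar X`, an ample divisor, `b : LatB X 2` a basis of the lattice of the numerical classes `cl D`, and `NT X` (the sum of an ample divisor and a divisor with class `0` is ample).

* `exists_nu`: there is `ν` with `Num ν` and `cl D = pt b (cv ν D)` for all `D`.  PROOF.  `ν D = ofAdd (b.equivFun ⟨cl D, _⟩)` (`cl D ∈ Lat X`: `AddSubgroup.subset_closure`), a monoid homomorphism (`cl_mul`, `cl_one`).  `cl D = pt b (cv ν D)`: as in `int_pt` (`H54/RV/C4.lean`).  Surjective: `mem_Lat` (`H54/RV/C3.lean`): every element of `Lat X` is a `cl D`.  Kernel: `ν D = 1` iff `cl D = 0`.  If `cl D = 0` then `cl D⁻¹ = 0` (`cl_inv`), so `A * D`, `A * D⁻¹` are ample (`NT X`).  If `NumZ D`: let `A` be ample; `A * D ^ n` and `A * (D⁻¹) ^ n` are ample for all `n : ℕ` (induction), so for every curve `C`: `inter A C + n *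 inter D C ≥ 0` and `inter A C - n * inter D C ≥ 0` for all `n` (`ample_nonneg`, `inter_mul`, `inter_pow`, `inter_inv`), so `inter D C = 0`, and `cl D = 0` (`N1.ext'`, `cl_fn`, `fn_zero`).
* `pt_ampV`, `pt_effV`: `pt b` is linear (`pt_add`, `pt_smul`, `pt_sum` of `H83/DC/Real.lean`) and injective (`pt_bij`, `fd_of_basis`), and maps `∑ c i • cv ν (D i)` to `∑ c i • cl (D i)`.
* `pt_nefV`: `v ∈ closure (AmpV ν) ↔ pt b v ∈ NefC X`: `cl_ampR` (`H54/RV/C5.lean`), `ampR b = AmpV ν` as sets by `pt_ampV`.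
* `pt_effI`: `v ∈ interior (EffV ν) ↔ pt b v ∈ interior (EffC X)`: `pt_homeo` (`H54/RV/C4.lean`).
-/

set_option autoImplicit false

namespace Pool.Agent.H83.TU

open Pool.Agent.H54.RV Pool.Agent.H83.DC

variable {k K : Type} [Field k] [Field K] [Algebra k K] [IsAlgClosed k] [CharZero k] {X : Mod k K}

omit [IsAlgClosed k] [CharZero k] in
private theorem bn_num_pow (D : Cart X) (hD : NumZ D) (A : Cart X) (hA : Ample A) :
    ∀ m : ℕ, Ample (A * D ^ m) ∧ Ample (A * D⁻¹ ^ m) := by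
  intro m
  induction m with
  | zero => rw [pow_zero, pow_zero, mul_one]; exact ⟨hA, hA⟩
  | succ m ih =>
    refine ⟨?_, ?_⟩
    · rw [pow_succ, ← mul_assoc]
      exact (hD _ ih.1).1
    · rw [pow_succ, ← mul_assoc]
      exact (hD _ ih.2).2

private theorem bn_num (hX : IsVar X) (hA : ∃ D : Cart X, Ample D) (D : Cart X) (hD : NumZ D) :
    cl D = 0 := by
  obtain ⟨A, hA⟩ := hA
  refine N1.ext' fun C => ?_
  rw [fn_zero, cl_fn]
  have h1 : ∀ m : ℕ, 0 ≤ inter A C + m * inter D C ∧ 0 ≤ inter A C - m * inter D C := by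
    intro m
    obtain ⟨h2, h3⟩ := bn_num_pow D hD A hA m
    have h4 := ample_nonneg hX _ h2 C
    have h5 := ample_nonneg hX _ h3 C
    rw [inter_mul hX, inter_pow hX] at h4 h5
    rw [inter_inv hX] at h5
    exact ⟨h4, by linarith⟩
  have h2 : 0 ≤ inter A C := ample_nonneg hX A hA C
  obtain ⟨h3, h4⟩ := h1 ((inter A C).toNat + 1)
  push_cast at h3 h4
  rw [Int.toNat_of_nonneg h2] at h3 h4
  have h5 : inter D C = 0 := by nlinarith
  rw [h5, Int.cast_zero]

theorem exists_nu (hX : IsVar X) (hA : ∃ D : Cart X, Ample D) (hN : NT X) (b : LatB X 2) :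
    ∃ ν : Cart X →* Multiplicative (Fin 2 → ℤ), Num ν ∧ ∀ D, cl D = pt b (cv ν D) := by
  have hm : ∀ D : Cart X, cl D ∈ Lat X := fun D => AddSubgroup.subset_closure ⟨D, rfl⟩
  let ν : Cart X →* Multiplicative (Fin 2 → ℤ) :=
    { toFun := fun D => Multiplicative.ofAdd (b.equivFun ⟨cl D, hm D⟩)
      map_one' := by
        have h1 : (⟨cl (1 : Cart X), hm 1⟩ : Lat X) = 0 := Subtype.ext (cl_one hX)
        rw [h1, map_zero]
        rfl
      map_mul' := fun D E => by
        have h1 : (⟨cl (D * E), hm (D * E)⟩ : Lat X) = ⟨cl D, hm D⟩ + ⟨cl E, hm E⟩ :=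
          Subtype.ext (cl_mul hX D E)
        rw [h1, map_add]
        rfl }
  have hν : ∀ D, Multiplicative.toAdd (ν D) = b.equivFun ⟨cl D, hm D⟩ := fun D => rfl
  have hcl : ∀ D, cl D = pt b (cv ν D) := by
    intro D
    have h := congrArg (fun v : Lat X => (v : N1 X)) (b.sum_equivFun ⟨cl D, hm D⟩)
    simp only at h
    refine h.symm.trans ?_
    unfold pt cv
    rw [AddSubgroup.val_finsetSum]
    refine Finset.sum_congr rfl fun i _ => ?_
    exact (Int.cast_smul_eq_zsmul ℝ _ _).symm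
  refine ⟨ν, ⟨?_, ?_⟩, hcl⟩
  · intro s
    obtain ⟨D, hD⟩ := (mem_Lat hX ((b.equivFun.symm (Multiplicative.toAdd s) : Lat X) : N1 X)).1
      (b.equivFun.symm (Multiplicative.toAdd s)).2
    refine ⟨D, ?_⟩
    apply Multiplicative.toAdd.injective
    rw [hν]
    have h1 : (⟨cl D, hm D⟩ : Lat X) = b.equivFun.symm (Multiplicative.toAdd s) := Subtype.ext hD
    rw [h1, LinearEquiv.apply_symm_apply]
  · intro D
    have h1 : ν D = 1 ↔ cl D = 0 := by
      constructor
      · intro h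
        have h2 : b.equivFun ⟨cl D, hm D⟩ = 0 := by
          rw [← hν, h]
          rfl
        have h3 : (⟨cl D, hm D⟩ : Lat X) = 0 := (LinearEquiv.map_eq_zero_iff _).1 h2
        exact congrArg (fun v : Lat X => (v : N1 X)) h3
      · intro h
        apply Multiplicative.toAdd.injective
        rw [hν]
        have h3 : (⟨cl D, hm D⟩ : Lat X) = 0 := Subtype.ext h
        rw [h3, map_zero]
        rfl
    rw [h1]
    constructor
    · intro h A hA'
      refine ⟨hN A D hA' h, hN A D⁻¹ hA' ?_⟩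
      rw [cl_inv hX, h, neg_zero]
    · exact bn_num hX hA D

section

variable (hX : IsVar X) (b : LatB X 2) (ν : Cart X →* Multiplicative (Fin 2 → ℤ))
  (hb : ∀ D : Cart X, cl D = pt b (cv ν D))

include hX hb

theorem pt_ampV (v : Fin 2 → ℝ) : v ∈ AmpV ν ↔ pt b v ∈ AmpC X := by
  have := fd_of_basis hX b
  constructor
  · rintro ⟨m, c, D, hc, hD, rfl⟩
    refine ⟨m, c, D, hc, hD, ?_⟩
    rw [pt_sum]
    exact Finset.sum_congr rfl fun i _ => by rw [pt_smul, hb]
  · rintro ⟨m, c, D, hc, hD, h⟩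
    refine ⟨m, c, D, hc, hD, (pt_bij hX b).1 ?_⟩
    rw [h, pt_sum]
    exact Finset.sum_congr rfl fun i _ => by rw [pt_smul, hb]

theorem pt_effV (v : Fin 2 → ℝ) : v ∈ EffV ν ↔ pt b v ∈ EffC X := by
  have := fd_of_basis hX b
  constructor
  · rintro ⟨m, c, D, hc, hD, rfl⟩
    refine ⟨m, c, D, hc, hD, ?_⟩
    rw [pt_sum]
    exact Finset.sum_congr rfl fun i _ => by rw [pt_smul, hb]
  · rintro ⟨m, c, D, hc, hD, h⟩
    refine ⟨m, c, D, hc, hD, (pt_bij hX b).1 ?_⟩
    rw [h, pt_sum]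
    exact Finset.sum_congr rfl fun i _ => by rw [pt_smul, hb]

theorem pt_nefV (v : Fin 2 → ℝ) : v ∈ closure (AmpV ν) ↔ pt b v ∈ NefC X := by
  have := fd_of_basis hX b
  have hh := pt_homeo hX b
  have h1 := hh.isOpenMap.preimage_closure_eq_closure_preimage hh.continuous (AmpC X)
  have h2 : AmpV ν = pt b ⁻¹' AmpC X := Set.ext fun w => pt_ampV hX b ν hb w
  rw [h2, ← h1]
  rfl

theorem pt_effI (v : Fin 2 → ℝ) : v ∈ interior (EffV ν) ↔ pt b v ∈ interior (EffC X) := by
  have := fd_of_basis hX b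
  have hh := pt_homeo hX b
  have h1 := hh.isOpenMap.preimage_interior_eq_interior_preimage hh.continuous (EffC X)
  have h2 : EffV ν = pt b ⁻¹' EffC X := Set.ext fun w => pt_effV hX b ν hb w
  rw [h2, ← h1]
  rfl

end

end Pool.Agent.H83.TU
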