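import Pool.Agent.H83.TU.NV
import Pool.Agent.H57.KM.Basic
import Pool.Agent.H39.TU.CB
import Pool.Agent.H41.TU.Fin

/-!
# Theorem U, clause (I)
-/

set_option autoImplicit false

namespace Pool.Agent.H83.TU

open Pool.Agent.H57.KM Pool.Agent.H54.RV Pool.Agent.H39.TU

variable {k K : Type} [Field k] [Field K] [Algebra k K] [IsAlgClosed k] [CharZero k] {X : Mod k K}

/-- the indecomposable classes near an irrational boundary ray which is not big have few sections -/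
def ClauseA (ν : Cart X →* Multiplicative (Fin 2 → ℤ)) (p : V 2) : Prop :=
  ∀ θ : ℝ, 0 < θ → ∃ (N : ℕ) (U : Set (V 2)), IsOpen U ∧ p ∈ U ∧
    ∀ D : Cart X, Indec ν D → (∃ t : ℝ, 0 < t ∧ t • cv ν D ∈ U) →
      (h0 D 1 : ℝ) ≤ max (N : ℝ) ((1 + θ) * vol D)

/-- no lower bound of the number of sections by the volume plus a linear form -/
def ClauseB (ν : Cart X →* Multiplicative (Fin 2 → ℤ)) (p : V 2) : Prop :=
  ∀ ξ : V 2 →ₗ[ℝ] ℝ, 0 < ξ p → ∀ U : Set (V 2), IsOpen U → p ∈ U →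
    ∃ D : Cart X, Ample D ∧ (∃ t : ℝ, 0 < t ∧ t • cv ν D ∈ U) ∧ (h0 D 1 : ℝ) < vol D + ξ (cv ν D)

theorem clauseI (h : Hyp X) (hsm : ∀ x, SmP X x) (ν : Cart X →* Multiplicative (Fin 2 → ℤ)) (hν : Num ν)
    (p : V 2) (hp : p ∈ closure (AmpV ν)) (hb : p ∉ interior (EffV ν))
    (hr : ∀ (t : ℝ) (s : Fin 2 → ℤ), t ≠ 0 → t • p ≠ toR s) : ClauseA ν p ∧ ClauseB ν p :=
  Pool.Agent.H41.TU.fin_ab h hsm ν hν p hp hb fun t ht s => hr t s ht

end Pool.Agent.H83.TU
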