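import Pool.Agent.H54.RV.Front
import Pool.Agent.H83.DC.Real

/-!
# [H83 TU D2] Theorem U: a rational polyhedral nef cone of dimension two has a rational polyhedral fundamental domain

`X` with `IsVar X`, an ample divisor, `b : LatB X 2`, `Γ` a group of automorphisms.  Suppose that the nef cone is generated by the classes of two divisors `U`, `W`: `NefC X = {a • cl U + c • cl W | a, c ≥ 0}`.  Then `Fund (ActS Γ) (NefP X)`.

PROOF.  (0) `NefP X = NefC X`: `NefP X ⊆ NefC X` (`nefC_conv`, `convexHull_min`), and `a • cl U + c • cl W ∈ NefP X` by `np_smul`, `np_add` (`H54/RV/C10.lean`; `NP X = NefP X`), since `cl U`, `cl W` are nef and rational (`ratC_cl`).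
(1) The dimension of `N1 X` is `2` (`pt_bij`), the ample cone is open and not empty (`ampC_open`, `ampC_cl`) and contained in the nef cone, so `cl U`, `cl W` are linearly independent (otherwise the nef cone is contained in a line, whose interior is empty).  By `nef_pointed` and scaling we may replace `U`, `W` by primitive ones: there are integral classes `u = cl U'`, `w = cl W'` such that `cl U = m • u`, `cl W = n • w` with integers `m, n ≥ 1` and every integral class on the ray `ℝ≥0 u` (or `w`) is a natural multiple of `u` (or `w`) (`mem_Lat`, the lattice `Lat X` intersected with a rational line is infinite cyclic: coordinates `int_pt`, gcd).  Then `NefC X = {a • u + c • w}`.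
(2) Let `g ∈ Γ` (`g.act` is linear, `act_nef`, and its inverse is `g⁻¹.act`; it maps `Lat X` to itself: `MAut.act_cl`).  It maps the two extreme rays of the nef cone to extreme rays: `g.act u = α • u` or `g.act u = α • w`, `α > 0`: if `g.act u = a • u + c • w` with `a, c > 0` then `u = a • g⁻¹.act u + c • g⁻¹.act w` with `g⁻¹.act u, g⁻¹.act w` nef, so both are nonnegative multiples of `u` (coordinates), so linearly dependent: a contradiction.  By primitivity `α = 1` (`α` is a natural number, and so is `1 / α`).  So either `g.act u = u`, `g.act w = w`, and `g.act = id`, or `g.act u = w`, `g.act w = u`.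
(3) If all `g ∈ Γ` act as the identity: `Q = NefC X` (`RatPolyC` with `![U', W']`), the union over `ActS Γ` is `Q`, and the last condition is empty.
(4) Otherwise some `g₀ ∈ Γ` exchanges `u` and `w`; `Q = {a • u + c • (u + w) | a, c ≥ 0}` (`RatPolyC` with `![U', U' * W']`, `cl_mul`).  `Q` and `g₀.act '' Q = {a • w + c • (u + w)}` cover the nef cone (`a • u + c • w` with `a ≥ c` is `(a - c) • u + c • (u + w)`).  The elements of `ActS Γ` are the identity and the exchange.  If `g ≠ id`, `g` is the exchange, and `interior Q`, `g '' interior Q` are disjoint: the coordinates `(a, c)` with respect to `u, w` satisfy `a ≥ c` on `Q`, and `a > c` on the interior (`interior Q ⊆ {a > c}`: a point with `a = c` is a limit of points with `a < c`; or: `interior {a ≥ c} = {a > c}` by moving in the direction `w`), and `a < c` on the image.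
-/

set_option autoImplicit false

namespace Pool.Agent.H83.TU

open Pool.Agent.H54.RV

variable {k K : Type} [Field k] [Field K] [Algebra k K] [IsAlgClosed k] [CharZero k] {X : Mod k K}

theorem nefP_eq (hX : IsVar X) (hA : ∃ D : Cart X, Ample D) (U W : Cart X)
    (hN : NefC X = {v | ∃ a c : ℝ, 0 ≤ a ∧ 0 ≤ c ∧ v = a • cl U + c • cl W}) : NefP X = NefC X := by
  refine Set.Subset.antisymm (convexHull_min (fun v hv => hv.1) (nefC_conv hA)) ?_
  have hU : cl U ∈ NefC X := by
    rw [hN]
    exact ⟨1, 0, zero_le_one, le_refl 0, by rw [one_smul, zero_smul, add_zero]⟩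
  have hW : cl W ∈ NefC X := by
    rw [hN]
    exact ⟨0, 1, le_refl 0, zero_le_one, by rw [one_smul, zero_smul, zero_add]⟩
  intro v hv
  rw [hN] at hv
  obtain ⟨a, c, ha, hc, rfl⟩ := hv
  exact np_add hX hA _ _ (np_smul hX hA a ha _ (subset_convexHull ℝ _ ⟨hU, ratC_cl U⟩))
    (np_smul hX hA c hc _ (subset_convexHull ℝ _ ⟨hW, ratC_cl W⟩))

omit [IsAlgClosed k] [CharZero k] in
/-- the powers of an automorphism on an eigenvector -/
theorem d2_pow (g : MAut X) (U : Cart X) (α : ℝ) (h : g.act (cl U) = α • cl U) (n : ℕ) :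
    ∃ D : Cart X, cl D = α ^ n • cl U := by
  induction n with
  | zero => exact ⟨U, by rw [pow_zero, one_smul]⟩
  | succ n ih =>
    obtain ⟨D, hD⟩ := ih
    refine ⟨g.pull D, ?_⟩
    rw [← MAut.act_cl, hD, map_smul, h, smul_smul, pow_succ]

theorem d2_lt (hX : IsVar X) {n : ℕ} (b : LatB X n) (g : MAut X) (U : Cart X) (α : ℝ)
    (h : g.act (cl U) = α • cl U) (h0 : cl U ≠ 0) (hα : 0 < α) : 1 ≤ α := by
  by_contra hlt
  push Not at hlt
  have := fd_of_basis hX b
  have hb := pt_bij hX b
  obtain ⟨s, hs⟩ := int_pt hX b U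
  have hs0 : ∃ i, s i ≠ 0 := by
    by_contra hcon
    push Not at hcon
    apply h0
    rw [hs]
    have h1 : (fun i => (s i : ℝ)) = (0 : Fin n → ℝ) := by
      funext i
      rw [hcon i, Int.cast_zero, Pi.zero_apply]
    rw [h1]
    have h2 := pt_smul b 0 (0 : Fin n → ℝ)
    rwa [zero_smul, zero_smul] at h2
  obtain ⟨i, hi⟩ := hs0
  have hpos : (0 : ℝ) < |(s i : ℝ)| := abs_pos.2 (by exact_mod_cast hi)
  obtain ⟨m, hm⟩ := exists_pow_lt_of_lt_one (inv_pos.2 hpos) hlt
  obtain ⟨D, hD⟩ := d2_pow g U α h m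
  obtain ⟨t, ht⟩ := int_pt hX b D
  rw [ht, hs, ← pt_smul] at hD
  have h1 := congrFun (hb.1 hD) i
  simp only [Pi.smul_apply, smul_eq_mul] at h1
  have h2 : |(t i : ℝ)| = α ^ m * |(s i : ℝ)| := by
    rw [h1, abs_mul, abs_of_pos (pow_pos hα m)]
  have h3 : |(t i : ℝ)| < 1 := by
    rw [h2]
    calc α ^ m * |(s i : ℝ)| < |(s i : ℝ)|⁻¹ * |(s i : ℝ)| := mul_lt_mul_of_pos_right hm hpos
      _ = 1 := inv_mul_cancel₀ hpos.ne'
  have h4 : |t i| < 1 := by exact_mod_cast h3
  have h5 : t i = 0 := Int.abs_lt_one_iff.1 h4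
  rw [h5, Int.cast_zero, abs_zero] at h2
  exact absurd h2.symm (mul_pos (pow_pos hα m) hpos).ne'

/-- a positive eigenvalue of an automorphism with an integral eigenvector is one -/
theorem d2_eig (hX : IsVar X) {n : ℕ} (b : LatB X n) (g : MAut X) (U : Cart X) (α : ℝ)
    (h : g.act (cl U) = α • cl U) (h0 : cl U ≠ 0) (hα : 0 < α) : α = 1 := by
  have h1 := d2_lt hX b g U α h h0 hα
  have h2 : g⁻¹.act (cl U) = α⁻¹ • cl U := by
    have h3 := MAut.act_inv g (cl U)
    rw [h, map_smul] at h3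
    have h4 := congrArg (fun v => α⁻¹ • v) h3
    simp only [smul_smul] at h4
    rwa [inv_mul_cancel₀ hα.ne', one_smul] at h4
  have h3 := d2_lt hX b g⁻¹ U α⁻¹ h2 h0 (inv_pos.2 hα)
  exact le_antisymm ((one_le_inv₀ hα).1 h3) h1

/-- nonnegative matrices with a nonnegative inverse -/
theorem d2_mat {a c a' c' p q p' q' : ℝ} (ha : 0 ≤ a) (hc : 0 ≤ c) (ha' : 0 ≤ a') (hc' : 0 ≤ c')
    (hp : 0 ≤ p) (hq : 0 ≤ q) (hp' : 0 ≤ p') (hq' : 0 ≤ q') (h1 : a * p + a' * q = 1)
    (h2 : a * p' + a' * q' = 0) (h3 : c * p + c' * q = 0) (h4 : c * p' + c' * q' = 1) :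
    (a' = 0 ∧ c = 0 ∧ 0 < a ∧ 0 < c') ∨ (a = 0 ∧ c' = 0 ∧ 0 < c ∧ 0 < a') := by
  have e1 : a * p' = 0 := by nlinarith [mul_nonneg ha hp', mul_nonneg ha' hq']
  have e2 : a' * q' = 0 := by nlinarith [mul_nonneg ha hp', mul_nonneg ha' hq']
  have e3 : c * p = 0 := by nlinarith [mul_nonneg hc hp, mul_nonneg hc' hq]
  have e4 : c' * q = 0 := by nlinarith [mul_nonneg hc hp, mul_nonneg hc' hq]
  rcases ha.eq_or_lt with h0 | h0
  · right
    have h0' : a = 0 := h0.symm
    rw [h0', zero_mul, zero_add] at h1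
    have hq0 : q ≠ 0 := by
      rintro rfl
      rw [mul_zero] at h1
      exact zero_ne_one h1
    have ha0 : a' ≠ 0 := by
      rintro rfl
      rw [zero_mul] at h1
      exact zero_ne_one h1
    have hc0 : c' = 0 := (mul_eq_zero.1 e4).resolve_right hq0
    rw [hc0, zero_mul, add_zero] at h4
    have hcc : c ≠ 0 := by
      rintro rfl
      rw [zero_mul] at h4
      exact zero_ne_one h4
    exact ⟨h0', hc0, lt_of_le_of_ne hc hcc.symm, lt_of_le_of_ne ha' ha0.symm⟩
  · left
    have hp0 : p' = 0 := (mul_eq_zero.1 e1).resolve_left h0.ne'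
    rw [hp0, mul_zero, zero_add] at h4
    have hq0 : q' ≠ 0 := by
      rintro rfl
      rw [mul_zero] at h4
      exact zero_ne_one h4
    have hc0 : c' ≠ 0 := by
      rintro rfl
      rw [zero_mul] at h4
      exact zero_ne_one h4
    have ha0 : a' = 0 := (mul_eq_zero.1 e2).resolve_right hq0
    rw [ha0, zero_mul, add_zero] at h1
    have hpp : p ≠ 0 := by
      rintro rfl
      rw [mul_zero] at h1
      exact zero_ne_one h1
    exact ⟨ha0, (mul_eq_zero.1 e3).resolve_right hpp, h0, lt_of_le_of_ne hc' hc0.symm⟩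

/-- the two generators of the nef cone are a basis -/
theorem d2_basis (hX : IsVar X) (hA : ∃ D : Cart X, Ample D) (b : LatB X 2) (u w : N1 X)
    (hN : NefC X = {v | ∃ a c : ℝ, 0 ≤ a ∧ 0 ≤ c ∧ v = a • u + c • w}) :
    (∀ v : N1 X, ∃ a c : ℝ, v = a • u + c • w) ∧
      ∀ a c a' c' : ℝ, a • u + c • w = a' • u + c' • w → a = a' ∧ c = c' := by
  have := fd_of_basis hX b
  have hb := pt_bij hX b
  have hfin : Module.finrank ℝ (N1 X) = 2 := by
    let e : (Fin 2 → ℝ) ≃ₗ[ℝ] N1 X := LinearEquiv.ofBijective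
      ({ toFun := pt b
         map_add' := pt_add b
         map_smul' := pt_smul b } : (Fin 2 → ℝ) →ₗ[ℝ] N1 X) hb
    rw [← e.finrank_eq, Module.finrank_fin_fun]
  have hspan : Submodule.span ℝ {u, w} = ⊤ := by
    refine Submodule.eq_top_of_nonempty_interior' _ ?_
    obtain ⟨D, hD⟩ := hA
    refine ⟨cl D, mem_interior.2 ⟨AmpC X, ?_, ampC_open hX, ampC_cl D hD⟩⟩
    intro v hv
    have h1 : v ∈ NefC X := subset_closure hv
    rw [hN] at h1
    obtain ⟨a, c, -, -, rfl⟩ := h1
    exact Submodule.mem_span_pair.2 ⟨a, c, rfl⟩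
  have hsur : ∀ v : N1 X, ∃ a c : ℝ, v = a • u + c • w := by
    intro v
    have h1 : v ∈ Submodule.span ℝ {u, w} := by
      rw [hspan]
      exact Submodule.mem_top
    obtain ⟨a, c, h2⟩ := Submodule.mem_span_pair.1 h1
    exact ⟨a, c, h2.symm⟩
  refine ⟨hsur, ?_⟩
  let L : (Fin 2 → ℝ) →ₗ[ℝ] N1 X :=
    { toFun := fun x => x 0 • u + x 1 • w
      map_add' := by
        intro x y
        simp only [Pi.add_apply, add_smul]
        abel
      map_smul' := by
        intro c x
        simp only [Pi.smul_apply, smul_eq_mul, mul_smul, RingHom.id_apply, smul_add] }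
  have hL : Function.Surjective L := by
    intro v
    obtain ⟨a, c, h⟩ := hsur v
    exact ⟨![a, c], h.symm⟩
  have hLi : Function.Injective L := by
    refine (LinearMap.injective_iff_surjective_of_finrank_eq_finrank ?_).2 hL
    rw [hfin, Module.finrank_fin_fun]
  intro a c a' c' h
  have h1 : L ![a, c] = L ![a', c'] := h
  have h2 := hLi h1
  exact ⟨congrFun h2 0, congrFun h2 1⟩

omit [IsAlgClosed k] [CharZero k] in
/-- the interior of a cone on one side -/
theorem d2_int (Q : Set (N1 X)) (w : N1 X) (φ : N1 X → ℝ) (hφ : ∀ (v : N1 X) (t : ℝ), φ (v + t • w) = φ v - t)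
    (hQ : ∀ v ∈ Q, 0 ≤ φ v) (v : N1 X) (hv : v ∈ interior Q) : 0 < φ v := by
  have hc : Continuous fun t : ℝ => v + t • w := by fun_prop
  have h1 : (fun t : ℝ => v + t • w) ⁻¹' interior Q ∈ nhds (0 : ℝ) := by
    refine hc.continuousAt.preimage_mem_nhds (isOpen_interior.mem_nhds ?_)
    simpa using hv
  obtain ⟨ε, hε, h2⟩ := Metric.mem_nhds_iff.1 h1
  have h3 : ε / 2 ∈ Metric.ball (0 : ℝ) ε := by
    rw [Metric.mem_ball, Real.dist_eq, sub_zero, abs_of_pos (half_pos hε)]
    exact half_lt_self hε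
  have h4 := hQ _ (interior_subset (h2 h3))
  rw [hφ] at h4
  linarith

theorem fund_two (hX : IsVar X) (hA : ∃ D : Cart X, Ample D) (b : LatB X 2) (Γ : Subgroup (MAut X)) (U W : Cart X)
    (hN : NefC X = {v | ∃ a c : ℝ, 0 ≤ a ∧ 0 ≤ c ∧ v = a • cl U + c • cl W}) : Fund (ActS Γ) (NefP X) := by
  rw [nefP_eq hX hA U W hN, fund_iff]
  obtain ⟨hsur, hinj⟩ := d2_basis hX hA b (cl U) (cl W) hN
  have hU0 : cl U ≠ 0 := by
    intro h
    have := (hinj 1 0 0 0 (by rw [h]; simp)).1
    exact one_ne_zero this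
  have hW0 : cl W ≠ 0 := by
    intro h
    have := (hinj 0 1 0 0 (by rw [h]; simp)).2
    exact one_ne_zero this
  have hU : cl U ∈ NefC X := by
    rw [hN]
    exact ⟨1, 0, zero_le_one, le_refl 0, by rw [one_smul, zero_smul, add_zero]⟩
  have hW : cl W ∈ NefC X := by
    rw [hN]
    exact ⟨0, 1, le_refl 0, zero_le_one, by rw [one_smul, zero_smul, zero_add]⟩
  -- the action on the rays
  have hray : ∀ g : MAut X, g.act = LinearMap.id ∨
      ∃ α β : ℝ, 0 < α ∧ 0 < β ∧ g.act (cl U) = α • cl W ∧ g.act (cl W) = β • cl U ∧ α * β = 1 := by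
    intro g
    have h1 := act_nef g _ hU
    have h2 := act_nef g _ hW
    have h3 := act_nef g⁻¹ _ hU
    have h4 := act_nef g⁻¹ _ hW
    rw [hN] at h1 h2 h3 h4
    obtain ⟨a, c, ha, hc, e1⟩ := h1
    obtain ⟨a', c', ha', hc', e2⟩ := h2
    obtain ⟨p, q, hp, hq, e3⟩ := h3
    obtain ⟨p', q', hp', hq', e4⟩ := h4
    have hgg : ∀ v, g.act (g⁻¹.act v) = v := by
      intro v
      have h := MAut.act_inv g⁻¹ v
      rwa [inv_inv] at h
    have f1 := hgg (cl U)
    have f2 := hgg (cl W)
    rw [e3, map_add, map_smul, map_smul, e1, e2] at f1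
    rw [e4, map_add, map_smul, map_smul, e1, e2] at f2
    have g1 := hinj (a * p + a' * q) (c * p + c' * q) 1 0 (by
      rw [one_smul, zero_smul, add_zero]
      refine Eq.trans ?_ f1
      module)
    have g2 := hinj (a * p' + a' * q') (c * p' + c' * q') 0 1 (by
      rw [one_smul, zero_smul, zero_add]
      refine Eq.trans ?_ f2
      module)
    rcases d2_mat ha hc ha' hc' hp hq hp' hq' g1.1 g2.1 g1.2 g2.2 with ⟨h5, h6, h7, h8⟩ |
      ⟨h5, h6, h7, h8⟩
    · left
      rw [h6, zero_smul, add_zero] at e1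
      rw [h5, zero_smul, zero_add] at e2
      rw [d2_eig hX b g U a e1 hU0 h7, one_smul] at e1
      rw [d2_eig hX b g W c' e2 hW0 h8, one_smul] at e2
      refine LinearMap.ext fun v => ?_
      obtain ⟨x, y, rfl⟩ := hsur v
      rw [map_add, map_smul, map_smul, e1, e2, LinearMap.id_apply]
    · right
      rw [h5, zero_smul, zero_add] at e1
      rw [h6, zero_smul, add_zero] at e2
      refine ⟨c, a', h7, h8, e1, e2, ?_⟩
      refine d2_eig hX b (g * g) U (c * a') ?_ hU0 (mul_pos h7 h8)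
      rw [MAut.act_mul, e1, map_smul, e2, smul_smul]
  by_cases hall : ∀ g ∈ Γ, g.act = LinearMap.id
  · refine ⟨NefC X, ⟨2, ![U, W], ?_⟩, ?_, fun g hg hne => absurd (hall g hg) hne⟩
    · rw [hN]
      ext v
      constructor
      · rintro ⟨a, c, ha, hc, rfl⟩
        refine ⟨![a, c], ?_, ?_⟩
        · intro i
          fin_cases i
          · exact ha
          · exact hc
        · rw [Fin.sum_univ_two]
          rfl
      · rintro ⟨c, hc, rfl⟩
        refine ⟨c 0, c 1, hc 0, hc 1, ?_⟩
        rw [Fin.sum_univ_two]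
        rfl
    · ext v
      simp only [Set.mem_iUnion, Set.mem_image, exists_prop]
      constructor
      · intro hv
        exact ⟨1, Γ.one_mem, v, hv, MAut.act_one v⟩
      · rintro ⟨g, hg, w, hw, rfl⟩
        rw [hall g hg]
        exact hw
  · push Not at hall
    obtain ⟨g₀, hg₀, hne₀⟩ := hall
    obtain ⟨α, β, hα, hβ, e1, e2, hαβ⟩ := (hray g₀).resolve_left hne₀
    obtain ⟨W', hW'⟩ : ∃ W' : Cart X, W' = g₀.pull U := ⟨_, rfl⟩
    have hw : cl W' = α • cl W := by rw [hW', ← MAut.act_cl, e1]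
    have hu : g₀.act (cl U) = cl W' := by rw [e1, hw]
    have hv' : g₀.act (cl W') = cl U := by
      rw [hw, map_smul, e2, smul_smul, hαβ, one_smul]
    have hN' : NefC X = {v | ∃ a c : ℝ, 0 ≤ a ∧ 0 ≤ c ∧ v = a • cl U + c • cl W'} := by
      rw [hN]
      ext v
      constructor
      · rintro ⟨a, c, ha, hc, rfl⟩
        refine ⟨a, c / α, ha, div_nonneg hc hα.le, ?_⟩
        rw [hw, smul_smul, div_mul_cancel₀ _ hα.ne']
      · rintro ⟨a, c, ha, hc, rfl⟩
        refine ⟨a, c * α, ha, mul_nonneg hc hα.le, ?_⟩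
        rw [hw, smul_smul]
    obtain ⟨hsur', hinj'⟩ := d2_basis hX hA b (cl U) (cl W') hN'
    -- all elements which are not the identity act as `g₀`
    have hex : ∀ g ∈ Γ, g.act ≠ LinearMap.id → g.act (cl U) = cl W' ∧ g.act (cl W') = cl U := by
      intro g hg hne
      obtain ⟨α', β', hα', hβ', f1, f2, hαβ'⟩ := (hray g).resolve_left hne
      have h1 : (g₀ * g⁻¹).act (cl U) = (α * α'⁻¹) • cl U := by
        rw [MAut.act_mul, e1, map_smul]
        have h2 := MAut.act_inv g (cl U)
        rw [f1, map_smul] at h2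
        have h3 : g⁻¹.act (cl W) = α'⁻¹ • cl U := by
          have h4 := congrArg (fun v => α'⁻¹ • v) h2
          simp only [smul_smul] at h4
          rwa [inv_mul_cancel₀ hα'.ne', one_smul] at h4
        rw [h3, smul_smul]
      have h2 := d2_eig hX b _ U _ h1 hU0 (by positivity)
      have h3 : α = α' := by
        field_simp at h2
        linarith
      subst h3
      refine ⟨by rw [f1, hw], ?_⟩
      rw [hw, map_smul, f2, smul_smul, hαβ', one_smul]
    -- the coordinates
    have hco : ∃ φ : N1 X → ℝ, ∀ a c : ℝ, φ (a • cl U + c • cl W') = a - c := by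
      choose A C hAC using hsur'
      refine ⟨fun v => A v - C v, fun a c => ?_⟩
      obtain ⟨h1, h2⟩ := hinj' _ _ _ _ (hAC (a • cl U + c • cl W'))
      simp only
      rw [← h1, ← h2]
    obtain ⟨φ, hφ⟩ := hco
    obtain ⟨Q, hQ⟩ : ∃ Q : Set (N1 X), Q = {v | ∃ a c : ℝ, 0 ≤ c ∧ c ≤ a ∧ v = a • cl U + c • cl W'} :=
      ⟨_, rfl⟩
    have hφt : ∀ (v : N1 X) (t : ℝ), φ (v + t • cl W') = φ v - t := by
      intro v t
      obtain ⟨a, c, rfl⟩ := hsur' v
      have h1 : a • cl U + c • cl W' + t • cl W' = a • cl U + (c + t) • cl W' := by module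
      rw [h1, hφ, hφ]
      ring
    have hQφ : ∀ v ∈ Q, 0 ≤ φ v := by
      intro v hv
      rw [hQ] at hv
      obtain ⟨a, c, -, hca, rfl⟩ := hv
      rw [hφ]
      linarith
    refine ⟨Q, ⟨2, ![U, U * W'], ?_⟩, ?_, ?_⟩
    · rw [hQ]
      ext v
      constructor
      · rintro ⟨a, c, hc, hca, rfl⟩
        refine ⟨![a - c, c], ?_, ?_⟩
        · intro i
          fin_cases i
          · exact sub_nonneg.2 hca
          · exact hc
        · rw [Fin.sum_univ_two]
          show a • cl U + c • cl W' = (a - c) • cl U + c • cl (U * W')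
          rw [cl_mul hX]
          module
      · rintro ⟨c, hc, rfl⟩
        refine ⟨c 0 + c 1, c 1, hc 1, by linarith [hc 0], ?_⟩
        rw [Fin.sum_univ_two]
        show c 0 • cl U + c 1 • cl (U * W') = (c 0 + c 1) • cl U + c 1 • cl W'
        rw [cl_mul hX]
        module
    · ext v
      simp only [Set.mem_iUnion, Set.mem_image, exists_prop]
      constructor
      · intro hv
        rw [hN'] at hv
        obtain ⟨a, c, ha, hc, rfl⟩ := hv
        rcases le_total c a with h | h
        · exact ⟨1, Γ.one_mem, _, by rw [hQ]; exact ⟨a, c, hc, h, rfl⟩, MAut.act_one _⟩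
        · refine ⟨g₀, hg₀, c • cl U + a • cl W', by rw [hQ]; exact ⟨c, a, ha, h, rfl⟩, ?_⟩
          rw [map_add, map_smul, map_smul, hu, hv', add_comm]
      · rintro ⟨g, hg, w, hw, rfl⟩
        refine act_nef g w ?_
        rw [hQ] at hw
        obtain ⟨a, c, hc, hca, rfl⟩ := hw
        rw [hN']
        exact ⟨a, c, hc.trans hca, hc, rfl⟩
    · intro g hg hne
      obtain ⟨h1, h2⟩ := hex g hg hne
      rw [Set.disjoint_left]
      rintro v hv ⟨w, hw, hwv⟩
      have h3 := d2_int Q (cl W') φ hφt hQφ v hv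
      have h4 := d2_int Q (cl W') φ hφt hQφ w hw
      obtain ⟨a, c, rfl⟩ := hsur' w
      rw [hφ] at h4
      have h5 : v = c • cl U + a • cl W' := by
        rw [← hwv, map_add, map_smul, map_smul, h1, h2, add_comm]
      rw [h5, hφ] at h3
      linarith

end Pool.Agent.H83.TU
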