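import Pool.Agent.H54.RV.A4

/-!
# [H83 TU PF1] Theorem U: the sum of the orders of zero, with residue degrees, over any field of characteristic `0`

The same as `H54/RV/A4.lean`, without the hypothesis that `k` is algebraically closed; the inertia degrees are kept.
* `pf_gen`: as `a4_gen` (private there, copy the proof) without the hypothesis `hk`; each summand is multiplied by `P.asIdeal.inertiaDeg A` (do not prove that it is `1`; the rest of the proof is the same, `Ideal.sum_ramification_inertia_eq_finrank`).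
* `pf_ded`: as `a4_ded` (its proof does not use that `k` is algebraically closed).
* `pf_sum`: as `a4_sum`: for `A = Algebra.adjoin k {f}`, `B = BB k f`, `a = (f) ∈ A`: `finrank A B = finrank k⟮f⟯ κ`.  Here the inertia degree is replaced by `finrank k (B ⧸ P)`: `inertiaDeg A = finrank (A ⧸ p) (B ⧸ P)` for `p = (f)` (`Ideal.inertiaDeg_eq_of_isMaximal p P`, as in `a4_gen`), and `k → A ⧸ p` is bijective (`a3_max`), so `finrank k (B ⧸ P) = finrank (A ⧸ p) (B ⧸ P)` (`Module.finrank_mul_finrank k (A ⧸ p) (B ⧸ P)` with `finrank k (A ⧸ p) = 1`, scalar tower; or `LinearEquiv` for the bijection).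
* `pf_quo_fin`: `B ⧸ P` is finite over `k` for `P ∋ f`: `B` is a finite `A`-module (`IsIntegralClosure.finite`), so `B ⧸ P` is finite over `A ⧸ p`, which is `k`.
-/

set_option autoImplicit false

namespace Pool.Agent.H83.TU

open IntermediateField IsDedekindDomain Pool.Agent.H54.RV

theorem pf_gen {A B κ : Type} [CommRing A] [IsDomain A] [CommRing B] [IsDedekindDomain B]
    [Algebra A B] [Module.Finite A B] [Module.Flat A B] [FaithfulSMul A B] [Field κ] [Algebra B κ]
    [IsFractionRing B κ] (f : A) (hmax : (Ideal.span {f}).IsMaximal) (hf : f ≠ 0) :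
    ∃ S : Finset (HeightOneSpectrum B), (∀ P, P ∈ S ↔ algebraMap A B f ∈ P.asIdeal) ∧
      ∑ P ∈ S, WithZero.log (P.valuation κ (algebraMap B κ (algebraMap A B f)))⁻¹ * (P.asIdeal.inertiaDeg A : ℤ) =
        (Module.finrank A B : ℤ) := by
  classical
  set p : Ideal A := Ideal.span {f} with hp
  have hfB : algebraMap A B f ≠ 0 := by
    intro h
    apply hf
    apply FaithfulSMul.algebraMap_injective A B
    rw [h, map_zero]
  have hmap : p.map (algebraMap A B) = Ideal.span {algebraMap A B f} := by
    rw [hp, Ideal.map_span, Set.image_singleton]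
  have hmap0 : p.map (algebraMap A B) ≠ ⊥ := by
    rw [hmap]
    intro h
    rw [Ideal.span_singleton_eq_bot] at h
    exact hfB h
  have hp0 : p ≠ ⊥ := by
    intro h
    rw [hp, Ideal.span_singleton_eq_bot] at h
    exact hf h
  -- primes over p
  have hover : ∀ P : HeightOneSpectrum B, algebraMap A B f ∈ P.asIdeal → P.asIdeal.LiesOver p := by
    intro P hP
    constructor
    have hle : p ≤ P.asIdeal.under A := by
      rw [hp, Ideal.span_le]
      intro x hx
      rw [Set.mem_singleton_iff] at hx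
      rw [hx]
      exact hP
    have hne : P.asIdeal.under A ≠ ⊤ := by
      have := P.isPrime
      exact (Ideal.IsPrime.under A P.asIdeal).ne_top
    exact hmax.eq_of_le hne hle
  have hover' : ∀ Q : Ideal B, Q ∈ p.primesOver B → algebraMap A B f ∈ Q := by
    intro Q hQ
    have h1 : p = Q.under A := hQ.2.over
    have h2 : f ∈ p := by
      rw [hp]
      exact Ideal.mem_span_singleton_self f
    rw [h1] at h2
    exact h2
  have hne : ∀ Q : Ideal B, Q ∈ p.primesOver B → Q ≠ ⊥ := by
    intro Q hQ h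
    have := hover' Q hQ
    rw [h, Ideal.mem_bot] at this
    exact hfB this
  let toH : p.primesOver B → HeightOneSpectrum B := fun Q => ⟨Q.1, Q.2.1, hne Q.1 Q.2⟩
  have hinj : Function.Injective toH := by
    intro Q R h
    apply Subtype.ext
    exact congrArg HeightOneSpectrum.asIdeal h
  have hpr : p.IsPrime := hmax.isPrime
  have key := Ideal.sum_ramification_inertia_eq_finrank (R := A) (S := B) p
  refine ⟨Finset.univ.image toH, ?_, ?_⟩
  · intro P
    rw [Finset.mem_image]
    constructor
    · rintro ⟨Q, -, rfl⟩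
      exact hover' Q.1 Q.2
    · intro hP
      exact ⟨⟨P.asIdeal, P.isPrime, hover P hP⟩, Finset.mem_univ _, rfl⟩
  · rw [Finset.sum_image (fun x _ y _ h => hinj h)]
    rw [← key]
    push_cast
    apply Finset.sum_congr rfl
    intro Q _
    have hQp : Q.1.IsPrime := Q.2.1
    have hQo : Q.1.LiesOver p := Q.2.2
    have hQm : Q.1.IsMaximal := hQp.isMaximal (hne Q.1 Q.2)
    rw [Ideal.IsDedekindDomain.ramificationIdx_eq_multiplicity p Q.1 hmap0, hmap]
    rw [HeightOneSpectrum.valuation_of_algebraMap, HeightOneSpectrum.intValuation_eq_exp_neg_multiplicity _ hfB]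
    simp [toH]

variable {k κ : Type} [Field k] [Field κ] [Algebra k κ] [CharZero k]

open scoped IntermediateField.algebraAdjoinAdjoin in
theorem pf_ded (htr : Algebra.trdeg k κ = 1) (hfg : (⊤ : IntermediateField k κ).FG) (f : κ)
    (hf : Transcendental k f) : IsDedekindDomain (BB k f) ∧ IsFractionRing (BB k f) κ := by
  have h1 := a3_fin htr hfg f hf
  have h2 := a3_pid f hf
  have h3 : IsDedekindDomain (Algebra.adjoin k {f}) := inferInstance
  have h4 : CharZero k⟮f⟯ := charZero_of_injective_algebraMap (algebraMap k k⟮f⟯).injective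
  have h5 : Algebra.IsSeparable k⟮f⟯ κ := inferInstance
  refine ⟨integralClosure.isDedekindDomain (Algebra.adjoin k {f}) k⟮f⟯ κ, ?_⟩
  exact integralClosure.isFractionRing_of_finite_extension k⟮f⟯ κ

/-- `B / P` is finite over `k`, of dimension the inertia degree of `P` over `k[f]` -/
private theorem pf1_quo {A B : Type} [CommRing A] [CommRing B] [Algebra A B] [Module.Finite A B]
    [Algebra k A] [Algebra k B] [IsScalarTower k A B] (f : A) (hmax : (Ideal.span {f}).IsMaximal)
    (hq : ∀ a : A, ∃ c : k, a - algebraMap k A c ∈ Ideal.span {f}) (P : Ideal B)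
    (hPm : P.IsMaximal) (hPo : P.LiesOver (Ideal.span {f})) :
    Module.Finite k (B ⧸ P) ∧ P.inertiaDeg A = Module.finrank k (B ⧸ P) := by
  set p : Ideal A := Ideal.span {f} with hp
  have hbij : Function.Bijective (algebraMap k (A ⧸ p)) := by
    refine ⟨?_, ?_⟩
    · have : Nontrivial (A ⧸ p) := Ideal.Quotient.nontrivial_iff.2 hmax.ne_top
      exact (algebraMap k (A ⧸ p)).injective
    · intro y
      obtain ⟨a, rfl⟩ := Ideal.Quotient.mk_surjective y
      obtain ⟨c, hc⟩ := hq a
      refine ⟨c, ?_⟩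
      have h1 : Ideal.Quotient.mk p (algebraMap k A c) = Ideal.Quotient.mk p a := by
        rw [Ideal.Quotient.eq, ← neg_sub]
        exact p.neg_mem hc
      exact h1
  have e1 : k ≃ₐ[k] (A ⧸ p) := AlgEquiv.ofBijective (Algebra.ofId k (A ⧸ p)) hbij
  have f1 : Module.Finite k (A ⧸ p) := Module.Finite.equiv e1.toLinearEquiv
  have f2 : Module.finrank k (A ⧸ p) = 1 := by
    rw [← e1.toLinearEquiv.finrank_eq]
    exact Module.finrank_self k
  have st : IsScalarTower k (A ⧸ p) (B ⧸ P) := inferInstance
  have f3 : Module.Finite A (B ⧸ P) := inferInstance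
  have f4 : Module.Finite (A ⧸ p) (B ⧸ P) := Module.Finite.of_restrictScalars_finite A (A ⧸ p) (B ⧸ P)
  have f5 : Module.Finite k (B ⧸ P) := Module.Finite.trans (A ⧸ p) (B ⧸ P)
  refine ⟨f5, ?_⟩
  rw [Ideal.inertiaDeg_eq_of_isMaximal p P]
  let : Field (A ⧸ p) := Ideal.Quotient.field p
  have h2 := Module.finrank_mul_finrank k (A ⧸ p) (B ⧸ P)
  rw [f2, one_mul] at h2
  exact h2

open scoped IntermediateField.algebraAdjoinAdjoin in
/-- the common part of `pf_sum` and `pf_quo_fin` -/
private theorem pf1_part (htr : Algebra.trdeg k κ = 1) (hfg : (⊤ : IntermediateField k κ).FG) (f : κ)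
    (hf : Transcendental k f) [IsDedekindDomain (BB k f)] (P : HeightOneSpectrum (BB k f))
    (f' : BB k f) (hf' : (f' : κ) = f) (hP : f' ∈ P.asIdeal) :
    Module.Finite k (BB k f ⧸ P.asIdeal) ∧
      P.asIdeal.inertiaDeg (Algebra.adjoin k {f}) = Module.finrank k (BB k f ⧸ P.asIdeal) := by
  have h1 := a3_fin htr hfg f hf
  have h2 := a3_pid f hf
  have h3 : IsDedekindDomain (Algebra.adjoin k {f}) := inferInstance
  have h4 : CharZero k⟮f⟯ := charZero_of_injective_algebraMap (algebraMap k k⟮f⟯).injective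
  have h5 : Algebra.IsSeparable k⟮f⟯ κ := inferInstance
  have h6 : Module.Finite (Algebra.adjoin k {f}) (BB k f) :=
    IsIntegralClosure.finite (Algebra.adjoin k {f}) k⟮f⟯ κ (BB k f)
  obtain ⟨hm, hq⟩ := a3_max f hf
  set a : Algebra.adjoin k {f} := ⟨f, Algebra.self_mem_adjoin_singleton k f⟩ with ha
  have ha' : algebraMap (Algebra.adjoin k {f}) (BB k f) a = f' := by
    apply Subtype.ext
    rw [hf']
    rfl
  have hPo : P.asIdeal.LiesOver (Ideal.span {a}) := by
    constructor
    have hle : Ideal.span {a} ≤ P.asIdeal.under (Algebra.adjoin k {f}) := by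
      rw [Ideal.span_le]
      intro x hx
      rw [Set.mem_singleton_iff] at hx
      rw [hx]
      show algebraMap (Algebra.adjoin k {f}) (BB k f) a ∈ P.asIdeal
      rw [ha']
      exact hP
    have hne : P.asIdeal.under (Algebra.adjoin k {f}) ≠ ⊤ := by
      have := P.isPrime
      exact (Ideal.IsPrime.under (Algebra.adjoin k {f}) P.asIdeal).ne_top
    exact hm.eq_of_le hne hle
  exact pf1_quo a hm hq P.asIdeal P.isMaximal hPo

open scoped IntermediateField.algebraAdjoinAdjoin in
theorem pf_sum (htr : Algebra.trdeg k κ = 1) (hfg : (⊤ : IntermediateField k κ).FG) (f : κ)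
    (hf : Transcendental k f) [IsDedekindDomain (BB k f)] [IsFractionRing (BB k f) κ]
    (f' : BB k f) (hf' : (f' : κ) = f) :
    ∃ S : Finset (HeightOneSpectrum (BB k f)), (∀ P, P ∈ S ↔ f' ∈ P.asIdeal) ∧
      ∑ P ∈ S, WithZero.log (P.valuation κ f)⁻¹ * (Module.finrank k (BB k f ⧸ P.asIdeal) : ℤ) =
        (Module.finrank k⟮f⟯ κ : ℤ) := by
  have h1 := a3_fin htr hfg f hf
  have h2 := a3_pid f hf
  have h3 : IsDedekindDomain (Algebra.adjoin k {f}) := inferInstance
  have h4 : CharZero k⟮f⟯ := charZero_of_injective_algebraMap (algebraMap k k⟮f⟯).injective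
  have h5 : Algebra.IsSeparable k⟮f⟯ κ := inferInstance
  have h6 : Module.Finite (Algebra.adjoin k {f}) (BB k f) :=
    IsIntegralClosure.finite (Algebra.adjoin k {f}) k⟮f⟯ κ (BB k f)
  obtain ⟨hm, hq⟩ := a3_max f hf
  set a : Algebra.adjoin k {f} := ⟨f, Algebra.self_mem_adjoin_singleton k f⟩ with ha
  have ha' : algebraMap (Algebra.adjoin k {f}) (BB k f) a = f' := by
    apply Subtype.ext
    rw [hf']
    rfl
  have ha0 : a ≠ 0 := by
    intro h
    have : f = 0 := congrArg Subtype.val h
    rw [this] at hf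
    exact hf (isAlgebraic_zero)
  obtain ⟨S, hS, hsum⟩ := pf_gen (A := Algebra.adjoin k {f}) (B := BB k f) (κ := κ) a hm ha0
  refine ⟨S, ?_, ?_⟩
  · intro P
    rw [hS P, ha']
  · have hf2 : algebraMap (BB k f) κ (algebraMap (Algebra.adjoin k {f}) (BB k f) a) = f := by
      rw [ha']
      exact hf'
    rw [hf2, ← IsFractionRing.finrank_eq (Algebra.adjoin k {f}) k⟮f⟯ (BB k f) κ] at hsum
    rw [← hsum]
    apply Finset.sum_congr rfl
    intro P hP
    rw [hS P, ha'] at hP
    rw [(pf1_part htr hfg f hf P f' hf' hP).2]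

theorem pf_quo_fin (htr : Algebra.trdeg k κ = 1) (hfg : (⊤ : IntermediateField k κ).FG) (f : κ)
    (hf : Transcendental k f) [IsDedekindDomain (BB k f)] [IsFractionRing (BB k f) κ]
    (f' : BB k f) (hf' : (f' : κ) = f) (P : HeightOneSpectrum (BB k f)) (hP : f' ∈ P.asIdeal) :
    Module.Finite k (BB k f ⧸ P.asIdeal) :=
  (pf1_part htr hfg f hf P f' hf' hP).1

end Pool.Agent.H83.TU
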