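import Pool.Agent.H83.TU.RA

/-!
# [H83 TU RB] Theorem U: elementary properties of `R_F`

`F` a field between `k` and `K` with `trdeg K / F = 1`; `RF` is defined in `RF.lean`.
* `rf_mul`: `RF (D * E) = RF D + RF E`: `mul_eq`, `ord_mul` (`D.ne`, `E.ne`), `finsum_add_distrib` (the supports are finite by `rf_fin`: the support of `p ↦ ord * deg` is contained in the set of `rf_fin`).
* `rf_one`, `rf_inv`, `rf_pow`: from `rf_mul` (or directly: `one_eq`, `ord_one`).
* `rf_eff`: `D` effective: `D.eq c ∈ O c ⊆ p.R` for the centre `c` of `p` (`cenK_le`; `down_R`), so the orders are `≥ 0` (`ord_nonneg`): all terms are `≥ 0` (`finsum_nonneg`).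
* `rf_prin`: `RF (prin f) = 0` is `sum_ordD` over the field `F` (`F_fg`; the local equation of `prin X f hf` is `f` at all points).
* `rf_pos`: if `D` is effective and `ord (D.eq c) > 0` for some place `p` over `F` with centre `c`, then `RF D > 0`: all terms are `≥ 0`, and the term of `p` is `> 0` (`deg_pos`); `finsum_pos` (finite support) or `single_le_finsum`.
-/

set_option autoImplicit false

namespace Pool.Agent.H83.TU

open Pool.Agent.H54.RV

variable {k K : Type} [Field k] [Field K] [Algebra k K] [CharZero k] {X : Mod k K}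

private theorem rb_fin (hX : IsVar X) (hg : ∃ g, Gen X g) (F : IntermediateField k K)
    (hF : Algebra.trdeg F K = 1) (D : Cart X) :
    (Function.support fun p : Place F K =>
      p.ord (D.eq (cenK hX hg (down p))) * (deg p : ℤ)).Finite := by
  refine (rf_fin hX hg F hF D).subset fun p hp => ?_
  exact left_ne_zero_of_mul hp

private theorem rb_nn (hX : IsVar X) (hg : ∃ g, Gen X g) (F : IntermediateField k K)
    (D : Cart X) (hD : Effective D) (p : Place F K) :
    0 ≤ p.ord (D.eq (cenK hX hg (down p))) * (deg p : ℤ) := by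
  refine mul_nonneg ((ord_nonneg p _ (D.ne _)).2 ?_) (Nat.cast_nonneg _)
  exact cenK_le hX hg (down p) _ (hD _)

section

variable (hX : IsVar X) (hg : ∃ g, Gen X g) (F : IntermediateField k K) (hF : Algebra.trdeg F K = 1)

include hF

theorem rf_mul (D E : Cart X) : RF hX hg F (D * E) = RF hX hg F D + RF hX hg F E := by
  unfold RF
  rw [← finsum_add_distrib (rb_fin hX hg F hF D) (rb_fin hX hg F hF E)]
  refine finsum_congr fun p => ?_
  rw [mul_eq, ord_mul p _ _ (D.ne _) (E.ne _), add_mul]

theorem rf_one : RF hX hg F (1 : Cart X) = 0 := by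
  have h := rf_mul hX hg F hF 1 1
  rw [mul_one] at h
  omega

theorem rf_inv (D : Cart X) : RF hX hg F D⁻¹ = - RF hX hg F D := by
  have h := rf_mul hX hg F hF D D⁻¹
  rw [mul_inv_cancel, rf_one hX hg F hF] at h
  omega

theorem rf_pow (D : Cart X) (n : ℕ) : RF hX hg F (D ^ n) = n * RF hX hg F D := by
  induction n with
  | zero =>
    rw [pow_zero, rf_one hX hg F hF]
    push_cast
    ring
  | succ n ih =>
    rw [pow_succ, rf_mul hX hg F hF, ih]
    push_cast
    ring

theorem rf_eff (D : Cart X) (hD : Effective D) : 0 ≤ RF hX hg F D := by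
  unfold RF
  exact finsum_nonneg fun p => rb_nn hX hg F D hD p

theorem rf_prin (f : K) (hf : f ≠ 0) : RF hX hg F (prin X f hf) = 0 := by
  haveI : CharZero F := charZero_of_injective_algebraMap (algebraMap k F).injective
  exact sum_ordD (k := F) (κ := K) hF (F_fg hX hg F) f hf

theorem rf_pos (D : Cart X) (hD : Effective D) (p : Place F K)
    (hp : 0 < p.ord (D.eq (cenK hX hg (down p)))) : 0 < RF hX hg F D := by
  haveI : CharZero F := charZero_of_injective_algebraMap (algebraMap k F).injective
  unfold RF
  refine finsum_pos (fun q => rb_nn hX hg F D hD q) ⟨p, ?_⟩ (rb_fin hX hg F hF D)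
  exact mul_pos hp (by exact_mod_cast deg_pos (k := F) (κ := K) hF (F_fg hX hg F) p)

end

end Pool.Agent.H83.TU
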