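import Pool.Agent.H83.TU.Base
import Pool.Agent.H54.RV.S1
import Pool.Agent.H54.RV.Aut
import Pool.Agent.H57.KM.Defs

/-!
# Theorem U: automorphisms and fundamental domains
-/

set_option autoImplicit false

namespace Pool.Agent.H83.TU

open AlgebraicGeometry CategoryTheory Pool.Agent.H57.KM Pool.Agent.H54.RV

variable {Y : Scheme.{0}} [IsIntegral Y] (f : Y ⟶ Spec (.of ℂ))

/-- the pull-back of rational functions by an automorphism of `Y`: its stalk map at the generic point -/
noncomputable def rat (e : Y ⟶ Y) [IsIso e] : FF f →+* FF f :=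
  (Y.presheaf.stalkSpecializes (specializes_of_eq (genericPoint_eq_of_isOpenImmersion e)) ≫
    e.stalkMap (genericPoint Y)).hom

/-- the matrices of the pull-backs by the automorphisms `e` of `Y` over `ℂ` -/
def autS (ν : Cart (mdl f) →* Multiplicative (Fin 2 → ℤ)) : Set (GL (Fin 2) ℤ) :=
  {g | ∃ (e : Y ≅ Y) (α : MAut (mdl f)), e.hom ≫ f = f ∧ (∀ x : Y, α.σ x = e.hom x) ∧
    (∀ a : FF f, α.τ a = rat f e.hom a) ∧ ∀ D : Cart (mdl f), cv ν (α.pull D) = act g (cv ν D)}

/-- `S` is the union of the translates of a rational polyhedral cone, with disjoint interiors -/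
def FundS (G : Set (GL (Fin 2) ℤ)) (S : Set (V 2)) : Prop :=
  ∃ P : Set (V 2), RatPoly P ∧ S = ⋃ g ∈ G, act g '' P ∧
    ∀ g ∈ G, g ≠ 1 → Disjoint (interior P) (act g '' interior P)

end Pool.Agent.H83.TU
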